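import Mathlib
import Pool.Agent.TH967.DP.AC2

/-!
Anti-concentration for the logarithm of a weighted partition function. This is the argument of
`Pool/Agent/TH967/DP/AC2.lean` with additional positive weights of the paths.
-/

open MeasureTheory ProbabilityTheory TH967.DP

namespace Pool.Agent.K1H53.SD

variable {ι W : Type*} [Fintype ι] [DecidableEq ι] [Fintype W]

/-- partition function with weights -/
noncomputable def ZZw (β : ℝ) (c : W → ℝ) (vis : W → Finset ι) (η : ι → ℝ) : ℝ :=
  ∑ w, c w * Real.exp (β * ∑ s ∈ vis w, η s)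

/-- its logarithm -/
noncomputable def YYw (β : ℝ) (c : W → ℝ) (vis : W → Finset ι) (η : ι → ℝ) : ℝ :=
  Real.log (ZZw β c vis η)

/-- visit probability -/
noncomputable def occw (β : ℝ) (c : W → ℝ) (vis : W → Finset ι) (s : ι) (η : ι → ℝ) : ℝ :=
  (∑ w, if s ∈ vis w then c w * Real.exp (β * ∑ t ∈ vis w, η t) else 0) / ZZw β c vis η

variable {c : W → ℝ}

lemma ZZw_pos [Nonempty W] (hc : ∀ w, 0 < c w) (β : ℝ) (vis : W → Finset ι) (η : ι → ℝ) :
    0 < ZZw β c vis η := by
  unfold ZZw
  exact Finset.sum_pos (fun w _ => mul_pos (hc w) (Real.exp_pos _)) Finset.univ_nonempty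

lemma measurable_ZZw (β : ℝ) (c : W → ℝ) (vis : W → Finset ι) : Measurable (ZZw β c vis) := by
  unfold ZZw
  fun_prop

lemma measurable_YYw (β : ℝ) (c : W → ℝ) (vis : W → Finset ι) : Measurable (YYw β c vis) := by
  unfold YYw
  exact Real.measurable_log.comp (measurable_ZZw β c vis)

lemma measurable_occw (β : ℝ) (c : W → ℝ) (vis : W → Finset ι) (s : ι) :
    Measurable (occw β c vis s) := by
  unfold occw
  apply Measurable.div _ (measurable_ZZw β c vis)
  apply Finset.measurable_sum
  intro w _
  split_ifs
  · fun_prop
  · exact measurable_const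

lemma occw_nonneg [Nonempty W] (hc : ∀ w, 0 < c w) (β : ℝ) (vis : W → Finset ι) (s : ι)
    (η : ι → ℝ) : 0 ≤ occw β c vis s η := by
  unfold occw
  apply div_nonneg _ (ZZw_pos hc β vis η).le
  apply Finset.sum_nonneg
  intro w _
  split_ifs
  · exact (mul_pos (hc w) (Real.exp_pos _)).le
  · exact le_rfl

lemma occw_le_one [Nonempty W] (hc : ∀ w, 0 < c w) (β : ℝ) (vis : W → Finset ι) (s : ι)
    (η : ι → ℝ) : occw β c vis s η ≤ 1 := by
  unfold occw
  rw [div_le_one (ZZw_pos hc β vis η)]
  unfold ZZw
  apply Finset.sum_le_sum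
  intro w _
  split_ifs
  · exact le_rfl
  · exact (mul_pos (hc w) (Real.exp_pos _)).le

lemma sum_occw [Nonempty W] (hc : ∀ w, 0 < c w) (β : ℝ) (vis : W → Finset ι) {m : ℕ}
    (hm : ∀ w, (vis w).card = m) (η : ι → ℝ) : ∑ s, occw β c vis s η = m := by
  unfold occw
  rw [← Finset.sum_div, Finset.sum_comm, div_eq_iff (ZZw_pos hc β vis η).ne']
  unfold ZZw
  rw [Finset.mul_sum]
  apply Finset.sum_congr rfl
  intro w _
  rw [Finset.sum_ite_mem, Finset.univ_inter, Finset.sum_const, hm w, nsmul_eq_mul]

/-- part not visiting `s` -/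
noncomputable def partAw (β : ℝ) (c : W → ℝ) (vis : W → Finset ι) (s : ι) (η : ι → ℝ) : ℝ :=
  ∑ w, if s ∈ vis w then 0 else c w * Real.exp (β * ∑ t ∈ vis w, η t)

/-- part visiting `s`, without the value at `s` -/
noncomputable def partBw (β : ℝ) (c : W → ℝ) (vis : W → Finset ι) (s : ι) (η : ι → ℝ) : ℝ :=
  ∑ w, if s ∈ vis w then c w * Real.exp (β * ∑ t ∈ vis w \ {s}, η t) else 0

lemma partAw_nonneg (hc : ∀ w, 0 < c w) (β : ℝ) (vis : W → Finset ι) (s : ι) (η : ι → ℝ) :
    0 ≤ partAw β c vis s η := by
  unfold partAw
  apply Finset.sum_nonneg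
  intro w _
  split_ifs
  · exact le_rfl
  · exact (mul_pos (hc w) (Real.exp_pos _)).le

lemma partBw_nonneg (hc : ∀ w, 0 < c w) (β : ℝ) (vis : W → Finset ι) (s : ι) (η : ι → ℝ) :
    0 ≤ partBw β c vis s η := by
  unfold partBw
  apply Finset.sum_nonneg
  intro w _
  split_ifs
  · exact (mul_pos (hc w) (Real.exp_pos _)).le
  · exact le_rfl

lemma ZZw_update (β : ℝ) (c : W → ℝ) (vis : W → Finset ι) (s : ι) (η : ι → ℝ) (u : ℝ) :
    ZZw β c vis (Function.update η s u) =
      partAw β c vis s η + partBw β c vis s η * Real.exp (β * u) := by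
  unfold ZZw partAw partBw
  rw [Finset.sum_mul, ← Finset.sum_add_distrib]
  apply Finset.sum_congr rfl
  intro w _
  split_ifs with h
  · rw [Finset.sum_update_of_mem h, zero_add, mul_assoc, ← Real.exp_add]
    congr 2; ring
  · rw [Finset.sum_update_of_notMem h]; simp

lemma occw_update (β : ℝ) (c : W → ℝ) (vis : W → Finset ι) (s : ι) (η : ι → ℝ) (u : ℝ) :
    occw β c vis s (Function.update η s u) = partBw β c vis s η * Real.exp (β * u) /
      (partAw β c vis s η + partBw β c vis s η * Real.exp (β * u)) := by
  unfold occw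
  rw [ZZw_update]
  congr 1
  unfold partBw
  rw [Finset.sum_mul]
  apply Finset.sum_congr rfl
  intro w _
  split_ifs with h
  · rw [Finset.sum_update_of_mem h, mul_assoc, ← Real.exp_add]
    congr 2; ring
  · simp

/-- the integrated one-site inequality -/
lemma site_ineqw [Nonempty W] (hc : ∀ w, 0 < c w) (μ : Measure ℝ) [IsProbabilityMeasure μ]
    {a b : ℝ} (hab : a < b)
    (hp : 0 < μ.real (Set.Ici b)) (hm : 0 < μ.real (Set.Iic a)) {β : ℝ} (hβ : 0 < β)
    (vis : W → Finset ι) (s : ι) {y L : ℝ} (hL : 0 ≤ L) :
    ∫ η, (1 - Real.exp (-(β * (b - a)))) * occw β c vis s η *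
        (YYw β c vis ⁻¹' Set.Icc y (y + L)).indicator (fun _ => (1 : ℝ)) η
        ∂(Measure.pi fun _ : ι => μ) ≤
      ∫ η, clip y L (YYw β c vis η) * score μ a b (η s) ∂(Measure.pi fun _ : ι => μ) := by
  set q := 1 - Real.exp (-(β * (b - a))) with hq
  have hq1 : q ≤ 1 := by rw [hq]; linarith [Real.exp_pos (-(β * (b - a)))]
  have hq0 : 0 ≤ q := by
    rw [hq]
    have : Real.exp (-(β * (b - a))) ≤ 1 := Real.exp_le_one_iff.2 (by nlinarith)
    linarith
  have hmS : MeasurableSet (YYw β c vis ⁻¹' Set.Icc y (y + L)) :=
    measurable_YYw β c vis measurableSet_Icc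
  have ind01 : ∀ η, 0 ≤ (YYw β c vis ⁻¹' Set.Icc y (y + L)).indicator (fun _ => (1 : ℝ)) η ∧
      (YYw β c vis ⁻¹' Set.Icc y (y + L)).indicator (fun _ => (1 : ℝ)) η ≤ 1 := by
    intro η
    by_cases h : η ∈ YYw β c vis ⁻¹' Set.Icc y (y + L)
    · rw [Set.indicator_of_mem h]; simp
    · rw [Set.indicator_of_notMem h]; simp
  have hG1m : Measurable (fun η => q * occw β c vis s η *
        (YYw β c vis ⁻¹' Set.Icc y (y + L)).indicator (fun _ => (1 : ℝ)) η) :=
    ((measurable_occw β c vis s).const_mul q).mul (measurable_const.indicator hmS)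
  have hG1b : ∀ η, |q * occw β c vis s η *
        (YYw β c vis ⁻¹' Set.Icc y (y + L)).indicator (fun _ => (1 : ℝ)) η| ≤ 1 := by
    intro η
    have h1 := occw_nonneg hc β vis s η
    have h2 := occw_le_one hc β vis s η
    obtain ⟨h3, h4⟩ := ind01 η
    rw [abs_of_nonneg (by positivity)]
    calc q * occw β c vis s η * _ ≤ 1 * 1 * 1 := by gcongr
      _ = 1 := by norm_num
  have hG2m : Measurable (fun η : ι → ℝ => clip y L (YYw β c vis η) * score μ a b (η s)) :=
    ((measurable_clip y L).comp (measurable_YYw β c vis)).mul
      ((measurable_score μ a b).comp (measurable_pi_apply s))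
  have hG2b : ∀ η : ι → ℝ, |clip y L (YYw β c vis η) * score μ a b (η s)| ≤
      (L + 2) * (1 / μ.real (Set.Ici b) + 1 / μ.real (Set.Iic a)) := by
    intro η
    rw [abs_mul]
    exact mul_le_mul (abs_clip_le hL _) (abs_score_le μ a b _) (abs_nonneg _) (by linarith)
  rw [integral_resample μ s hG1m hG1b, integral_resample μ s hG2m hG2b]
  have h1 := mp_update (ι := ι) μ s
  have ip1 : Integrable (fun p : (ι → ℝ) × ℝ => (fun η => q * occw β c vis s η *
        (YYw β c vis ⁻¹' Set.Icc y (y + L)).indicator (fun _ => (1 : ℝ)) η)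
          (Function.update p.1 s p.2)) ((Measure.pi fun _ : ι => μ).prod μ) :=
    integrable_bdd (hG1m.comp h1.measurable) (fun x => hG1b _)
  have ip2 : Integrable (fun p : (ι → ℝ) × ℝ =>
      (fun η : ι → ℝ => clip y L (YYw β c vis η) * score μ a b (η s))
          (Function.update p.1 s p.2)) ((Measure.pi fun _ : ι => μ).prod μ) :=
    integrable_bdd (hG2m.comp h1.measurable) (fun x => hG2b _)
  apply integral_mono ip1.integral_prod_left ip2.integral_prod_left
  intro η
  simp only [Function.update_self]
  have mu : Measurable (fun u : ℝ => Function.update η s u) := by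
    rw [measurable_pi_iff]
    intro i
    by_cases h : i = s
    · subst h
      simp only [Function.update_self]
      exact measurable_id
    · simp only [Function.update_of_ne h]
      exact measurable_const
  apply one_site μ hab hp hm (F := fun u => clip y L (YYw β c vis (Function.update η s u)))
    (h := fun u => q * occw β c vis s (Function.update η s u) *
        (YYw β c vis ⁻¹' Set.Icc y (y + L)).indicator (fun _ => (1 : ℝ)) (Function.update η s u))
    (((measurable_clip y L).comp (measurable_YYw β c vis)).comp mu)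
    (C := L + 2) (fun x => abs_clip_le hL _) (hG1m.comp mu) (C' := 1) (fun x => hG1b _)
  intro v w u hv hu hvw hwu
  have zpos : 0 < partAw β c vis s η + partBw β c vis s η * Real.exp (β * v) := by
    rw [← ZZw_update]; exact ZZw_pos hc _ _ _
  have mono : Real.log (partAw β c vis s η + partBw β c vis s η * Real.exp (β * v)) ≤
      Real.log (partAw β c vis s η + partBw β c vis s η * Real.exp (β * u)) := by
    apply Real.log_le_log zpos
    have : Real.exp (β * v) ≤ Real.exp (β * u) := Real.exp_le_exp.2 (by nlinarith)
    have := mul_le_mul_of_nonneg_left this (partBw_nonneg hc β vis s η)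
    linarith
  by_cases hin : Function.update η s w ∈ YYw β c vis ⁻¹' Set.Icc y (y + L)
  · rw [Set.indicator_of_mem hin, mul_one]
    rw [occw_update]
    simp only [Set.mem_preimage, Set.mem_Icc] at hin
    unfold YYw at hin ⊢
    rw [ZZw_update] at hin
    rw [ZZw_update, ZZw_update]
    apply key_ineq (partAw_nonneg hc _ _ _ _) (partBw_nonneg hc _ _ _ _) (Real.exp_pos _) _ _ zpos _
      hin.1 hin.2
    · exact Real.exp_le_exp.2 (by nlinarith)
    · exact Real.exp_le_exp.2 (by nlinarith)
    · rw [hq, ← Real.exp_sub]
      have : Real.exp (β * v - β * u) ≤ Real.exp (-(β * (b - a))) :=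
        Real.exp_le_exp.2 (by nlinarith)
      linarith
  · rw [Set.indicator_of_notMem hin, mul_zero]
    have := clip_mono y L mono
    unfold YYw
    rw [ZZw_update, ZZw_update]
    linarith

/-- the anti-concentration bound -/
theorem anti_concw [Nonempty W] [Nonempty ι] (hc : ∀ w, 0 < c w) (μ : Measure ℝ)
    [IsProbabilityMeasure μ] {a b : ℝ}
    (hab : a < b) (hp : 0 < μ.real (Set.Ici b)) (hm : 0 < μ.real (Set.Iic a)) {β : ℝ}
    (hβ : 0 < β) (vis : W → Finset ι) {m : ℕ} (hcard : ∀ w, (vis w).card = m)
    {y L : ℝ} (hL : 0 ≤ L) :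
    m * (1 - Real.exp (-(β * (b - a)))) *
      (Measure.pi fun _ : ι => μ).real (YYw β c vis ⁻¹' Set.Icc y (y + L)) ≤
    (L + 2) * Real.sqrt (Fintype.card ι *
      (1 / μ.real (Set.Ici b) + 1 / μ.real (Set.Iic a))) := by
  set q := 1 - Real.exp (-(β * (b - a))) with hq
  set π := (Measure.pi fun _ : ι => μ) with hπ
  set K := 1 / μ.real (Set.Ici b) + 1 / μ.real (Set.Iic a) with hK
  have hKpos : 0 < K := by positivity
  have hmS : MeasurableSet (YYw β c vis ⁻¹' Set.Icc y (y + L)) :=
    measurable_YYw β c vis measurableSet_Icc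
  -- left side as a sum
  have hint1 : ∀ s, Integrable (fun η => q * occw β c vis s η *
        (YYw β c vis ⁻¹' Set.Icc y (y + L)).indicator (fun _ => (1 : ℝ)) η) π := by
    intro s
    apply integrable_bdd (C := |q| * 1 * 1)
      (((measurable_occw β c vis s).const_mul q).mul (measurable_const.indicator hmS))
    intro η
    simp only [Pi.mul_apply]
    rw [abs_mul, abs_mul]
    have h1 : |occw β c vis s η| ≤ 1 := by
      rw [abs_of_nonneg (occw_nonneg hc β vis s η)]; exact occw_le_one hc β vis s η
    have h2 : |(YYw β c vis ⁻¹' Set.Icc y (y + L)).indicator (fun _ => (1 : ℝ)) η| ≤ 1 := by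
      by_cases h : η ∈ YYw β c vis ⁻¹' Set.Icc y (y + L)
      · rw [Set.indicator_of_mem h]; simp
      · rw [Set.indicator_of_notMem h]; simp
    gcongr
  have hint2 : ∀ s, Integrable (fun η : ι → ℝ => clip y L (YYw β c vis η) * score μ a b (η s)) π := by
    intro s
    apply integrable_bdd (C := (L + 2) * K) (((measurable_clip y L).comp (measurable_YYw β c vis)).mul
      ((measurable_score μ a b).comp (measurable_pi_apply s)))
    intro η
    simp only [Pi.mul_apply, Function.comp]
    rw [abs_mul]
    exact mul_le_mul (abs_clip_le hL _) (abs_score_le μ a b _) (abs_nonneg _) (by linarith)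
  have lhs : m * q * π.real (YYw β c vis ⁻¹' Set.Icc y (y + L)) =
      ∑ s, ∫ η, q * occw β c vis s η *
        (YYw β c vis ⁻¹' Set.Icc y (y + L)).indicator (fun _ => (1 : ℝ)) η ∂π := by
    rw [← integral_finsetSum _ (fun s _ => hint1 s)]
    have : ∀ η, ∑ s, q * occw β c vis s η *
        (YYw β c vis ⁻¹' Set.Icc y (y + L)).indicator (fun _ => (1 : ℝ)) η =
        m * q * (YYw β c vis ⁻¹' Set.Icc y (y + L)).indicator (fun _ => (1 : ℝ)) η := by
      intro η
      rw [← Finset.sum_mul, ← Finset.mul_sum, sum_occw hc β vis hcard]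
      ring
    simp_rw [this]
    rw [integral_const_mul, integral_indicator hmS]
    simp
  rw [lhs]
  calc ∑ s, ∫ η, q * occw β c vis s η *
        (YYw β c vis ⁻¹' Set.Icc y (y + L)).indicator (fun _ => (1 : ℝ)) η ∂π
      ≤ ∑ s, ∫ η, clip y L (YYw β c vis η) * score μ a b (η s) ∂π :=
        Finset.sum_le_sum (fun s _ => site_ineqw hc μ hab hp hm hβ vis s hL)
    _ = ∫ η, clip y L (YYw β c vis η) * (∑ s, score μ a b (η s)) ∂π := by
        rw [← integral_finsetSum _ (fun s _ => hint2 s)]
        simp_rw [Finset.mul_sum]
    _ ≤ (L + 2) * Real.sqrt (Fintype.card ι * K) := by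
        set t := Real.sqrt (Fintype.card ι * K) with ht
        have hcpos : (0 : ℝ) < Fintype.card ι := by exact_mod_cast Fintype.card_pos
        have htpos : 0 < t := Real.sqrt_pos.2 (by positivity)
        have ht2 : t ^ 2 = Fintype.card ι * K := Real.sq_sqrt (by positivity)
        have hmem : MemLp (score μ a b) 2 μ := by
          apply MemLp.of_bound (measurable_score μ a b).aestronglyMeasurable K
          exact Filter.Eventually.of_forall (fun x => abs_score_le μ a b x)
        have hvar := variance_sum_pi (μ := fun _ : ι => μ) (X := fun _ : ι => score μ a b)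
          (fun _ => hmem)
        have hint0 : ∀ s : ι, Integrable (fun η : ι → ℝ => score μ a b (η s)) π := by
          intro s
          exact integrable_bdd (C := K) ((measurable_score μ a b).comp (measurable_pi_apply s))
            (fun η => abs_score_le μ a b _)
        have hmean : ∀ s : ι, ∫ η : ι → ℝ, score μ a b (η s) ∂π = 0 := by
          intro s
          have h := (measurePreserving_eval (fun _ : ι => μ) s)
          have h2 := integral_map (μ := Measure.pi fun _ : ι => μ) (φ := Function.eval s)
            h.measurable.aemeasurable (f := score μ a b)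
            (measurable_score μ a b).aestronglyMeasurable
          rw [h.map_eq, integral_score μ hp hm] at h2
          exact h2.symm
        have hfun : (∑ i : ι, fun ω : ι → ℝ => score μ a b (ω i)) =
            fun η => ∑ s, score μ a b (η s) := by
          ext η
          simp
        have hsum0 : ∫ η, (∑ s, score μ a b (η s)) ∂π = 0 := by
          rw [integral_finsetSum _ (fun s _ => hint0 s)]
          simp [hmean]
        have hmeasG : Measurable (fun η : ι → ℝ => ∑ s, score μ a b (η s)) := by
          apply Finset.measurable_sum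
          intro s _
          exact (measurable_score μ a b).comp (measurable_pi_apply s)
        have hE2 : ∫ η, (∑ s, score μ a b (η s)) ^ 2 ∂π = t ^ 2 := by
          rw [hfun, variance_of_integral_eq_zero hmeasG.aemeasurable hsum0] at hvar
          rw [hvar]
          rw [variance_of_integral_eq_zero (measurable_score μ a b).aemeasurable
            (integral_score μ hp hm), integral_score_sq μ hab hp hm, ht2]
          rw [Finset.sum_const, nsmul_eq_mul, Finset.card_univ]
        have hGb : ∀ η : ι → ℝ, |∑ s, score μ a b (η s)| ≤ Fintype.card ι * K := by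
          intro η
          refine (Finset.abs_sum_le_sum_abs _ _).trans ?_
          refine (Finset.sum_le_sum (fun s _ => abs_score_le μ a b (η s))).trans ?_
          rw [Finset.sum_const, nsmul_eq_mul]
          rfl
        have hintG2 : Integrable (fun η : ι → ℝ => (∑ s, score μ a b (η s)) ^ 2) π := by
          apply integrable_bdd (C := (Fintype.card ι * K) ^ 2) (hmeasG.pow_const 2)
          intro η
          rw [abs_pow]
          exact pow_le_pow_left₀ (abs_nonneg _) (hGb η) 2
        have hintl : Integrable (fun η : ι → ℝ => clip y L (YYw β c vis η) *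
            (∑ s, score μ a b (η s))) π := by
          apply integrable_bdd (C := (L + 2) * (Fintype.card ι * K))
            (((measurable_clip y L).comp (measurable_YYw β c vis)).mul hmeasG)
          intro η
          simp only [Pi.mul_apply, Function.comp]
          rw [abs_mul]
          exact mul_le_mul (abs_clip_le hL _) (hGb η) (abs_nonneg _) (by linarith)
        calc ∫ η, clip y L (YYw β c vis η) * (∑ s, score μ a b (η s)) ∂π
            ≤ ∫ η, (L + 2) * (((∑ s, score μ a b (η s)) ^ 2 / t + t) / 2) ∂π := by
              apply integral_mono hintl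
              · exact (((hintG2.div_const _).add (integrable_const _)).div_const _).const_mul _
              · intro η
                simp only
                set G := ∑ s, score μ a b (η s) with hGdef
                have h1 : |G| ≤ (G ^ 2 / t + t) / 2 := by
                  rw [le_div_iff₀ (by norm_num : (0:ℝ) < 2), ← sub_nonneg]
                  have : G ^ 2 / t + t - |G| * 2 = (|G| - t) ^ 2 / t := by
                    rw [← sq_abs G]
                    field_simp
                    ring
                  rw [this]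
                  positivity
                calc clip y L (YYw β c vis η) * G ≤ |clip y L (YYw β c vis η) * G| := le_abs_self _
                  _ = |clip y L (YYw β c vis η)| * |G| := abs_mul _ _
                  _ ≤ (L + 2) * ((G ^ 2 / t + t) / 2) :=
                    mul_le_mul (abs_clip_le hL _) h1 (abs_nonneg _) (by linarith)
          _ = (L + 2) * t := by
              rw [integral_const_mul, integral_div, integral_add (hintG2.div_const _)
                (integrable_const _), integral_div, hE2]
              simp only [integral_const, probReal_univ, one_smul]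
              field_simp
              ring

end Pool.Agent.K1H53.SD
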