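import Mathlib

/-!
A non-constant random variable has a gap between two sets of positive probability.  (Same lemma as
in the starting module `TH967.DP.Bound`, copied here.)
-/

open MeasureTheory ProbabilityTheory

namespace Pool.Agent.K1H53.SD

variable {Ω : Type*} [MeasurableSpace Ω] {P : Measure Ω} [IsProbabilityMeasure P]

/-- non-constancy gives a gap -/
lemma exists_gap {X : Ω → ℝ} (hX : Measurable X) (hexp : ∀ b : ℝ, Integrable (fun x => Real.exp (b * X x)) P)
    (hnc : ¬ ∃ c : ℝ, ∀ᵐ x ∂P, X x = c) :
    ∃ a b : ℝ, a < b ∧ 0 < (P.map X).real (Set.Ici b) ∧ 0 < (P.map X).real (Set.Iic a) := by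
  have hint : Integrable X P := by
    have h1 := hexp 1
    have h2 := hexp (-1)
    simp only [one_mul, neg_mul] at h1 h2
    refine (h1.add h2).mono' hX.aestronglyMeasurable (Filter.Eventually.of_forall (fun x => ?_))
    simp only [Pi.add_apply, Real.norm_eq_abs]
    have e1 := Real.add_one_le_exp (X x)
    have e2 := Real.add_one_le_exp (-X x)
    have e3 := Real.exp_pos (X x)
    have e4 := Real.exp_pos (-X x)
    rw [abs_le]
    constructor <;> linarith
  set c := ∫ x, X x ∂P with hc
  have hlow : ∃ a, a < c ∧ 0 < P.real {x | X x ≤ a} := by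
    by_contra hcon
    push Not at hcon
    have hz : ∀ k : ℕ, P {x | X x ≤ c - 1 / ((k : ℝ) + 1)} = 0 := by
      intro k
      have := hcon (c - 1 / ((k : ℝ) + 1)) (by
        have : (0 : ℝ) < 1 / ((k : ℝ) + 1) := by positivity
        linarith)
      have h0 : P.real {x | X x ≤ c - 1 / ((k : ℝ) + 1)} = 0 :=
        le_antisymm this measureReal_nonneg
      rwa [measureReal_eq_zero_iff] at h0
    have hge : ∀ᵐ x ∂P, c ≤ X x := by
      have : ∀ᵐ x ∂P, ∀ k : ℕ, ¬ (X x ≤ c - 1 / ((k : ℝ) + 1)) := by
        rw [ae_all_iff]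
        intro k
        rw [ae_iff]
        simpa using hz k
      filter_upwards [this] with x hx
      by_contra hlt
      push Not at hlt
      obtain ⟨k, hk⟩ := exists_nat_one_div_lt (sub_pos.2 hlt)
      apply hx k
      linarith
    have h0 : ∫ x, (X x - c) ∂P = 0 := by
      rw [integral_sub hint (integrable_const _)]
      simp [hc]
    have h1 := (integral_eq_zero_iff_of_nonneg_ae (μ := P) (f := fun x => X x - c) (by
      filter_upwards [hge] with x hx
      simp only [Pi.zero_apply]
      linarith) (hint.sub (integrable_const _))).1 h0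
    apply hnc
    refine ⟨c, ?_⟩
    filter_upwards [h1] with x hx
    simp only [Pi.zero_apply] at hx
    linarith
  have hhigh : ∃ b, c < b ∧ 0 < P.real {x | b ≤ X x} := by
    by_contra hcon
    push Not at hcon
    have hz : ∀ k : ℕ, P {x | c + 1 / ((k : ℝ) + 1) ≤ X x} = 0 := by
      intro k
      have := hcon (c + 1 / ((k : ℝ) + 1)) (by
        have : (0 : ℝ) < 1 / ((k : ℝ) + 1) := by positivity
        linarith)
      have h0 : P.real {x | c + 1 / ((k : ℝ) + 1) ≤ X x} = 0 :=
        le_antisymm this measureReal_nonneg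
      rwa [measureReal_eq_zero_iff] at h0
    have hge : ∀ᵐ x ∂P, X x ≤ c := by
      have : ∀ᵐ x ∂P, ∀ k : ℕ, ¬ (c + 1 / ((k : ℝ) + 1) ≤ X x) := by
        rw [ae_all_iff]
        intro k
        rw [ae_iff]
        simpa using hz k
      filter_upwards [this] with x hx
      by_contra hlt
      push Not at hlt
      obtain ⟨k, hk⟩ := exists_nat_one_div_lt (sub_pos.2 hlt)
      apply hx k
      linarith
    have h0 : ∫ x, (c - X x) ∂P = 0 := by
      rw [integral_sub (integrable_const _) hint]
      simp [hc]
    have h1 := (integral_eq_zero_iff_of_nonneg_ae (μ := P) (f := fun x => c - X x) (by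
      filter_upwards [hge] with x hx
      simp only [Pi.zero_apply]
      linarith) ((integrable_const _).sub hint)).1 h0
    apply hnc
    refine ⟨c, ?_⟩
    filter_upwards [h1] with x hx
    simp only [Pi.zero_apply] at hx
    linarith
  obtain ⟨a, ha, ha2⟩ := hlow
  obtain ⟨b, hb, hb2⟩ := hhigh
  refine ⟨a, b, ha.trans hb, ?_, ?_⟩
  · rw [map_measureReal_apply hX measurableSet_Ici]
    exact hb2
  · rw [map_measureReal_apply hX measurableSet_Iic]
    exact ha2

end Pool.Agent.K1H53.SD
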