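import Pool.Agent.K1H53.SD.Paths

/-!
The random environment: invariance, integrability, mean free energies.
-/

open MeasureTheory ProbabilityTheory

set_option linter.unusedSectionVars false

namespace Pool.Agent.K1H53.SD

variable {Ω : Type*} [MeasurableSpace Ω] {P : Measure Ω} [IsProbabilityMeasure P]

/-- i.i.d. environments on `ℕ × ℤ` -/
structure IsEnv (P : Measure Ω) (ω : ℕ → ℤ → Ω → ℝ) : Prop where
  meas : ∀ i x, Measurable (ω i x)
  indep : iIndepFun (fun s : ℕ × ℤ => ω s.1 s.2) P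
  ident : ∀ i x, IdentDistrib (ω i x) (ω 1 0) P P

/-- Boltzmann weights -/
noncomputable def wt (β : ℝ) (η : ℕ → ℤ → ℝ) : ℕ → ℤ → ℝ := fun i x => Real.exp (β * η i x)

lemma wt_pos (β : ℝ) (η : ℕ → ℤ → ℝ) (i : ℕ) (x : ℤ) : 0 < wt β η i x := Real.exp_pos _

variable {ω : ℕ → ℤ → Ω → ℝ}

lemma map_inv (h : IsEnv P ω) {τ : ℕ → ℤ → ℕ × ℤ}
    (hτ : Function.Injective (fun s : ℕ × ℤ => τ s.1 s.2)) :
    P.map (fun a (s : ℕ × ℤ) => ω (τ s.1 s.2).1 (τ s.1 s.2).2 a) =
      P.map (fun a (s : ℕ × ℤ) => ω s.1 s.2 a) := by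
  have h1 := h.indep.precomp hτ
  have h2 := h1.map_fun_eq_infinitePi_map (fun s => h.meas _ _)
  have h3 := h.indep.map_fun_eq_infinitePi_map (fun s => h.meas _ _)
  have e : ∀ i x, P.map (ω i x) = P.map (ω 1 0) := fun i x => (h.ident i x).map_eq
  rw [h3]
  refine h2.trans ?_
  congr 1
  ext1 s
  exact (e _ _).trans (e _ _).symm

lemma measurable_curry' : Measurable (fun (f : ℕ × ℤ → ℝ) (i : ℕ) (x : ℤ) => f (i, x)) := by
  rw [measurable_pi_iff]
  intro i
  rw [measurable_pi_iff]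
  intro x
  exact measurable_pi_apply _

lemma measurable_field (h : IsEnv P ω) {τ : ℕ → ℤ → ℕ × ℤ} :
    Measurable (fun a (s : ℕ × ℤ) => ω (τ s.1 s.2).1 (τ s.1 s.2).2 a) := by
  rw [measurable_pi_iff]
  intro s
  exact h.meas _ _

lemma measurable_env (h : IsEnv P ω) : Measurable (fun a i x => ω i x a) := by
  rw [measurable_pi_iff]
  intro i
  rw [measurable_pi_iff]
  intro x
  exact h.meas _ _

lemma integral_inv (h : IsEnv P ω) {τ : ℕ → ℤ → ℕ × ℤ}
    (hτ : Function.Injective (fun s : ℕ × ℤ => τ s.1 s.2)) {F : (ℕ → ℤ → ℝ) → ℝ}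
    (hF : Measurable F) :
    ∫ a, F (fun i x => ω (τ i x).1 (τ i x).2 a) ∂P = ∫ a, F (fun i x => ω i x a) ∂P := by
  have hm := hF.comp measurable_curry'
  have h1 := integral_map (μ := P) (measurable_field h (τ := τ)).aemeasurable
    (f := F ∘ fun (f : ℕ × ℤ → ℝ) (i : ℕ) (x : ℤ) => f (i, x)) hm.aestronglyMeasurable
  have h2 := integral_map (μ := P) (measurable_field h (τ := fun i x => (i, x))).aemeasurable
    (f := F ∘ fun (f : ℕ × ℤ → ℝ) (i : ℕ) (x : ℤ) => f (i, x)) hm.aestronglyMeasurable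
  rw [map_inv h hτ] at h1
  exact h1.symm.trans h2

lemma prob_inv (h : IsEnv P ω) {τ : ℕ → ℤ → ℕ × ℤ}
    (hτ : Function.Injective (fun s : ℕ × ℤ => τ s.1 s.2)) {S : Set (ℕ → ℤ → ℝ)}
    (hS : MeasurableSet S) :
    P.real {a | (fun i x => ω (τ i x).1 (τ i x).2 a) ∈ S} = P.real {a | (fun i x => ω i x a) ∈ S} := by
  have hm : MeasurableSet ((fun (f : ℕ × ℤ → ℝ) (i : ℕ) (x : ℤ) => f (i, x)) ⁻¹' S) :=
    measurable_curry' hS
  have h1 := map_measureReal_apply (μ := P) (measurable_field h (τ := τ)) hm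
  have h2 := map_measureReal_apply (μ := P) (measurable_field h (τ := fun i x => (i, x))) hm
  rw [map_inv h hτ] at h1
  exact h1.symm.trans h2

lemma measurable_Z {α : Type*} [MeasurableSpace α] {K : α → ℕ → ℤ → ℝ}
    (hK : ∀ i x, Measurable (fun a => K a i x)) (x0 : ℤ) (n : ℕ) :
    ∀ z, Measurable (fun a => Z (K a) x0 n z) := by
  induction n with
  | zero => intro z; exact measurable_const
  | succ n ih =>
    intro z
    exact (hK _ _).mul ((ih _).add (ih _))

lemma measurable_wt (β : ℝ) (i : ℕ) (x : ℤ) : Measurable (fun η : ℕ → ℤ → ℝ => wt β η i x) := by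
  unfold wt
  have : Measurable (fun η : ℕ → ℤ → ℝ => η i x) :=
    (measurable_pi_apply x).comp (measurable_pi_apply i)
  fun_prop

lemma measurable_wt' (h : IsEnv P ω) (β : ℝ) (i : ℕ) (x : ℤ) :
    Measurable (fun a => wt β (fun i x => ω i x a) i x) :=
  (measurable_wt β i x).comp (measurable_env h)

/-- mean free energy -/
noncomputable def am (P : Measure Ω) (ω : ℕ → ℤ → Ω → ℝ) (β : ℝ) (n : ℕ) (x : ℤ) : ℝ :=
  ∫ a, Real.log (Z (wt β (fun i x => ω i x a)) 0 n x) ∂P

lemma mean_shift (h : IsEnv P ω) (β : ℝ) (s : ℕ) (x0 : ℤ) (n : ℕ) (z : ℤ) :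
    ∫ a, Real.log (Z (sh s (wt β (fun i x => ω i x a))) x0 n z) ∂P = am P ω β n (z - x0) := by
  have hτ : Function.Injective (fun p : ℕ × ℤ => ((s + p.1, p.2 + x0) : ℕ × ℤ)) := by
    rintro ⟨i, x⟩ ⟨j, y⟩ hh
    simp only [Prod.mk.injEq] at hh
    ext <;> simp <;> omega
  have h1 := integral_inv h (τ := fun i x => (s + i, x + x0)) hτ
    (F := fun η => Real.log (Z (wt β η) 0 n (z - x0)))
    (Real.measurable_log.comp (measurable_Z (fun i x => measurable_wt β i x) _ _ _))
  unfold am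
  rw [← h1]
  congr 1
  ext a
  rw [Z_trans _ x0 x0, sub_self]
  rfl

lemma exists_path {x0 z : ℤ} {n : ℕ} (h1 : |z - x0| ≤ (n : ℤ)) (h2 : (z - x0 - n) % 2 = 0) :
    ∃ w : Fin n → Bool, x0 + pos w n = z := by
  by_contra hcon
  push Not at hcon
  have := Z_pos (K := fun _ _ => 1) (fun _ _ => one_pos) x0 n z h1 h2
  rw [Z_eq_sum, Finset.sum_eq_zero] at this
  · exact lt_irrefl _ this
  · intro w _
    rw [if_neg (hcon w)]

/-- exponential moments -/
def HasExp (P : Measure Ω) (ω : ℕ → ℤ → Ω → ℝ) : Prop :=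
  ∀ b : ℝ, Integrable (fun a => Real.exp (b * ω 1 0 a)) P

lemma integrable_exp (h : IsEnv P ω) (hexp : HasExp P ω) (b : ℝ) (i : ℕ) (x : ℤ) :
    Integrable (fun a => Real.exp (b * ω i x a)) P := by
  have := (h.ident i x).comp (u := fun t => Real.exp (b * t)) (by fun_prop)
  exact this.integrable_iff.2 (hexp b)

lemma integrable_site (h : IsEnv P ω) (hexp : HasExp P ω) (i : ℕ) (x : ℤ) :
    Integrable (ω i x) P := by
  have h1 := integrable_exp h hexp 1 i x
  have h2 := integrable_exp h hexp (-1) i x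
  simp only [one_mul, neg_mul] at h1 h2
  refine (h1.add h2).mono' (h.meas i x).aestronglyMeasurable (Filter.Eventually.of_forall
    (fun a => ?_))
  simp only [Pi.add_apply, Real.norm_eq_abs]
  have e1 := Real.add_one_le_exp (ω i x a)
  have e2 := Real.add_one_le_exp (-ω i x a)
  have e3 := Real.exp_pos (ω i x a)
  have e4 := Real.exp_pos (-ω i x a)
  rw [abs_le]
  constructor <;> linarith

lemma mean_site (h : IsEnv P ω) (i : ℕ) (x : ℤ) : ∫ a, ω i x a ∂P = ∫ a, ω 1 0 a ∂P :=
  (h.ident i x).integral_eq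

lemma mgf_site (h : IsEnv P ω) (b : ℝ) (i : ℕ) (x : ℤ) :
    mgf (ω i x) P b = mgf (ω 1 0) P b := by
  have := (h.ident i x).comp (u := fun t => Real.exp (b * t)) (by fun_prop)
  exact this.integral_eq

/-- the sum along a path -/
lemma pw_eq (β : ℝ) (η : ℕ → ℤ → ℝ) (s : ℕ) (x0 : ℤ) {n : ℕ} (w : Fin n → Bool) :
    pw (sh s (wt β η)) x0 w =
      Real.exp (β * ∑ i : Fin n, η (s + (i.val + 1)) (x0 + pos w (i.val + 1))) := by
  unfold pw sh wt
  rw [← Real.exp_sum, Finset.mul_sum]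

lemma path_indep (h : IsEnv P ω) (s : ℕ) (x0 : ℤ) {n : ℕ} (w : Fin n → Bool) :
    iIndepFun (fun i : Fin n => ω (s + (i.val + 1)) (x0 + pos w (i.val + 1))) P := by
  have hinj : Function.Injective (fun i : Fin n =>
      ((s + (i.val + 1), x0 + pos w (i.val + 1)) : ℕ × ℤ)) := by
    intro i j hij
    simp only [Prod.mk.injEq] at hij
    ext
    omega
  exact h.indep.precomp hinj

lemma integrable_pw (h : IsEnv P ω) (hexp : HasExp P ω) (β : ℝ) (s : ℕ) (x0 : ℤ) {n : ℕ}
    (w : Fin n → Bool) :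
    Integrable (fun a => pw (sh s (wt β (fun i x => ω i x a))) x0 w) P := by
  have h1 := (path_indep h s x0 w).integrable_exp_mul_sum (t := β) (s := Finset.univ)
    (fun i => h.meas _ _) (fun i _ => integrable_exp h hexp β _ _)
  have : (fun a => pw (sh s (wt β (fun i x => ω i x a))) x0 w) =
      fun a => Real.exp (β * (∑ i : Fin n, ω (s + (i.val + 1)) (x0 + pos w (i.val + 1))) a) := by
    ext a
    rw [pw_eq, Finset.sum_apply]
  rw [this]
  exact h1

lemma integral_pw (h : IsEnv P ω) (β : ℝ) (s : ℕ) (x0 : ℤ) {n : ℕ}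
    (w : Fin n → Bool) :
    ∫ a, pw (sh s (wt β (fun i x => ω i x a))) x0 w ∂P = mgf (ω 1 0) P β ^ n := by
  have h1 := (path_indep h s x0 w).mgf_sum (t := β) (fun i => h.meas _ _) Finset.univ
  have : (fun a => pw (sh s (wt β (fun i x => ω i x a))) x0 w) =
      fun a => Real.exp (β * (∑ i : Fin n, ω (s + (i.val + 1)) (x0 + pos w (i.val + 1))) a) := by
    ext a
    rw [pw_eq, Finset.sum_apply]
  rw [this]
  refine h1.trans ?_
  simp_rw [mgf_site h]
  rw [Finset.prod_const, Finset.card_univ, Fintype.card_fin]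

lemma integrable_Z (h : IsEnv P ω) (hexp : HasExp P ω) (β : ℝ) (s : ℕ) (x0 : ℤ) (n : ℕ)
    (z : ℤ) : Integrable (fun a => Z (sh s (wt β (fun i x => ω i x a))) x0 n z) P := by
  simp_rw [Z_eq_sum]
  apply integrable_finsetSum
  intro w _
  by_cases hw : x0 + pos w n = z
  · simp_rw [if_pos hw]
    exact integrable_pw h hexp β s x0 w
  · simp_rw [if_neg hw]
    exact integrable_zero _ _ _

lemma integral_Z_le (h : IsEnv P ω) (hexp : HasExp P ω) (β : ℝ) (s : ℕ) (x0 : ℤ) (n : ℕ)
    (z : ℤ) : ∫ a, Z (sh s (wt β (fun i x => ω i x a))) x0 n z ∂P ≤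
      (2 * mgf (ω 1 0) P β) ^ n := by
  have h1 : ∫ a, Z (sh s (wt β (fun i x => ω i x a))) x0 n z ∂P ≤
      ∫ a, ∑ w : Fin n → Bool, pw (sh s (wt β (fun i x => ω i x a))) x0 w ∂P := by
    apply integral_mono (integrable_Z h hexp β s x0 n z)
    · exact integrable_finsetSum _ (fun w _ => integrable_pw h hexp β s x0 w)
    · intro a
      simp only
      rw [Z_eq_sum]
      apply Finset.sum_le_sum
      intro w _
      split_ifs
      · exact le_rfl
      · rw [pw_eq]; exact (Real.exp_pos _).le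
  refine h1.trans ?_
  rw [integral_finsetSum _ (fun w _ => integrable_pw h hexp β s x0 w)]
  simp_rw [integral_pw h]
  rw [Finset.sum_const, Finset.card_univ, nsmul_eq_mul, mul_pow]
  simp

lemma log_lower (β : ℝ) (η : ℕ → ℤ → ℝ) (s : ℕ) {x0 z : ℤ} {n : ℕ} {w : Fin n → Bool}
    (hw : x0 + pos w n = z) :
    β * ∑ i : Fin n, η (s + (i.val + 1)) (x0 + pos w (i.val + 1)) ≤
      Real.log (Z (sh s (wt β η)) x0 n z) := by
  rw [Real.le_log_iff_exp_le]
  · rw [← pw_eq, Z_eq_sum]
    refine le_trans ?_ (Finset.single_le_sum (f := fun w : Fin n → Bool =>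
      if x0 + pos w n = z then pw (sh s (wt β η)) x0 w else 0) ?_ (Finset.mem_univ w))
    · rw [if_pos hw]
    · intro v _
      split_ifs
      · rw [pw_eq]; exact (Real.exp_pos _).le
      · exact le_rfl
  · rw [Z_eq_sum]
    apply Finset.sum_pos'
    · intro v _
      split_ifs
      · rw [pw_eq]; exact (Real.exp_pos _).le
      · exact le_rfl
    · refine ⟨w, Finset.mem_univ _, ?_⟩
      rw [if_pos hw, pw_eq]
      exact Real.exp_pos _

lemma integrable_logZ (h : IsEnv P ω) (hexp : HasExp P ω) (β : ℝ) (s : ℕ) {x0 : ℤ} {n : ℕ}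
    {z : ℤ} (h1 : |z - x0| ≤ (n : ℤ)) (h2 : (z - x0 - n) % 2 = 0) :
    Integrable (fun a => Real.log (Z (sh s (wt β (fun i x => ω i x a))) x0 n z)) P := by
  obtain ⟨w, hw⟩ := exists_path h1 h2
  have i1 := integrable_Z h hexp β s x0 n z
  have i2 : Integrable (fun a => β * ∑ i : Fin n, ω (s + (i.val + 1)) (x0 + pos w (i.val + 1)) a)
      P := (integrable_finsetSum _ (fun i _ => integrable_site h hexp _ _)).const_mul β
  refine (i1.add i2.norm).mono' ?_ (Filter.Eventually.of_forall (fun a => ?_))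
  · exact (Real.measurable_log.comp (measurable_Z (fun i x => measurable_wt' h β _ x) _ _
      _)).aestronglyMeasurable
  · simp only [Pi.add_apply, Real.norm_eq_abs]
    have l1 := log_lower β (fun i x => ω i x a) s hw
    have hZp : 0 < Z (sh s (wt β (fun i x => ω i x a))) x0 n z :=
      Z_pos (fun i x => wt_pos _ _ _ _) _ _ _ h1 h2
    have l2 := Real.log_le_sub_one_of_pos hZp
    have l3 := neg_abs_le (β * ∑ i : Fin n, ω (s + (i.val + 1)) (x0 + pos w (i.val + 1)) a)
    have l4 := abs_nonneg (β * ∑ i : Fin n, ω (s + (i.val + 1)) (x0 + pos w (i.val + 1)) a)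
    rw [abs_le]
    constructor <;> linarith

lemma sh_zero (K : ℕ → ℤ → ℝ) : sh 0 K = K := by
  funext i x
  unfold sh
  rw [Nat.zero_add]

lemma am_bound (h : IsEnv P ω) (hexp : HasExp P ω) (β : ℝ) :
    ∃ C : ℝ, 0 < C ∧ ∀ (n : ℕ) (x : ℤ), |x| ≤ (n : ℤ) → (x - n) % 2 = 0 →
      |am P ω β n x| ≤ C * n := by
  set m := mgf (ω 1 0) P β with hm
  have hmpos : 0 < m := mgf_pos (hexp β)
  refine ⟨|β * ∫ a, ω 1 0 a ∂P| + |Real.log (2 * m)| + 1, by positivity, ?_⟩
  intro n x h1 h2
  have h1' : |x - 0| ≤ (n : ℤ) := by simpa using h1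
  have h2' : (x - 0 - n) % 2 = 0 := by simpa using h2
  have hint := integrable_logZ h hexp β 0 h1' h2'
  simp_rw [sh_zero] at hint
  -- lower bound
  obtain ⟨w, hw⟩ := exists_path h1' h2'
  have lo : n * (β * ∫ a, ω 1 0 a ∂P) ≤ am P ω β n x := by
    have i2 : Integrable (fun a => β * ∑ i : Fin n, ω (0 + (i.val + 1)) (0 + pos w (i.val + 1)) a)
      P := (integrable_finsetSum _ (fun i _ => integrable_site h hexp _ _)).const_mul β
    have e : ∫ a, β * ∑ i : Fin n, ω (0 + (i.val + 1)) (0 + pos w (i.val + 1)) a ∂P =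
        n * (β * ∫ a, ω 1 0 a ∂P) := by
      rw [integral_const_mul, integral_finsetSum _ (fun i _ => integrable_site h hexp _ _)]
      simp_rw [mean_site h]
      rw [Finset.sum_const, Finset.card_univ, Fintype.card_fin, nsmul_eq_mul]
      ring
    rw [← e]
    unfold am
    apply integral_mono i2 hint
    intro a
    have := log_lower β (fun i x => ω i x a) 0 hw
    rw [sh_zero] at this
    exact this
  -- upper bound
  have up : am P ω β n x ≤ n * Real.log (2 * m) := by
    set c := (2 * m) ^ n with hc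
    have hcpos : 0 < c := by positivity
    have hZ := integral_Z_le h hexp β 0 0 n x
    simp_rw [sh_zero] at hZ
    have iZ := integrable_Z h hexp β 0 0 n x
    simp_rw [sh_zero] at iZ
    have : am P ω β n x ≤ ∫ a, (Z (wt β (fun i x => ω i x a)) 0 n x / c - 1 + Real.log c) ∂P := by
      unfold am
      apply integral_mono hint
      · exact ((iZ.div_const _).sub (integrable_const _)).add (integrable_const _)
      · intro a
        simp only
        have pos : 0 < Z (wt β (fun i x => ω i x a)) 0 n x :=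
          Z_pos (fun i x => wt_pos _ _ _ _) _ _ _ h1' h2'
        have := Real.log_le_sub_one_of_pos (div_pos pos hcpos)
        rw [Real.log_div pos.ne' hcpos.ne'] at this
        linarith
    have e : ∫ a, (Z (wt β (fun i x => ω i x a)) 0 n x / c - 1 + Real.log c) ∂P =
        (∫ a, Z (wt β (fun i x => ω i x a)) 0 n x ∂P) / c - 1 + Real.log c := by
      have e1 := integral_add ((iZ.div_const c).sub (integrable_const (1 : ℝ)))
        (integrable_const (μ := P) (Real.log c))
      have e2 := integral_sub (iZ.div_const c) (integrable_const (μ := P) (1 : ℝ))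
      simp only [Pi.sub_apply] at e1 e2
      rw [e1, e2, integral_div]
      simp
    rw [e] at this
    have h3 : (∫ a, Z (wt β (fun i x => ω i x a)) 0 n x ∂P) / c ≤ 1 :=
      (div_le_one hcpos).2 hZ
    have h4 : Real.log c = n * Real.log (2 * m) := by rw [hc, Real.log_pow]
    linarith
  have hn : (0 : ℝ) ≤ n := Nat.cast_nonneg n
  have g1 := neg_abs_le (β * ∫ a, ω 1 0 a ∂P)
  have g2 := le_abs_self (Real.log (2 * m))
  have g3 := abs_nonneg (β * ∫ a, ω 1 0 a ∂P)
  have g4 := abs_nonneg (Real.log (2 * m))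
  rw [abs_le]
  constructor
  · nlinarith [mul_le_mul_of_nonneg_left g1 hn, mul_nonneg hn g4]
  · nlinarith [mul_le_mul_of_nonneg_left g2 hn, mul_nonneg hn g3]

end Pool.Agent.K1H53.SD
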