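import Mathlib

/-!
Choice of the scale.
-/

open Filter Topology

namespace Pool.Agent.K1H53.SD

/-- radius at scale `N` -/
noncomputable def rad (κ : ℝ) (N : ℕ) : ℕ := ⌈((2 * N : ℕ) : ℝ) ^ κ⌉₊ + 3

lemma rad_le {κ : ℝ} (h0 : 0 < κ) (h1 : κ < 1) {N : ℕ} (hN : 1 ≤ N) :
    (rad κ N : ℝ) ≤ 6 * (N : ℝ) ^ κ := by
  have hN1 : (1 : ℝ) ≤ N := by exact_mod_cast hN
  have hp : (1 : ℝ) ≤ (N : ℝ) ^ κ := Real.one_le_rpow hN1 h0.le
  have h2 : ((2 * N : ℕ) : ℝ) ^ κ ≤ 2 * (N : ℝ) ^ κ := by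
    push_cast
    rw [Real.mul_rpow (by norm_num) (by positivity)]
    apply mul_le_mul_of_nonneg_right _ (by positivity)
    calc (2 : ℝ) ^ κ ≤ (2 : ℝ) ^ (1 : ℝ) := Real.rpow_le_rpow_of_exponent_le (by norm_num) h1.le
      _ = 2 := by norm_num
  have h3 := Nat.ceil_lt_add_one (show (0 : ℝ) ≤ ((2 * N : ℕ) : ℝ) ^ κ by positivity)
  unfold rad
  push_cast at h3 h2 ⊢
  linarith

lemma rad_div_tendsto {κ : ℝ} (h0 : 0 < κ) (h1 : κ < 1) :
    Tendsto (fun N : ℕ => (rad κ N : ℝ) / N) atTop (𝓝 0) := by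
  have h2 : Tendsto (fun N : ℕ => 6 * (N : ℝ) ^ (-(1 - κ))) atTop (𝓝 (6 * 0)) :=
    ((tendsto_rpow_neg_atTop (show 0 < 1 - κ by linarith)).comp
      tendsto_natCast_atTop_atTop).const_mul 6
  rw [mul_zero] at h2
  refine squeeze_zero' (Eventually.of_forall fun N => by positivity) ?_ h2
  filter_upwards [eventually_ge_atTop 1] with N hN
  have hN1 : (0 : ℝ) < N := by exact_mod_cast hN
  rw [div_le_iff₀ hN1]
  have e : (N : ℝ) ^ (-(1 - κ)) * N = (N : ℝ) ^ κ := by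
    nth_rw 2 [← Real.rpow_one (N : ℝ)]
    rw [← Real.rpow_add hN1]
    congr 1
    ring
  rw [mul_assoc, e]
  exact rad_le h0 h1 hN

lemma rad_pow_tendsto {κ : ℝ} (h0 : 0 < κ) (h1 : κ < 3 / 5) :
    Tendsto (fun N : ℕ => (rad κ N : ℝ) ^ 5 / N ^ 3) atTop (𝓝 0) := by
  have h2 : Tendsto (fun N : ℕ => 7776 * (N : ℝ) ^ (-(3 - 5 * κ))) atTop (𝓝 (7776 * 0)) :=
    ((tendsto_rpow_neg_atTop (show 0 < 3 - 5 * κ by linarith)).comp
      tendsto_natCast_atTop_atTop).const_mul 7776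
  rw [mul_zero] at h2
  refine squeeze_zero' (Eventually.of_forall fun N => by positivity) ?_ h2
  filter_upwards [eventually_ge_atTop 1] with N hN
  have hN1 : (0 : ℝ) < N := by exact_mod_cast hN
  rw [div_le_iff₀ (by positivity)]
  have e : (N : ℝ) ^ (-(3 - 5 * κ)) * (N : ℝ) ^ 3 = ((N : ℝ) ^ κ) ^ 5 := by
    rw [← Real.rpow_natCast (N : ℝ) 3, ← Real.rpow_add hN1, ← Real.rpow_natCast _ 5,
      ← Real.rpow_mul hN1.le]
    congr 1
    push_cast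
    ring
  rw [mul_assoc, e]
  have h3 : (rad κ N : ℝ) ^ 5 ≤ (6 * (N : ℝ) ^ κ) ^ 5 :=
    pow_le_pow_left₀ (by positivity) (rad_le h0 (by linarith) hN) 5
  calc _ ≤ _ := h3
    _ = 7776 * ((N : ℝ) ^ κ) ^ 5 := by ring

/-- all requirements on the scale can be met -/
lemma exists_scale {κ : ℝ} (h0 : 0 < κ) (h1 : κ < 3 / 5) (n0 : ℕ) {d ε A B c : ℝ} (hd : 0 < d)
    (hε : 0 < ε) (hc : 0 < c) :
    ∃ N : ℕ, 1 ≤ N ∧ n0 ≤ N ∧ 10 * (rad κ N : ℝ) / N < d ∧ 28 * (rad κ N : ℝ) ≤ N * ε ∧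
      A * ((rad κ N : ℝ) ^ 5 / N ^ 3) + B * ((rad κ N : ℝ) / N) < c := by
  have t1 := rad_div_tendsto h0 (by linarith : κ < 1)
  have t2 := rad_pow_tendsto h0 h1
  have t3 := (t2.const_mul A).add (t1.const_mul B)
  rw [mul_zero, mul_zero, add_zero] at t3
  have e1 := t1.eventually (gt_mem_nhds (show (0 : ℝ) < d / 10 by positivity))
  have e2 := t1.eventually (gt_mem_nhds (show (0 : ℝ) < ε / 28 by positivity))
  have e3 := t3.eventually (gt_mem_nhds hc)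
  obtain ⟨N, a1, a2, a3, a4, a5⟩ := (e1.and (e2.and (e3.and
    ((eventually_ge_atTop 1).and (eventually_ge_atTop n0))))).exists
  have hN1 : (0 : ℝ) < N := by exact_mod_cast a4
  refine ⟨N, a4, a5, ?_, ?_, a3⟩
  · rw [mul_div_assoc]; linarith
  · rw [div_lt_iff₀ hN1] at a2
    linarith

end Pool.Agent.K1H53.SD
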