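import Pool.Agent.K1H53.SD.Scale
import Pool.Agent.K1H53.SD.Scal
import Pool.Agent.K1H53.SD.Gap

/-!
The set of directions in which the point-to-point polymer is confined with high probability at all
large times is a null set.
-/

open MeasureTheory ProbabilityTheory Set

set_option linter.unusedSectionVars false

namespace Pool.Agent.K1H53.SD

variable {Ω : Type*} [MeasurableSpace Ω] {P : Measure Ω} [IsProbabilityMeasure P]
variable {ω : ℕ → ℤ → Ω → ℝ}

/-- directions of confinement -/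
def bad (P : Measure Ω) (ω : ℕ → ℤ → Ω → ℝ) (β κ : ℝ) (n0 : ℕ) (ε : ℝ) : Set ℝ :=
  {v | v ∈ Icc (-1 + ε) (1 - ε) ∧ ∀ n : ℕ, n0 ≤ n →
    7 / 8 ≤ qq P ω β n (endp n v) (⌈(n : ℝ) ^ κ⌉₊ + 3) (7 / 8)}

lemma measurable_endp (n : ℕ) : Measurable (endp n) := by
  have h : Measurable fun v : ℝ => ⌊(n : ℝ) * (1 + v) / 2⌋ :=
    Int.measurable_floor.comp (by fun_prop)
  have h2 : Measurable (fun z : ℤ => 2 * z - (n : ℤ)) := measurable_from_top
  exact h2.comp h

lemma measurableSet_bad (P : Measure Ω) (ω : ℕ → ℤ → Ω → ℝ) (β κ : ℝ) (n0 : ℕ) (ε : ℝ) :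
    MeasurableSet (bad P ω β κ n0 ε) := by
  have e : bad P ω β κ n0 ε = Icc (-1 + ε) (1 - ε) ∩ ⋂ n : ℕ, ⋂ _ : n0 ≤ n,
      {v | 7 / 8 ≤ qq P ω β n (endp n v) (⌈(n : ℝ) ^ κ⌉₊ + 3) (7 / 8)} := by
    ext v
    simp [bad]
  rw [e]
  apply measurableSet_Icc.inter
  apply MeasurableSet.iInter
  intro n
  apply MeasurableSet.iInter
  intro _
  have h2 : Measurable (fun z : ℤ => qq P ω β n z (⌈(n : ℝ) ^ κ⌉₊ + 3) (7 / 8)) :=
    measurable_from_top
  exact measurableSet_le measurable_const (h2.comp (measurable_endp n))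

theorem bad_null (h : IsEnv P ω) (hexp : HasExp P ω) (hnc : ¬ ∃ c : ℝ, ∀ᵐ a ∂P, ω 1 0 a = c)
    {β : ℝ} (hβ : 0 < β) {κ : ℝ} (h0 : 0 < κ) (h1 : κ < 3 / 5) (n0 : ℕ) {ε : ℝ} (hε : 0 < ε)
    (hε1 : ε < 1) : volume (bad P ω β κ n0 ε) = 0 := by
  by_contra hpos
  obtain ⟨a₀, b₀, hab, hp, hm⟩ := exists_gap (h.meas 1 0) hexp hnc
  obtain ⟨C, hC0, hC⟩ := am_bound h hexp β
  have hfin : volume (bad P ω β κ n0 ε) ≠ ⊤ :=
    ne_top_of_le_ne_top (by simp) (measure_mono (t := Icc (-1 + ε) (1 - ε)) fun v hv => hv.1)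
  obtain ⟨d, hd, m, hm0, htr⟩ := triple (measurableSet_bad P ω β κ n0 ε) hfin hpos
  set U := bad P ω β κ n0 ε with hU
  set Q := 1 / (P.map (ω 1 0)).real (Set.Ici b₀) + 1 / (P.map (ω 1 0)).real (Set.Iic a₀) with hQ
  have hQ0 : 0 < Q := by positivity
  set δ := 1 - Real.exp (-(β * (b₀ - a₀))) with hδ
  have hδ0 : 0 < δ := by
    have : Real.exp (-(β * (b₀ - a₀))) < 1 := by
      rw [Real.exp_lt_one_iff]
      have := mul_pos hβ (sub_pos.2 hab)
      linarith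
    rw [hδ]
    linarith
  set C3 := 11648 * C / (ε * m) with hC3
  have hC30 : 0 < C3 := by positivity
  obtain ⟨N, hN, hNn, hθ, hNε, hsm⟩ := exists_scale h0 h1 n0 (d := d) (ε := ε)
    (A := 3 * Q / δ ^ 2 * (128 * C3 ^ 2)) (B := 3 * Q / δ ^ 2 * 18) (c := (3 / 32) ^ 2) hd hε
    (by norm_num)
  set r := rad κ N with hr
  have hr3 : 3 ≤ r := by rw [hr]; unfold rad; omega
  have hr3' : (3 : ℝ) ≤ r := by exact_mod_cast hr3
  have hNR : (0 : ℝ) < N := by exact_mod_cast hN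
  have h4 : 4 ≤ N * ε := by linarith
  set θ := 10 * (r : ℝ) / N with hθd
  have hθ0 : 0 < θ := by positivity
  have hA := htr θ (by rwa [abs_of_pos hθ0])
  set c := 14 * (r : ℝ) / N with hc
  have hc0 : 0 < c := by positivity
  have hcε : c ≤ ε / 2 := by
    rw [hc, div_le_iff₀ hNR]
    linarith
  set A := U ∩ (fun v => v + θ) ⁻¹' U ∩ (fun v => v + -θ) ⁻¹' U with hAd
  have hUm : MeasurableSet U := measurableSet_bad P ω β κ n0 ε
  have hAm : MeasurableSet A :=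
    (hUm.inter (hUm.preimage (measurable_id.add_const θ))).inter
      (hUm.preimage (measurable_id.add_const (-θ)))
  obtain ⟨v, hv, hvd⟩ := exists_good (Hf_anti h hexp β hN) (a := -1 + ε) (b := 1 - ε) (c := c)
    (m := m) (by linarith) hc0.le hm0 hAm (fun v hv => hv.1.1.1) hA
  obtain ⟨⟨hvU, hvp⟩, hvm⟩ := hv
  have g1 : Hf P ω β N (-1 + ε - c) ≤ 16 * C / ε :=
    (Hf_anti h hexp β hN (by linarith)).trans (Hf_low h hexp β hC0 hC hε hε1 h4)
  have g2 : -(16 * C / ε) ≤ Hf P ω β N (1 - ε + c) :=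
    (Hf_high h hexp β hC0 hC hε hε1 h4).trans (Hf_anti h hexp β hN (by linarith))
  have g3 : Hf P ω β N (v - c) - Hf P ω β N (v + c) ≤ 896 * C * r / (ε * m * N) := by
    refine hvd.trans ?_
    calc 2 * c * (Hf P ω β N (-1 + ε - c) - Hf P ω β N (1 - ε + c)) / m ≤
        2 * c * (32 * C / ε) / m := by
          apply div_le_div_of_nonneg_right _ hm0.le
          apply mul_le_mul_of_nonneg_left _ (by positivity)
          have : 32 * C / ε = 16 * C / ε + 16 * C / ε := by ring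
          linarith
      _ = 896 * C * r / (ε * m * N) := by
          rw [hc]; field_simp; ring
  set t := 8 * C3 * r ^ 2 / N with ht
  have ht0 : 0 < t := by positivity
  have g4 : (13 * r * (Hf P ω β N (v - c) - Hf P ω β N (v + c))) / (4 * t) ≤ 1 / 32 := by
    rw [div_le_iff₀ (by positivity)]
    calc 13 * r * (Hf P ω β N (v - c) - Hf P ω β N (v + c)) ≤
        13 * r * (896 * C * r / (ε * m * N)) := by
          apply mul_le_mul_of_nonneg_left g3 (by positivity)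
      _ = 1 / 32 * (4 * t) := by
          rw [ht, hC3]; field_simp; ring
  have hv1 : (-1 + ε) ≤ v ∧ v ≤ 1 - ε := hvU.1
  have b1 : (r : ℝ) * 16 ≤ N * (1 + v) := by
    have : N * ε ≤ N * (1 + v) := mul_le_mul_of_nonneg_left (by linarith) hNR.le
    linarith
  have b2 : (r : ℝ) * 16 ≤ N * (1 - v) := by
    have : N * ε ≤ N * (1 - v) := mul_le_mul_of_nonneg_left (by linarith) hNR.le
    linarith
  have key := scale_ineq h hexp hab hp hm hβ hN hr3 b1 b2 ht0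
  rw [← hQ, ← hδ, ← hc, ← hθd] at key
  have q1 : 7 / 8 ≤ qq P ω β (2 * N) (endp (2 * N) v) r (7 / 8) := by
    have := hvU.2 (2 * N) (by omega)
    exact this
  have hrr : ⌈(N : ℝ) ^ κ⌉₊ + 3 ≤ r := by
    rw [hr]
    unfold rad
    apply Nat.add_le_add_right
    apply Nat.ceil_le_ceil
    apply Real.rpow_le_rpow hNR.le _ h0.le
    push_cast
    linarith
  have q2 : 7 / 8 ≤ qq P ω β N (endp N (v + θ)) r (7 / 8) :=
    (hvp.2 N hNn).trans (qq_mono h β N _ hrr _)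
  have q3 : 7 / 8 ≤ qq P ω β N (endp N (v + -θ)) r (7 / 8) :=
    (hvm.2 N hNn).trans (qq_mono h β N _ hrr _)
  have k1 : 3 / 32 ≤ (t + 3) * Real.sqrt ((2 * r + 1) * Q) / (Real.sqrt N * δ) := by
    linarith
  have k2 : (3 / 32 : ℝ) ^ 2 ≤ ((t + 3) * Real.sqrt ((2 * r + 1) * Q) / (Real.sqrt N * δ)) ^ 2 :=
    pow_le_pow_left₀ (by norm_num) k1 2
  have k5 : ((t + 3) * Real.sqrt ((2 * r + 1) * Q) / (Real.sqrt N * δ)) ^ 2 =
      (t + 3) ^ 2 * ((2 * r + 1) * Q) / (N * δ ^ 2) := by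
    rw [div_pow, mul_pow, mul_pow, Real.sq_sqrt (by positivity), Real.sq_sqrt hNR.le]
  rw [k5] at k2
  have k3 : (t + 3) ^ 2 * ((2 * r + 1) * Q) / (N * δ ^ 2) ≤
      (2 * t ^ 2 + 18) * ((3 * r) * Q) / (N * δ ^ 2) := by
    apply div_le_div_of_nonneg_right _ (by positivity)
    apply mul_le_mul _ _ (by positivity) (by positivity)
    · nlinarith [sq_nonneg (t - 3)]
    · apply mul_le_mul_of_nonneg_right _ hQ0.le
      linarith
  have k4 : (2 * t ^ 2 + 18) * ((3 * r) * Q) / (N * δ ^ 2) =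
      3 * Q / δ ^ 2 * (128 * C3 ^ 2) * ((r : ℝ) ^ 5 / N ^ 3) +
        3 * Q / δ ^ 2 * 18 * ((r : ℝ) / N) := by
    rw [ht]
    field_simp
    ring
  linarith

end Pool.Agent.K1H53.SD
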