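import Pool.Agent.K1H53.SD.Defs
import Pool.Agent.K1H53.SD.Final

/-!
From the null set of directions of confinement to the wandering exponent.
-/

open MeasureTheory ProbabilityTheory Filter
open Classical

set_option linter.unusedSectionVars false

namespace Pool.Agent.K1H53.SD

lemma pw_energy {n : ℕ} (β : ℝ) (η : ℕ → ℤ → ℝ) (w : Fin n → Bool) :
    pw (wt β η) 0 w = Real.exp (β * energy η w) := by
  unfold pw wt energy
  rw [Finset.mul_sum, Real.exp_sum]
  apply Finset.prod_congr rfl
  intro i _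
  rw [zero_add]

/-- the denominator -/
lemma den_eq (β : ℝ) (η : ℕ → ℤ → ℝ) (n : ℕ) (z : ℤ) :
    ∑ w : Fin n → Bool, {w : Fin n → Bool | pos w n = z}.indicator
      (fun w => Real.exp (β * energy η w)) w = Z (wt β η) 0 n z := by
  rw [Z_eq_sum]
  apply Finset.sum_congr rfl
  intro w _
  rw [Set.indicator_apply, pw_energy]
  simp only [Set.mem_ofPred_eq, zero_add]

lemma endp_abs (n : ℕ) {v : ℝ} (h1 : -1 ≤ v) (h2 : v ≤ 1) : |endp n v| ≤ (n : ℤ) := by
  have hn : (0 : ℝ) ≤ n := Nat.cast_nonneg n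
  have hb := endp_bounds n v
  have h3 : (0 : ℤ) ≤ ⌊(n : ℝ) * (1 + v) / 2⌋ := by
    apply Int.floor_nonneg.2
    have : (0 : ℝ) ≤ 1 + v := by linarith
    positivity
  rw [abs_le]
  constructor
  · unfold endp; omega
  · have : (endp n v : ℝ) ≤ ((n : ℤ) : ℝ) := by
      push_cast
      nlinarith [hb.1]
    exact Int.cast_le.1 this

lemma endp_par (n : ℕ) (v : ℝ) : (endp n v - n) % 2 = 0 := by
  unfold endp; omega

lemma den_pos (β : ℝ) (η : ℕ → ℤ → ℝ) (n : ℕ) {v : ℝ} (h1 : -1 ≤ v) (h2 : v ≤ 1) :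
    0 < Z (wt β η) 0 n (endp n v) := by
  apply Z_pos (fun i x => wt_pos _ _ _ _)
  · rw [sub_zero]; exact endp_abs n h1 h2
  · rw [sub_zero]; exact endp_par n v

lemma ppProb_le_one (β : ℝ) (η : ℕ → ℤ → ℝ) (n : ℕ) {v : ℝ} (h1 : -1 ≤ v) (h2 : v ≤ 1)
    (A : Set (Fin n → Bool)) : ppProb β η (endp n v) A ≤ 1 := by
  unfold ppProb
  have hd := den_pos β η n h1 h2
  rw [← den_eq] at hd
  rw [div_le_one hd]
  apply Finset.sum_le_sum
  intro w _
  apply Set.indicator_le_indicator_of_subset Set.inter_subset_left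
  intro w
  positivity

lemma ppProb_nonneg (β : ℝ) (η : ℕ → ℤ → ℝ) (n : ℕ) (z : ℤ)
    (A : Set (Fin n → Bool)) : 0 ≤ ppProb β η z A := by
  unfold ppProb
  apply div_nonneg <;>
  · apply Finset.sum_nonneg
    intro w _
    apply Set.indicator_nonneg
    intro w _
    positivity

lemma conf_of_prob {β : ℝ} {η : ℕ → ℤ → ℝ} {n : ℕ} {v R : ℝ} {r : ℕ} {q : ℝ} (h1 : -1 ≤ v)
    (h2 : v ≤ 1) (hR : R + 2 ≤ r) (hq : q ≤ ppProb β η (endp n v) (tube n v R)) :
    Conf (wt β η) n (endp n v) r q := by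
  unfold Conf
  have hd := den_pos β η n h1 h2
  unfold ppProb at hq
  rw [den_eq, le_div_iff₀ hd] at hq
  refine hq.trans ?_
  have e : tub n (endp n v) r =
      fun (i : ℕ) (x : ℤ) => if |x * n - i * endp n v| ≤ (r : ℤ) * n then 1 else 0 := by
    funext i x
    unfold tub
    congr
  rw [e, Z_indicator (fun (i : ℕ) (x : ℤ) => |x * n - i * endp n v| ≤ (r : ℤ) * n)]
  apply Finset.sum_le_sum
  intro w _
  rw [Set.indicator_apply, pw_energy]
  by_cases hw : w ∈ {w : Fin n → Bool | pos w n = endp n v} ∩ tube n v R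
  · rw [if_pos hw, if_pos]
    obtain ⟨hw1, hw2⟩ := hw
    refine ⟨by rw [zero_add]; exact hw1, ?_⟩
    intro i hi1 hi2
    rw [zero_add]
    have hb := endp_bounds n v
    have hw3 : |(pos w i : ℝ) - i * v| ≤ R := hw2 i hi2
    have hi0 : (0 : ℝ) ≤ i := Nat.cast_nonneg i
    have hin : (i : ℝ) ≤ n := by exact_mod_cast hi2
    have hn0 : (0 : ℝ) ≤ n := Nat.cast_nonneg n
    have h5 : |(n : ℝ) * v - endp n v| ≤ 2 := by
      rw [abs_le]
      constructor <;> linarith [hb.1, hb.2]
    have key : |(pos w i : ℝ) * n - i * endp n v| ≤ (r : ℝ) * n := by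
      calc |(pos w i : ℝ) * n - i * endp n v| =
          |((pos w i : ℝ) - i * v) * n + i * ((n : ℝ) * v - endp n v)| := by ring_nf
        _ ≤ |((pos w i : ℝ) - i * v) * n| + |i * ((n : ℝ) * v - endp n v)| := abs_add_le _ _
        _ = |(pos w i : ℝ) - i * v| * n + i * |(n : ℝ) * v - endp n v| := by
            rw [abs_mul, abs_mul, abs_of_nonneg hn0, abs_of_nonneg hi0]
        _ ≤ R * n + n * 2 := add_le_add (mul_le_mul_of_nonneg_right hw3 hn0)
            (mul_le_mul hin h5 (abs_nonneg _) hn0)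
        _ = (R + 2) * n := by ring
        _ ≤ r * n := mul_le_mul_of_nonneg_right hR hn0
    have : ((|pos w i * n - i * endp n v| : ℤ) : ℝ) ≤ ((r * n : ℤ) : ℝ) := by
      push_cast
      exact key
    exact Int.cast_le.1 this
  · rw [if_neg hw]
    split_ifs <;> positivity

variable {Ω : Type*} [MeasurableSpace Ω] {P : Measure Ω} [IsProbabilityMeasure P]
variable {ω : ℕ → ℤ → Ω → ℝ}

lemma measurable_energy (h : IsEnv P ω) {n : ℕ} (w : Fin n → Bool) :
    Measurable (fun x => energy (fun i y => ω i y x) w) := by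
  unfold energy
  exact Finset.measurable_sum _ (fun i _ => h.meas _ _)

lemma measurable_ppProb (h : IsEnv P ω) (β : ℝ) (n : ℕ) (z : ℤ) (A : Set (Fin n → Bool)) :
    Measurable (fun x => ppProb β (fun i y => ω i y x) z A) := by
  unfold ppProb
  apply Measurable.div <;>
  · apply Finset.measurable_sum
    intro w _
    simp only [Set.indicator_apply]
    split_ifs
    · exact Real.measurable_exp.comp ((measurable_energy h w).const_mul β)
    · exact measurable_const

/-- the key statement for all exponents below `3/5` -/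
theorem ae_good (h : IsEnv P ω) (hexp : HasExp P ω) (hnc : ¬ ∃ c : ℝ, ∀ᵐ a ∂P, ω 1 0 a = c)
    {β : ℝ} (hβ : 0 < β) :
    ∀ᵐ v : ℝ, v ∈ Set.Ioo (-1 : ℝ) 1 → ∀ κ < (3 : ℝ) / 5, ∃ᶠ n : ℕ in atTop,
      1 / 8 < P.real {x | ppProb β (fun i y => ω i y x) (endp n v)
        (tube n v ((n : ℝ) ^ κ)) < 7 / 8} := by
  have hnull : ∀ᵐ v : ℝ, ∀ (κ : ℚ) (n0 k : ℕ), 0 < (κ : ℝ) → (κ : ℝ) < 3 / 5 →
      v ∉ bad P ω β κ n0 (1 / ((k : ℝ) + 2)) := by
    rw [ae_all_iff]; intro κ
    rw [ae_all_iff]; intro n0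
    rw [ae_all_iff]; intro k
    by_cases h0 : 0 < (κ : ℝ)
    · by_cases h1 : (κ : ℝ) < 3 / 5
      · have hk : (0 : ℝ) ≤ k := Nat.cast_nonneg k
        have := bad_null h hexp hnc hβ h0 h1 n0 (ε := 1 / ((k : ℝ) + 2)) (by positivity)
          (by rw [div_lt_one (by positivity)]; linarith)
        rw [← compl_mem_ae_iff] at this
        filter_upwards [this] with v hv
        exact fun _ _ => hv
      · exact Eventually.of_forall fun v _ h => absurd h h1
    · exact Eventually.of_forall fun v h _ => absurd h h0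
  filter_upwards [hnull] with v hv hv1 κ hκ
  by_contra hcon
  rw [not_frequently] at hcon
  obtain ⟨n0, hn0⟩ := eventually_atTop.1 hcon
  obtain ⟨κ', hκ1, hκ2⟩ := exists_rat_btwn (show max κ 0 < (3 : ℝ) / 5 by
    rw [max_lt_iff]; exact ⟨hκ, by norm_num⟩)
  have hκ0 : 0 < (κ' : ℝ) := lt_of_le_of_lt (le_max_right _ _) hκ1
  have hκκ : κ ≤ κ' := (le_max_left _ _).trans hκ1.le
  obtain ⟨k, hk⟩ := exists_nat_gt (1 / min (v - -1) (1 - v))
  have hmin : 0 < min (v - -1) (1 - v) := lt_min (by linarith [hv1.1]) (by linarith [hv1.2])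
  have hk2 : 1 / ((k : ℝ) + 2) ≤ min (v - -1) (1 - v) := by
    rw [div_le_iff₀ (by positivity)]
    rw [div_lt_iff₀ hmin] at hk
    nlinarith
  refine hv κ' (max n0 1) k hκ0 hκ2 ⟨⟨?_, ?_⟩, ?_⟩
  · have := hk2.trans (min_le_left _ _); linarith
  · have := hk2.trans (min_le_right _ _); linarith
  · intro n hn
    have hn1 : 1 ≤ n := (le_max_right _ _).trans hn
    have hn2 := hn0 n ((le_max_left _ _).trans hn)
    rw [not_lt] at hn2
    set A := {x | ppProb β (fun i y => ω i y x) (endp n v) (tube n v ((n : ℝ) ^ κ)) < 7 / 8}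
      with hA
    have mA : MeasurableSet A := measurableSet_lt (measurable_ppProb h β n _ _) measurable_const
    have hc := compl_bound (P := P) mA
    have hsub : Aᶜ ⊆ {a | Conf (wt β (fld ω a)) n (endp n v) (⌈(n : ℝ) ^ (κ' : ℝ)⌉₊ + 3) (7 / 8)} := by
      intro x hx
      simp only [hA, Set.mem_compl_iff, Set.mem_ofPred_eq, not_lt] at hx ⊢
      refine conf_of_prob hv1.1.le hv1.2.le (R := (n : ℝ) ^ κ) ?_ hx
      have h1 : (n : ℝ) ^ κ ≤ (n : ℝ) ^ (κ' : ℝ) :=
        Real.rpow_le_rpow_of_exponent_le (by exact_mod_cast hn1) hκκ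
      have h2 := Nat.le_ceil ((n : ℝ) ^ (κ' : ℝ))
      push_cast
      linarith
    have hle : P.real Aᶜ ≤ qq P ω β n (endp n v) (⌈(n : ℝ) ^ (κ' : ℝ)⌉₊ + 3) (7 / 8) :=
      measureReal_mono hsub (measure_ne_top _ _)
    linarith

/-- the exponent of a direction with the conclusion of `ae_good` -/
theorem exp_of_good (h : IsEnv P ω) {β v : ℝ} (h1 : -1 ≤ v) (h2 : v ≤ 1)
    (hg : ∀ κ < (3 : ℝ) / 5, ∃ᶠ n : ℕ in atTop,
      1 / 8 < P.real {x | ppProb β (fun i y => ω i y x) (endp n v)
        (tube n v ((n : ℝ) ^ κ)) < 7 / 8}) : 3 / 5 ≤ wanderingExp P ω β v := by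
  unfold wanderingExp
  apply le_csInf
  · refine ⟨2, by norm_num, ?_⟩
    have : ∀ x, liminf (fun n : ℕ => ENNReal.ofReal (ppProb β
        (fun i y => ω i y x) (endp n v) (tube n v ((n : ℝ) ^ (2 : ℝ))))) atTop = 1 := by
      intro x
      apply Tendsto.liminf_eq
      apply tendsto_const_nhds.congr'
      filter_upwards [eventually_ge_atTop 2] with n hn
      have hall : {w : Fin n → Bool | pos w n = endp n v} ∩ tube n v ((n : ℝ) ^ (2 : ℝ)) =
          {w : Fin n → Bool | pos w n = endp n v} := by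
        apply Set.inter_eq_left.2
        intro w _ i hi
        have hp := abs_pos_le w i
        have hp2 : |(pos w i : ℝ)| ≤ n := by exact_mod_cast hp
        have hn2 : (2 : ℝ) ≤ n := by exact_mod_cast hn
        have hin : (i : ℝ) ≤ n := by exact_mod_cast hi
        have hv : |v| ≤ 1 := abs_le.2 ⟨h1, h2⟩
        rw [Real.rpow_two]
        calc |(pos w i : ℝ) - i * v| ≤ |(pos w i : ℝ)| + |i * v| := abs_sub _ _
          _ = |(pos w i : ℝ)| + i * |v| := by rw [abs_mul, Nat.abs_cast]
          _ ≤ n + n * 1 := add_le_add hp2 (mul_le_mul hin hv (abs_nonneg _) (by positivity))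
          _ ≤ (n : ℝ) ^ 2 := by nlinarith
      unfold ppProb
      rw [hall, den_eq, div_self (den_pos β _ n h1 h2).ne', ENNReal.ofReal_one]
    simp only [this]
    simp
  · rintro a ⟨ha0, ha⟩
    by_contra hcon
    push Not at hcon
    have hf := hg a hcon
    have hle : ∫⁻ x, liminf (fun n : ℕ => ENNReal.ofReal (ppProb β
        (fun i y => ω i y x) (endp n v) (tube n v ((n : ℝ) ^ a)))) atTop ∂P ≤
        ENNReal.ofReal (63 / 64) := by
      refine (lintegral_liminf_le (fun n => (measurable_ppProb h β n _ _).ennreal_ofReal)).trans ?_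
      apply liminf_le_of_frequently_le'
      apply hf.mono
      intro n hn
      set p := fun x => ppProb β (fun i y => ω i y x) (endp n v) (tube n v ((n : ℝ) ^ a)) with hp
      have mp : Measurable p := measurable_ppProb h β n _ _
      set A := {x | p x < 7 / 8} with hA
      have mA : MeasurableSet A := measurableSet_lt mp measurable_const
      have hp1 : ∀ x, p x ≤ 1 := fun x => ppProb_le_one β _ n h1 h2 _
      have hp0 : ∀ x, 0 ≤ p x := fun x => ppProb_nonneg β _ n _ _
      have hint : Integrable p P := by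
        refine Integrable.mono' (integrable_const (1 : ℝ)) mp.aestronglyMeasurable ?_
        exact Eventually.of_forall fun x => by
          rw [Real.norm_eq_abs, abs_of_nonneg (hp0 x)]; exact hp1 x
      rw [← ofReal_integral_eq_lintegral_ofReal hint (Eventually.of_forall hp0)]
      apply ENNReal.ofReal_le_ofReal
      have hind : ∀ x, p x ≤ 1 - A.indicator (fun _ => (1 : ℝ) / 8) x := by
        intro x
        by_cases hx : x ∈ A
        · rw [Set.indicator_of_mem hx]
          have : p x < 7 / 8 := hx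
          linarith
        · rw [Set.indicator_of_notMem hx]
          linarith [hp1 x]
      have hii : Integrable (fun x => 1 - A.indicator (fun _ => (1 : ℝ) / 8) x) P :=
        (integrable_const _).sub ((integrable_const _).indicator mA)
      calc ∫ x, p x ∂P ≤ ∫ x, (1 - A.indicator (fun _ => (1 : ℝ) / 8) x) ∂P :=
            integral_mono hint hii hind
        _ = 1 - P.real A * (1 / 8) := by
            rw [integral_sub (integrable_const _) ((integrable_const _).indicator mA),
              integral_indicator mA]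
            simp
        _ ≤ 63 / 64 := by
            have : 1 / 8 < P.real A := hn
            linarith
    rw [ha] at hle
    have : (1 : ENNReal) = ENNReal.ofReal 1 := ENNReal.ofReal_one.symm
    rw [this, ENNReal.ofReal_le_ofReal_iff (by norm_num)] at hle
    norm_num at hle

end Pool.Agent.K1H53.SD
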