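import Mathlib

/-!
Averaging over directions.
-/

open MeasureTheory Set

namespace Pool.Agent.K1H53.SD

/-- second differences of an antitone function are small on average -/
lemma integral_diff {H : ℝ → ℝ} (hH : Antitone H) (a b : ℝ) {c : ℝ} (hc : 0 ≤ c) :
    ∫ s in a..b, (H (s - c) - H (s + c)) ≤ 2 * c * (H (a - c) - H (b + c)) := by
  have i1 : IntervalIntegrable (fun s => H (s - c)) volume a b :=
    (hH.comp_monotone (fun x y hxy => by simpa using hxy)).intervalIntegrable
  have i2 : IntervalIntegrable (fun s => H (s + c)) volume a b :=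
    (hH.comp_monotone (fun x y hxy => by simpa using hxy)).intervalIntegrable
  have ii : ∀ x y, IntervalIntegrable H volume x y := fun x y => hH.intervalIntegrable
  rw [intervalIntegral.integral_sub i1 i2, intervalIntegral.integral_comp_sub_right,
    intervalIntegral.integral_comp_add_right]
  have e : (∫ x in (a - c)..(b - c), H x) - ∫ x in (a + c)..(b + c), H x =
      (∫ x in (a - c)..(a + c), H x) - ∫ x in (b - c)..(b + c), H x := by
    have h1 := intervalIntegral.integral_add_adjacent_intervals (ii (a - c) (b - c))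
      (ii (b - c) (b + c))
    have h2 := intervalIntegral.integral_add_adjacent_intervals (ii (a - c) (a + c))
      (ii (a + c) (b + c))
    linarith
  rw [e]
  have u1 : ∫ x in (a - c)..(a + c), H x ≤ ∫ x in (a - c)..(a + c), H (a - c) := by
    apply intervalIntegral.integral_mono_on (by linarith) (ii _ _)
      (by exact intervalIntegrable_const)
    intro x hx
    exact hH hx.1
  have u2 : ∫ x in (b - c)..(b + c), H (b + c) ≤ ∫ x in (b - c)..(b + c), H x := by
    apply intervalIntegral.integral_mono_on (by linarith) (by exact intervalIntegrable_const)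
      (ii _ _)
    intro x hx
    exact hH hx.2
  rw [intervalIntegral.integral_const, smul_eq_mul] at u1 u2
  nlinarith

/-- a good direction exists in every set of positive measure -/
lemma exists_good {H : ℝ → ℝ} (hH : Antitone H) {a b c m : ℝ} (hab : a ≤ b) (hc : 0 ≤ c)
    (hm : 0 < m) {A : Set ℝ} (hA : MeasurableSet A) (hsub : A ⊆ Icc a b)
    (hmA : m ≤ volume.real A) :
    ∃ v ∈ A, H (v - c) - H (v + c) ≤ 2 * c * (H (a - c) - H (b + c)) / m := by
  set g : ℝ → ℝ := fun v => H (v - c) - H (v + c) with hg
  have hg0 : ∀ v, 0 ≤ g v := fun v => sub_nonneg.2 (hH (by linarith))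
  have ig : IntegrableOn g (Icc a b) volume := by
    have i1 : IntervalIntegrable (fun s => H (s - c)) volume a b :=
      (hH.comp_monotone (fun x y hxy => by simpa using hxy)).intervalIntegrable
    have i2 : IntervalIntegrable (fun s => H (s + c)) volume a b :=
      (hH.comp_monotone (fun x y hxy => by simpa using hxy)).intervalIntegrable
    have := i1.sub i2
    rw [intervalIntegrable_iff_integrableOn_Icc_of_le hab] at this
    exact this
  have hAfin : volume A ≠ ⊤ := ne_top_of_le_ne_top (by simp) (measure_mono hsub)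
  have hApos : volume A ≠ 0 := by
    intro h0
    rw [measureReal_def, h0] at hmA
    simp at hmA
    linarith
  obtain ⟨v, hv, hle⟩ := exists_le_setAverage hApos hAfin (ig.mono_set hsub)
  refine ⟨v, hv, hle.trans ?_⟩
  have h1 : ∫ x in A, g x ≤ 2 * c * (H (a - c) - H (b + c)) := by
    calc ∫ x in A, g x ≤ ∫ x in Icc a b, g x :=
          setIntegral_mono_set ig (Filter.Eventually.of_forall hg0)
            (Filter.Eventually.of_forall hsub)
      _ = ∫ x in a..b, g x := by
          rw [integral_Icc_eq_integral_Ioc, ← intervalIntegral.integral_of_le hab]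
      _ ≤ _ := integral_diff hH a b hc
  have h2 : 0 ≤ ∫ x in A, g x := setIntegral_nonneg hA (fun x _ => hg0 x)
  rw [setAverage_eq, smul_eq_mul, ← div_eq_inv_mul]
  calc (∫ x in A, g x) / volume.real A ≤ (∫ x in A, g x) / m :=
        div_le_div_of_nonneg_left h2 hm hmA
    _ ≤ _ := div_le_div_of_nonneg_right h1 hm.le

/-- small translates of a set of positive measure meet it in a set of positive measure -/
lemma triple {U : Set ℝ} (hU : MeasurableSet U) (hfin : volume U ≠ ⊤) (hpos : volume U ≠ 0) :
    ∃ d > 0, ∃ m > 0, ∀ h : ℝ, |h| < d →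
      m ≤ volume.real (U ∩ ((fun v => v + h) ⁻¹' U) ∩ ((fun v => v + (-h)) ⁻¹' U)) := by
  obtain ⟨K, hKU, hK, hlt⟩ := hU.exists_lt_isCompact_of_ne_top hfin (r := 0)
    (pos_iff_ne_zero.2 hpos)
  have hKfin : volume K ≠ ⊤ := hK.measure_ne_top
  have hKpos : 0 < volume.real K := by
    rw [measureReal_def]
    exact ENNReal.toReal_pos hlt.ne' hKfin
  obtain ⟨O, hKO, hO, hOlt⟩ := K.exists_isOpen_lt_add hKfin
    (ε := ENNReal.ofReal (volume.real K / 4)) (by
      rw [Ne, ENNReal.ofReal_eq_zero, not_le]
      positivity)
  have hOfin : volume O ≠ ⊤ := ne_top_of_lt hOlt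
  have hOr : volume.real O ≤ volume.real K + volume.real K / 4 := by
    rw [measureReal_def]
    have h1 : volume O ≤ volume K + ENNReal.ofReal (volume.real K / 4) := hOlt.le
    have h2 := ENNReal.toReal_mono (by
      exact ENNReal.add_ne_top.2 ⟨hKfin, ENNReal.ofReal_ne_top⟩) h1
    rwa [ENNReal.toReal_add hKfin ENNReal.ofReal_ne_top,
      ENNReal.toReal_ofReal (by positivity)] at h2
  obtain ⟨d, hd, hth⟩ := hK.exists_thickening_subset_open hO hKO
  refine ⟨d, hd, volume.real K / 2, by positivity, ?_⟩
  intro h hh
  have hKm : MeasurableSet K := hK.measurableSet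
  -- one translate
  have one : ∀ s : ℝ, |s| < d → volume.real (K \ ((fun v => v + s) ⁻¹' K)) ≤ volume.real K / 4 := by
    intro s hs
    set K' := (fun v => v + s) ⁻¹' K with hK'
    have hK'm : MeasurableSet K' := hKm.preimage (measurable_id.add_const s)
    have e1 : volume.real K' = volume.real K := by
      rw [measureReal_def, measureReal_def, hK', measure_preimage_add_right]
    have hK'O : K' ⊆ O := by
      intro v hv
      apply hth
      rw [Metric.mem_thickening_iff]
      refine ⟨v + s, hv, ?_⟩
      rw [Real.dist_eq]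
      have : v - (v + s) = -s := by ring
      rw [this, abs_neg]
      exact hs
    have e2 : volume.real (K' ∪ (K \ K')) ≤ volume.real O :=
      measureReal_mono (union_subset hK'O (sdiff_subset.trans hKO)) hOfin
    have hK'fin : volume K' ≠ ⊤ := ne_top_of_le_ne_top hOfin (measure_mono hK'O)
    have e3 : volume.real (K' ∪ (K \ K')) = volume.real K' + volume.real (K \ K') := by
      exact measureReal_union disjoint_sdiff_right (hKm.diff hK'm) hK'fin
        (ne_top_of_le_ne_top hKfin (measure_mono sdiff_subset))
    rw [e3, e1] at e2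
    linarith
  have o1 := one h hh
  have o2 := one (-h) (by rwa [abs_neg])
  set K1 := (fun v => v + h) ⁻¹' K with hK1
  set K2 := (fun v => v + (-h)) ⁻¹' K with hK2
  have hcov : K ⊆ (K ∩ K1 ∩ K2) ∪ ((K \ K1) ∪ (K \ K2)) := by
    intro v hv
    by_cases h1 : v ∈ K1
    · by_cases h2 : v ∈ K2
      · exact Or.inl ⟨⟨hv, h1⟩, h2⟩
      · exact Or.inr (Or.inr ⟨hv, h2⟩)
    · exact Or.inr (Or.inl ⟨hv, h1⟩)
  have f : volume ((K ∩ K1 ∩ K2) ∪ ((K \ K1) ∪ (K \ K2))) ≠ ⊤ := by
    apply ne_top_of_le_ne_top hKfin
    apply measure_mono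
    apply union_subset
    · exact inter_subset_left.trans inter_subset_left
    · exact union_subset sdiff_subset sdiff_subset
  have c1 := measureReal_mono (μ := volume) hcov f
  have c2 := measureReal_union_le (μ := volume) (K ∩ K1 ∩ K2) ((K \ K1) ∪ (K \ K2))
  have c3 := measureReal_union_le (μ := volume) (K \ K1) (K \ K2)
  have c4 : volume.real (K ∩ K1 ∩ K2) ≤
      volume.real (U ∩ ((fun v => v + h) ⁻¹' U) ∩ ((fun v => v + (-h)) ⁻¹' U)) := by
    apply measureReal_mono
    · exact inter_subset_inter (inter_subset_inter hKU (preimage_mono hKU)) (preimage_mono hKU)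
    · exact ne_top_of_le_ne_top hfin (measure_mono (inter_subset_left.trans inter_subset_left))
  linarith

end Pool.Agent.K1H53.SD
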