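import Pool.Agent.K1H53.SD.Blocks

/-!
Tubes and barriers.
-/

namespace Pool.Agent.K1H53.SD

/-- indicator of the tube of radius `r` around the chord from `(0,0)` to `(n,e)` -/
noncomputable def tub (n : ℕ) (e : ℤ) (r : ℕ) : ℕ → ℤ → ℝ :=
  fun i x => if |x * n - i * e| ≤ (r : ℤ) * n then 1 else 0

/-- indicator of the region above the line of slope `y / N`, shifted by `r`, in the time window
`[N/2, 3N/2]` -/
noncomputable def bar (N : ℕ) (y : ℤ) (r : ℕ) : ℕ → ℤ → ℝ :=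
  fun i x => if N ≤ 2 * i ∧ 2 * i ≤ 3 * N then (if i * y + r * N < x * N then 1 else 0) else 1

/-- weights with an additional factor -/
noncomputable def mulK (c K : ℕ → ℤ → ℝ) : ℕ → ℤ → ℝ := fun i x => c i x * K i x

lemma tub_nonneg (n : ℕ) (e : ℤ) (r : ℕ) (i : ℕ) (x : ℤ) : 0 ≤ tub n e r i x := by
  unfold tub; split_ifs <;> norm_num

lemma tub_le_one (n : ℕ) (e : ℤ) (r : ℕ) (i : ℕ) (x : ℤ) : tub n e r i x ≤ 1 := by
  unfold tub; split_ifs <;> norm_num

lemma bar_nonneg (N : ℕ) (y : ℤ) (r : ℕ) (i : ℕ) (x : ℤ) : 0 ≤ bar N y r i x := by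
  unfold bar; split_ifs <;> norm_num

lemma bar_le_one (N : ℕ) (y : ℤ) (r : ℕ) (i : ℕ) (x : ℤ) : bar N y r i x ≤ 1 := by
  unfold bar; split_ifs <;> norm_num

lemma mulK_nonneg {c K : ℕ → ℤ → ℝ} (hc : ∀ i x, 0 ≤ c i x) (hK : ∀ i x, 0 ≤ K i x) (i : ℕ)
    (x : ℤ) : 0 ≤ mulK c K i x := mul_nonneg (hc _ _) (hK _ _)

lemma mulK_le {c K : ℕ → ℤ → ℝ} (hc : ∀ i x, c i x ≤ 1) (hK : ∀ i x, 0 ≤ K i x) (i : ℕ)
    (x : ℤ) : mulK c K i x ≤ K i x := mul_le_of_le_one_left (hK _ _) (hc _ _)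

lemma LR_bar {K : ℕ → ℤ → ℝ} (hK : ∀ i x, 0 ≤ K i x) (N : ℕ) (y : ℤ) (r i : ℕ) :
    LR (K i) (mulK (bar N y r) K i) := by
  intro a k
  unfold mulK
  have hmono : bar N y r i a ≤ bar N y r i (a + 2 * k) := by
    unfold bar
    split_ifs with h1 h2 h3
    · exact le_rfl
    · exfalso
      apply h3
      have : a * (N : ℤ) ≤ (a + 2 * k) * N := by
        apply mul_le_mul_of_nonneg_right _ (by positivity)
        omega
      linarith
    · norm_num
    · exact le_rfl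
    · exact le_rfl
  calc bar N y r i a * K i a * K i (a + 2 * k)
      = bar N y r i a * (K i a * K i (a + 2 * k)) := by ring
    _ ≤ bar N y r i (a + 2 * k) * (K i a * K i (a + 2 * k)) :=
        mul_le_mul_of_nonneg_right hmono (mul_nonneg (hK _ _) (hK _ _))
    _ = _ := by ring

/-- comparison of endpoints -/
lemma cmp_end {K L : ℕ → ℤ → ℝ} (hK : ∀ i x, 0 ≤ K i x) (hL : ∀ i x, 0 ≤ L i x)
    (h : ∀ i, LR (K i) (L i)) {x0 e m : ℤ} {n : ℕ} {q : ℝ} (hem : e ≤ m) (hp : (m - e) % 2 = 0)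
    (hpos : 0 < Z K x0 n e) (hq : q * Z K x0 n e ≤ Z L x0 n e) :
    q * Z K x0 n m ≤ Z L x0 n m := by
  have h1 := LR_end hK hL h x0 0 n e ((m - e) / 2).toNat
  have e1 : e + 2 * (((m - e) / 2).toNat : ℤ) = m := by
    rw [Int.toNat_of_nonneg (by omega)]; omega
  rw [e1] at h1
  simp only [Nat.cast_zero, mul_zero, add_zero] at h1
  have h2 := mul_le_mul_of_nonneg_right hq (Z_nonneg hK x0 n m)
  have h3 : (q * Z K x0 n m) * Z K x0 n e ≤ Z L x0 n m * Z K x0 n e := by linarith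
  exact le_of_mul_le_mul_right h3 hpos

/-- comparison of starting points -/
lemma cmp_start {K L : ℕ → ℤ → ℝ} (hK : ∀ i x, 0 ≤ K i x) (hL : ∀ i x, 0 ≤ L i x)
    (h : ∀ i, LR (K i) (L i)) {z e m : ℤ} {n : ℕ} {q : ℝ} (hem : e ≤ m) (hp : (m - e) % 2 = 0)
    (hpos : 0 < Z K e n z) (hq : q * Z K e n z ≤ Z L e n z) :
    q * Z K m n z ≤ Z L m n z := by
  have h1 := LR_start n hK hL h z 0 e ((m - e) / 2).toNat
  have e1 : e + 2 * (((m - e) / 2).toNat : ℤ) = m := by
    rw [Int.toNat_of_nonneg (by omega)]; omega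
  simp only [Nat.cast_zero, mul_zero, add_zero] at h1
  rw [e1] at h1
  have h2 := mul_le_mul_of_nonneg_right hq (Z_nonneg hK m n z)
  have h3 : (q * Z K m n z) * Z K e n z ≤ Z L m n z * Z K e n z := by linarith
  exact le_of_mul_le_mul_right h3 hpos

/-- geometric assumptions for the confined situation -/
structure Geo2 (N : ℕ) (y b l D ep em : ℤ) (r : ℕ) : Prop extends Geo N (2 * y) b l D where
  hN : 1 ≤ N
  hsym : 2 * b + l = 2 * y
  hr : b + r ≤ y
  hlD : l < D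
  e1 : ep ≤ b + D
  e2 : 2 * y - em ≤ b + D
  pp : (ep - N) % 2 = 0
  pm : (em - N) % 2 = 0
  ap : |ep| ≤ (N : ℤ)
  am : |em| ≤ (N : ℤ)
  sp : y + 4 * r < ep
  sm : em + 4 * r < y

variable {K : ℕ → ℤ → ℝ} {N : ℕ} {y b l D ep em : ℤ} {r : ℕ}

lemma tube_block (hK : ∀ i x, 0 ≤ K i x) (g : Geo2 N y b l D ep em r) :
    Z (mulK (tub (2 * N) (2 * y) r) K) 0 (2 * N) (2 * y) ≤ M K N 0 (2 * y) b l := by
  have hN := g.hN
  have hN' : (0 : ℤ) < N := by exact_mod_cast hN
  rw [two_mul N, Z_glue, ← two_mul N]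
  set T := mulK (tub (2 * N) (2 * y) r) K with hT
  have hT0 : ∀ i x, 0 ≤ T i x := mulK_nonneg (tub_nonneg _ _ _) hK
  have hTK : ∀ i x, T i x ≤ K i x := mulK_le (tub_le_one _ _ _) hK
  have hzero : ∀ m, m ∉ Finset.Icc b (b + l) → Z T 0 N m = 0 := by
    intro m hm
    obtain ⟨n, rfl⟩ : ∃ n, N = n + 1 := ⟨N - 1, by omega⟩
    rw [Z_succ]
    have : T (n + 1) m = 0 := by
      rw [hT]
      unfold mulK tub
      rw [if_neg, zero_mul]
      intro h
      apply hm
      rw [Finset.mem_Icc]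
      have h2 : |(m - y) * (2 * ((n : ℤ) + 1))| ≤ r * (2 * ((n : ℤ) + 1)) := by
        push_cast at h
        rw [show (m - y) * (2 * ((n : ℤ) + 1)) = m * (2 * ((n : ℤ) + 1)) - ((n : ℤ) + 1) * (2 * y) by
          ring]
        exact h
      rw [abs_mul, abs_of_pos (show (0 : ℤ) < 2 * ((n : ℤ) + 1) by positivity)] at h2
      have h3 := le_of_mul_le_mul_right h2 (by positivity)
      rw [abs_le] at h3
      have := g.hr
      have := g.hsym
      omega
    rw [this, zero_mul]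
  unfold M
  have hsub : Finset.Icc b (b + l) ⊆ Finset.Icc (0 - (N : ℤ)) (0 + N) := by
    intro m hm
    rw [Finset.mem_Icc] at hm ⊢
    have := g.b1; have := g.b2; have := g.hD0; have := g.hl0
    omega
  rw [← Finset.sum_subset hsub]
  · apply Finset.sum_le_sum
    intro m _
    unfold W
    exact mul_le_mul (Z_mono hT0 hTK _ _ _) (Z_mono (fun _ _ => hT0 _ _) (fun _ _ => hTK _ _) _ _ _)
      (Z_nonneg (fun _ _ => hT0 _ _) _ _ _) (Z_nonneg hK _ _ _)
  · intro m _ hm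
    rw [hzero m hm, zero_mul]

lemma two_blocks (hK : ∀ i x, 0 ≤ K i x) (g : Geo2 N y b l D ep em r) :
    M K N 0 (2 * y) b l + M K N 0 (2 * y) (b + D) l ≤ Z K 0 (2 * N) (2 * y) := by
  rw [two_mul N, Z_glue]
  unfold M
  rw [← Finset.sum_union]
  · apply Finset.sum_le_sum_of_subset_of_nonneg
    · intro m hm
      rw [Finset.mem_union, Finset.mem_Icc, Finset.mem_Icc] at hm
      rw [Finset.mem_Icc]
      have := g.b1; have := g.b2; have := g.hD0; have := g.hl0
      omega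
    · intro m _ _
      exact W_nonneg hK _ _ _ _
  · rw [Finset.disjoint_left]
    intro m h1 h2
    rw [Finset.mem_Icc] at h1 h2
    have := g.hlD
    omega

lemma bar_first (g : Geo2 N y b l D ep em r) (i : ℕ) (x : ℤ) :
    i ≤ N → tub N ep r i x ≤ bar N y r i x := by
  intro hi
  have hN := g.hN
  have hN' : (0 : ℤ) < N := by exact_mod_cast hN
  unfold tub bar
  split_ifs with h1 h2 h3
  · exact le_rfl
  · exfalso
    apply h3
    rw [abs_le] at h1
    have h4 : (N : ℤ) ≤ 2 * i := by exact_mod_cast h2.1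
    have h5 := g.sp
    nlinarith [mul_le_mul_of_nonneg_right h4 (show (0 : ℤ) ≤ ep - y - 4 * r by omega),
      mul_pos hN' (show (0 : ℤ) < ep - y - 4 * r by omega)]
  · exact le_rfl
  · norm_num
  · exact le_rfl
  · norm_num

lemma bar_second (g : Geo2 N y b l D ep em r) (i : ℕ) (x : ℤ) :
    tub N em r i x ≤ bar N y r (N + i) (x + (2 * y - em)) := by
  have hN := g.hN
  have hN' : (0 : ℤ) < N := by exact_mod_cast hN
  unfold tub bar
  split_ifs with h1 h2 h3
  · exact le_rfl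
  · exfalso
    apply h3
    rw [abs_le] at h1
    have h4 : 2 * ((N : ℤ) + i) ≤ 3 * N := by exact_mod_cast h2.2
    have h5 := g.sm
    push_cast
    nlinarith [mul_le_mul_of_nonneg_right h4 (show (0 : ℤ) ≤ y - em - 4 * r by omega),
      mul_pos hN' (show (0 : ℤ) < y - em - 4 * r by omega)]
  · exact le_rfl
  · norm_num
  · exact le_rfl
  · norm_num

/-- weights seen from `(N, c)` -/
def shc (N : ℕ) (c : ℤ) (K : ℕ → ℤ → ℝ) : ℕ → ℤ → ℝ := fun i x => K (N + i) (x + c)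

lemma barrier_block (hK : ∀ i x, 0 < K i x) (g : Geo2 N y b l D ep em r) {q : ℝ} (hq : 0 ≤ q)
    (h2 : q * Z K 0 N ep ≤ Z (mulK (tub N ep r) K) 0 N ep)
    (h3 : q * Z (shc N (2 * y - em) K) 0 N em ≤
      Z (mulK (tub N em r) (shc N (2 * y - em) K)) 0 N em) :
    q ^ 2 * M K N 0 (2 * y) (b + D) l ≤ M (mulK (bar N y r) K) N 0 (2 * y) (b + D) l := by
  have hK' : ∀ i x, 0 ≤ K i x := fun i x => (hK i x).le
  set B := mulK (bar N y r) K with hB
  have hB0 : ∀ i x, 0 ≤ B i x := mulK_nonneg (bar_nonneg _ _ _) hK'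
  have ha := g.ap
  have hb := g.am
  have hpp := g.pp
  have hpm := g.pm
  -- first half
  have k1 : q * Z K 0 N ep ≤ Z B 0 N ep := by
    refine h2.trans ?_
    apply Z_mono' (mulK_nonneg (tub_nonneg _ _ _) hK') hB0
    intro i x _ hi
    exact mul_le_mul_of_nonneg_right (bar_first g i x hi) (hK' _ _)
  have pos1 : 0 < Z K 0 N ep := Z_pos hK 0 N ep (by simpa using ha) (by simpa using hpp)
  have f1 : ∀ m, ep ≤ m → (m - ep) % 2 = 0 → q * Z K 0 N m ≤ Z B 0 N m := fun m h1 h2 =>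
    cmp_end hK' hB0 (LR_bar hK' N y r) h1 h2 pos1 k1
  -- second half
  have t1 : Z (shc N (2 * y - em) K) 0 N em = Z (sh N K) (2 * y - em) N (2 * y) := by
    have := Z_trans (sh N K) (2 * y - em) (2 * y - em) N (2 * y)
    rw [this, sub_self, sub_sub_cancel]
    rfl
  have t2 : Z (shc N (2 * y - em) B) 0 N em = Z (sh N B) (2 * y - em) N (2 * y) := by
    have := Z_trans (sh N B) (2 * y - em) (2 * y - em) N (2 * y)
    rw [this, sub_self, sub_sub_cancel]
    rfl
  have k2 : q * Z (sh N K) (2 * y - em) N (2 * y) ≤ Z (sh N B) (2 * y - em) N (2 * y) := by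
    rw [← t1, ← t2]
    refine h3.trans ?_
    apply Z_mono (mulK_nonneg (tub_nonneg _ _ _) (fun _ _ => hK' _ _))
    intro i x
    unfold mulK shc
    exact mul_le_mul_of_nonneg_right (bar_second g i x) (hK' _ _)
  have pos2 : 0 < Z (sh N K) (2 * y - em) N (2 * y) := by
    apply Z_pos (fun _ _ => hK _ _)
    · rw [sub_sub_cancel]; exact hb
    · rw [sub_sub_cancel]; exact hpm
  have f2 : ∀ m, 2 * y - em ≤ m → (m - (2 * y - em)) % 2 = 0 →
      q * Z (sh N K) m N (2 * y) ≤ Z (sh N B) m N (2 * y) := fun m h1 h2 =>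
    cmp_start (K := sh N K) (L := sh N B) (fun _ _ => hK' _ _) (fun _ _ => hB0 _ _)
      (fun i => LR_bar hK' N y r _) h1 h2 pos2 k2
  unfold M
  rw [Finset.mul_sum]
  apply Finset.sum_le_sum
  intro m hm
  rw [Finset.mem_Icc] at hm
  by_cases hp : (m - N) % 2 = 0
  · have a1 := f1 m (by have := g.e1; omega) (by omega)
    have a2 := f2 m (by have := g.e2; omega) (by omega)
    unfold W
    calc q ^ 2 * (Z K 0 N m * Z (sh N K) m N (2 * y))
        = (q * Z K 0 N m) * (q * Z (sh N K) m N (2 * y)) := by ring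
      _ ≤ Z B 0 N m * Z (sh N B) m N (2 * y) :=
          mul_le_mul a1 a2 (mul_nonneg hq (Z_nonneg (fun _ _ => hK' _ _) _ _ _))
            (Z_nonneg hB0 _ _ _)
  · rw [W_parity K (by omega), mul_zero]
    exact W_nonneg hB0 _ _ _ _

/-- the deterministic conclusion: on the confinement events the logarithm of the ratio of the masses
of two disjoint sets of paths is in a short interval -/
lemma det_core (hK : ∀ i x, 0 < K i x) (g : Geo2 N y b l D ep em r) {q t : ℝ} (hq : 1 / 2 < q)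
    (h1 : q * Z K 0 (2 * N) (2 * y) ≤
      Z (mulK (tub (2 * N) (2 * y) r) K) 0 (2 * N) (2 * y))
    (h2 : q * Z K 0 N ep ≤ Z (mulK (tub N ep r) K) 0 N ep)
    (h3 : q * Z (shc N (2 * y - em) K) 0 N em ≤
      Z (mulK (tub N em r) (shc N (2 * y - em) K)) 0 N em)
    (h4 : -t ≤ R K N 0 (2 * y) b l D) :
    0 < Z (mulK (tub (2 * N) (2 * y) r) K) 0 (2 * N) (2 * y) ∧
    0 < M (mulK (bar N y r) K) N 0 (2 * y) (b + D) l ∧
    Real.log (M (mulK (bar N y r) K) N 0 (2 * y) (b + D) l) -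
      Real.log (Z (mulK (tub (2 * N) (2 * y) r) K) 0 (2 * N) (2 * y)) ∈
        Set.Icc (2 * Real.log q - t) 0 := by
  have hK' : ∀ i x, 0 ≤ K i x := fun i x => (hK i x).le
  have hq0 : 0 < q := by linarith
  set ZT := Z (mulK (tub (2 * N) (2 * y) r) K) 0 (2 * N) (2 * y) with hZT
  set M' := M (mulK (bar N y r) K) N 0 (2 * y) (b + D) l with hM'
  obtain ⟨w1, w2, w3, w4, w5, w6⟩ := g.toGeo.Wpos hK
  have m1 : 0 < M K N 0 (2 * y) b l := M_pos hK g.hl0 w4
  have m2 : 0 < M K N 0 (2 * y) (b + D) l := M_pos hK g.hl0 w5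
  have a := tube_block hK' g
  rw [← hZT] at a
  have bb := barrier_block hK g hq0.le h2 h3
  rw [← hM'] at bb
  have c := two_blocks hK' g
  have hZpos : 0 < Z K 0 (2 * N) (2 * y) := by linarith
  have ZTpos : 0 < ZT := lt_of_lt_of_le (mul_pos hq0 hZpos) h1
  have M'pos : 0 < M' := lt_of_lt_of_le (by positivity) bb
  have hM'le : M' ≤ M K N 0 (2 * y) (b + D) l := by
    rw [hM']
    unfold M
    apply Finset.sum_le_sum
    intro m _
    unfold W
    have h0 := mulK_nonneg (bar_nonneg N y r) hK'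
    have h1 := mulK_le (bar_le_one N y r) hK'
    exact mul_le_mul (Z_mono h0 h1 _ _ _) (Z_mono (fun _ _ => h0 _ _) (fun _ _ => h1 _ _) _ _ _)
      (Z_nonneg (fun _ _ => h0 _ _) _ _ _) (Z_nonneg hK' _ _ _)
  refine ⟨ZTpos, M'pos, ?_, ?_⟩
  · have l1 := Real.log_le_log (by positivity) bb
    rw [Real.log_mul (by positivity) m2.ne', Real.log_pow] at l1
    have l2 := Real.log_le_log ZTpos a
    unfold R at h4
    push_cast at l1
    linarith
  · have hle : M' ≤ ZT := by nlinarith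
    have := Real.log_le_log M'pos hle
    linarith

end Pool.Agent.K1H53.SD
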