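import Pool.Agent.K1H53.SD.Det

/-!
Masses of blocks of midpoints.
-/

namespace Pool.Agent.K1H53.SD

lemma Z_mono' {K L : ℕ → ℤ → ℝ} (hK : ∀ i x, 0 ≤ K i x) (hL : ∀ i x, 0 ≤ L i x) (x0 : ℤ)
    (n : ℕ) (h : ∀ i x, 1 ≤ i → i ≤ n → K i x ≤ L i x) : ∀ x, Z K x0 n x ≤ Z L x0 n x := by
  have key : ∀ m ≤ n, ∀ x, Z K x0 m x ≤ Z L x0 m x := by
    intro m
    induction m with
    | zero => intro _ x; exact le_rfl
    | succ m ih =>
      intro hm x
      rw [Z_succ, Z_succ]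
      exact mul_le_mul (h _ _ (by omega) hm) (add_le_add (ih (by omega) _) (ih (by omega) _))
        (add_nonneg (Z_nonneg hK _ _ _) (Z_nonneg hK _ _ _)) (hL _ _)
  exact key n le_rfl

/-- weight of the paths from `x0` (time 0) through `m` (time `N`) to `z` (time `2N`) -/
noncomputable def W (K : ℕ → ℤ → ℝ) (N : ℕ) (x0 z m : ℤ) : ℝ := Z K x0 N m * Z (sh N K) m N z

/-- weight of the paths with midpoint in `[b, b + l]` -/
noncomputable def M (K : ℕ → ℤ → ℝ) (N : ℕ) (x0 z b l : ℤ) : ℝ :=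
  ∑ m ∈ Finset.Icc b (b + l), W K N x0 z m

lemma W_nonneg {K : ℕ → ℤ → ℝ} (hK : ∀ i x, 0 ≤ K i x) (N : ℕ) (x0 z m : ℤ) :
    0 ≤ W K N x0 z m :=
  mul_nonneg (Z_nonneg hK _ _ _) (Z_nonneg (fun _ _ => hK _ _) _ _ _)

lemma W_pos {K : ℕ → ℤ → ℝ} (hK : ∀ i x, 0 < K i x) {N : ℕ} {x0 z m : ℤ}
    (h1 : |m - x0| ≤ (N : ℤ)) (h2 : |z - m| ≤ (N : ℤ)) (p1 : (m - x0 - N) % 2 = 0)
    (p2 : (z - m - N) % 2 = 0) : 0 < W K N x0 z m :=
  mul_pos (Z_pos hK _ _ _ h1 p1) (Z_pos (fun _ _ => hK _ _) _ _ _ h2 p2)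

lemma W_parity (K : ℕ → ℤ → ℝ) {N : ℕ} {x0 z m : ℤ} (h : (m - x0 - N) % 2 = 1) :
    W K N x0 z m = 0 := by
  unfold W
  rw [Z_parity K x0 N m h, zero_mul]

lemma LR_W {K : ℕ → ℤ → ℝ} (hK : ∀ i x, 0 ≤ K i x) (N : ℕ) (x0 z : ℤ) (j : ℕ) :
    LR (W K N x0 z) (W K N (x0 + 2 * j) (z + 2 * j)) := by
  have h1 := LR_end hK hK (fun i => LR.refl _) x0 j N
  have h2 := LR_start N (K := sh N K) (L := sh N K) (fun i x => hK _ _) (fun i x => hK _ _)
    (fun i => LR.refl _) z j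
  exact LR.mul (Z_nonneg hK _ _) (Z_nonneg hK _ _) (fun x => Z_nonneg (fun _ _ => hK _ _) _ _ _)
    (fun x => Z_nonneg (fun _ _ => hK _ _) _ _ _) h1 h2

/-- the upper block -/
lemma block_up {K : ℕ → ℤ → ℝ} (hK : ∀ i x, 0 ≤ K i x) {N : ℕ} {z b l : ℤ} {j : ℕ}
    (p : (b - N) % 2 = 0) (pl : l % 2 = 0) :
    M K N (2 * j) (z + 2 * j) b l * W K N 0 z (b + l) ≤
      W K N (2 * j) (z + 2 * j) (b + l) * M K N 0 z b l := by
  unfold M
  rw [Finset.sum_mul, Finset.mul_sum]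
  apply Finset.sum_le_sum
  intro m hm
  rw [Finset.mem_Icc] at hm
  by_cases hp : (m - N) % 2 = 0
  · have h := LR_W hK N 0 z j m ((b + l - m) / 2).toNat
    have e : m + 2 * (((b + l - m) / 2).toNat : ℤ) = b + l := by
      rw [Int.toNat_of_nonneg (by omega)]
      omega
    rw [e, zero_add] at h
    exact h
  · rw [W_parity (K := K) (x0 := 2 * (j : ℤ)) (m := m) (by omega),
      W_parity (K := K) (x0 := 0) (m := m) (by omega)]
    simp

/-- the lower block -/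
lemma block_down {K : ℕ → ℤ → ℝ} (hK : ∀ i x, 0 ≤ K i x) {N : ℕ} {z b l : ℤ} {j : ℕ}
    (p : (b - N) % 2 = 0) :
    W K N (2 * j) (z + 2 * j) b * M K N 0 z b l ≤
      M K N (2 * j) (z + 2 * j) b l * W K N 0 z b := by
  unfold M
  rw [Finset.sum_mul, Finset.mul_sum]
  apply Finset.sum_le_sum
  intro m hm
  rw [Finset.mem_Icc] at hm
  by_cases hp : (m - N) % 2 = 0
  · have h := LR_W hK N 0 z j b ((m - b) / 2).toNat
    have e : b + 2 * (((m - b) / 2).toNat : ℤ) = m := by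
      rw [Int.toNat_of_nonneg (by omega)]
      omega
    rw [e, zero_add] at h
    exact h
  · rw [W_parity (K := K) (x0 := 2 * (j : ℤ)) (m := m) (by omega),
      W_parity (K := K) (x0 := 0) (m := m) (by omega)]
    simp

lemma M_nonneg {K : ℕ → ℤ → ℝ} (hK : ∀ i x, 0 ≤ K i x) (N : ℕ) (x0 z b l : ℤ) :
    0 ≤ M K N x0 z b l := Finset.sum_nonneg (fun _ _ => W_nonneg hK _ _ _ _)

lemma M_pos {K : ℕ → ℤ → ℝ} (hK : ∀ i x, 0 < K i x) {N : ℕ} {x0 z b l : ℤ} (hl : 0 ≤ l)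
    (h : 0 < W K N x0 z b) : 0 < M K N x0 z b l := by
  unfold M
  refine lt_of_lt_of_le h ?_
  exact Finset.single_le_sum (f := fun m => W K N x0 z m)
    (fun m _ => W_nonneg (fun i x => (hK i x).le) _ _ _ _) (Finset.mem_Icc.2 ⟨le_rfl, by omega⟩)

/-- log ratio of the masses of the blocks `[b + D, b + D + l]` and `[b, b + l]` -/
noncomputable def R (K : ℕ → ℤ → ℝ) (N : ℕ) (x0 z b l D : ℤ) : ℝ :=
  Real.log (M K N x0 z (b + D) l) - Real.log (M K N x0 z b l)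

/-- the discrepancy -/
noncomputable def G (K : ℕ → ℤ → ℝ) (N : ℕ) (z b l D : ℤ) : ℝ :=
  (Real.log (W K N D (z + D) (b + D + l)) - Real.log (W K N 0 z (b + D + l))) -
    (Real.log (W K N D (z + D) b) - Real.log (W K N 0 z b))

/-- the standing geometric assumptions -/
structure Geo (N : ℕ) (z b l D : ℤ) : Prop where
  hz : z % 2 = 0
  hD : D % 2 = 0
  hD0 : 0 ≤ D
  hl : l % 2 = 0
  hl0 : 0 ≤ l
  hb : (b - N) % 2 = 0
  b1 : -(N : ℤ) ≤ b - D
  b2 : b + D + l ≤ N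
  b3 : z - b + D ≤ N
  b4 : -(N : ℤ) ≤ z - (b + D + l)

lemma Geo.Wpos {K : ℕ → ℤ → ℝ} (hK : ∀ i x, 0 < K i x) {N : ℕ} {z b l D : ℤ}
    (g : Geo N z b l D) : 0 < W K N D (z + D) (b + D + l) ∧ 0 < W K N 0 z (b + D + l) ∧
      0 < W K N D (z + D) b ∧ 0 < W K N 0 z b ∧ 0 < W K N 0 z (b + D) ∧
      0 < W K N D (z + D) (b + D) := by
  obtain ⟨hz, hD, hD0, hl, hl0, hb, b1, b2, b3, b4⟩ := g
  refine ⟨?_, ?_, ?_, ?_, ?_, ?_⟩ <;> apply W_pos hK <;> first | (rw [abs_le]; omega) | omega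

lemma R_le {K : ℕ → ℤ → ℝ} (hK : ∀ i x, 0 < K i x) {N : ℕ} {z b l D : ℤ} (g : Geo N z b l D) :
    R K N D (z + D) b l D - R K N 0 z b l D ≤ G K N z b l D := by
  obtain ⟨w1, w2, w3, w4, w5, w6⟩ := g.Wpos hK
  have hK' : ∀ i x, 0 ≤ K i x := fun i x => (hK i x).le
  obtain ⟨j, hj⟩ : ∃ j : ℕ, D = 2 * j := ⟨(D / 2).toNat, by
    rw [Int.toNat_of_nonneg (by have := g.hD0; omega)]
    have := g.hD
    omega⟩
  have u := block_up hK' (N := N) (z := z) (b := b + D) (l := l) (j := j)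
    (by have := g.hb; have := g.hD; omega) g.hl
  have d := block_down hK' (N := N) (z := z) (b := b) (l := l) (j := j) g.hb
  rw [← hj] at u d
  have m1 : 0 < M K N 0 z b l := M_pos hK g.hl0 w4
  have m2 : 0 < M K N 0 z (b + D) l := M_pos hK g.hl0 w5
  have m3 : 0 < M K N D (z + D) b l := M_pos hK g.hl0 w3
  have m4 : 0 < M K N D (z + D) (b + D) l := M_pos hK g.hl0 w6
  have l1 := Real.log_le_log (by positivity) u
  have l2 := Real.log_le_log (by positivity) d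
  rw [Real.log_mul m4.ne' w2.ne', Real.log_mul w1.ne' m2.ne'] at l1
  rw [Real.log_mul w3.ne' m1.ne', Real.log_mul m3.ne' w4.ne'] at l2
  unfold R G
  linarith

lemma G_nonneg {K : ℕ → ℤ → ℝ} (hK : ∀ i x, 0 < K i x) {N : ℕ} {z b l D : ℤ}
    (g : Geo N z b l D) : 0 ≤ G K N z b l D := by
  obtain ⟨w1, w2, w3, w4, w5, w6⟩ := g.Wpos hK
  have hK' : ∀ i x, 0 ≤ K i x := fun i x => (hK i x).le
  obtain ⟨j, hj⟩ : ∃ j : ℕ, D = 2 * j := ⟨(D / 2).toNat, by
    rw [Int.toNat_of_nonneg (by have := g.hD0; omega)]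
    have := g.hD
    omega⟩
  have h := LR_W hK' N 0 z j b ((D + l) / 2).toNat
  have e : b + 2 * (((D + l) / 2).toNat : ℤ) = b + D + l := by
    rw [Int.toNat_of_nonneg (by have := g.hD0; have := g.hl0; omega)]
    have := g.hD
    have := g.hl
    omega
  rw [e, zero_add, ← hj] at h
  have l1 := Real.log_le_log (by positivity) h
  rw [Real.log_mul w3.ne' w2.ne', Real.log_mul w1.ne' w4.ne'] at l1
  unfold G
  linarith

/-- point reflection of the weights -/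
def rho (N : ℕ) (c : ℤ) (K : ℕ → ℤ → ℝ) : ℕ → ℤ → ℝ := fun i x => K (2 * N - i) (c - x)

lemma W_rho {K : ℕ → ℤ → ℝ} (hK : ∀ i x, 0 < K i x) (N : ℕ) (z D m : ℤ) :
    W (rho N (z + D) K) N 0 z m * K (2 * N) (z + D) =
      K 0 D * W K N D (z + D) (z + D - m) := by
  set c := z + D with hc
  have a1 : Z (rho N c K) 0 N m * K (2 * N) c = K N (c - m) * Z (sh N K) (c - m) N c := by
    rw [Z_refl (rho N c K) 0 c N m]
    have e1 : (fun i u => rho N c K i (c - u)) = fun i u => K (2 * N - i) u := by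
      funext i u
      unfold rho
      rw [sub_sub_cancel]
    rw [e1, sub_zero]
    have h := Z_rev (fun i u => K (2 * N - i) u) N c (c - m)
    simp only [Nat.sub_zero] at h
    rw [h]
    have e2 : 2 * N - N = N := by omega
    rw [e2]
    congr 1
    apply Z_congr
    intro i x h1 h2 _
    unfold sh
    congr 1
    omega
  have a2 : K N (c - m) * Z (sh N (rho N c K)) m N z = K 0 D * Z K D N (c - m) := by
    rw [Z_refl (sh N (rho N c K)) m c N z]
    have e1 : c - z = D := by rw [hc]; ring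
    rw [e1]
    have h := Z_rev K N D (c - m)
    rw [mul_comm (K 0 D), h]
    congr 1
    apply Z_congr
    intro i x h1 h2 _
    unfold sh rho
    rw [sub_sub_cancel]
    congr 1
    omega
  have hp := hK N (c - m)
  apply mul_left_cancel₀ hp.ne'
  unfold W
  calc K N (c - m) * (Z (rho N c K) 0 N m * Z (sh N (rho N c K)) m N z * K (2 * N) c)
      = (Z (rho N c K) 0 N m * K (2 * N) c) * (K N (c - m) * Z (sh N (rho N c K)) m N z) := by ring
    _ = (K N (c - m) * Z (sh N K) (c - m) N c) * (K 0 D * Z K D N (c - m)) := by rw [a1, a2]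
    _ = _ := by ring

lemma M_rho {K : ℕ → ℤ → ℝ} (hK : ∀ i x, 0 < K i x) (N : ℕ) (z D b l : ℤ) :
    M (rho N (z + D) K) N 0 z b l * K (2 * N) (z + D) =
      K 0 D * M K N D (z + D) (z + D - (b + l)) l := by
  unfold M
  rw [Finset.sum_mul, Finset.mul_sum]
  refine Finset.sum_nbij' (fun m => z + D - m) (fun m => z + D - m) ?_ ?_ ?_ ?_ ?_
  · intro m hm; rw [Finset.mem_Icc] at hm ⊢; omega
  · intro m hm; rw [Finset.mem_Icc] at hm ⊢; omega
  · intro m _; ring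
  · intro m _; ring
  · intro m _; exact W_rho hK N z D m

/-- the symmetry of the log ratio; `b` is such that the lower block is centred at `z/2` -/
lemma R_rho {K : ℕ → ℤ → ℝ} (hK : ∀ i x, 0 < K i x) {N : ℕ} {z b l D : ℤ}
    (g : Geo N z b l D) (hsym : 2 * b + l = z) :
    R (rho N (z + D) K) N 0 z b l D = - R K N D (z + D) b l D := by
  obtain ⟨w1, w2, w3, w4, w5, w6⟩ := g.Wpos hK
  have h1 := M_rho hK N z D b l
  have h2 := M_rho hK N z D (b + D) l
  have e1 : z + D - (b + l) = b + D := by omega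
  have e2 : z + D - (b + D + l) = b := by omega
  rw [e1] at h1
  rw [e2] at h2
  have hr : ∀ i x, 0 < rho N (z + D) K i x := fun i x => hK _ _
  obtain ⟨v1, v2, v3, v4, v5, v6⟩ := g.Wpos hr
  have m1 : 0 < M (rho N (z + D) K) N 0 z b l := M_pos hr g.hl0 v4
  have m2 : 0 < M (rho N (z + D) K) N 0 z (b + D) l := M_pos hr g.hl0 v5
  have m3 : 0 < M K N D (z + D) b l := M_pos hK g.hl0 w3
  have m4 : 0 < M K N D (z + D) (b + D) l := M_pos hK g.hl0 w6
  have k1 := hK (2 * N) (z + D)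
  have k2 := hK 0 D
  have l1 := congrArg Real.log h1
  have l2 := congrArg Real.log h2
  rw [Real.log_mul m1.ne' k1.ne', Real.log_mul k2.ne' m4.ne'] at l1
  rw [Real.log_mul m2.ne' k1.ne', Real.log_mul k2.ne' m3.ne'] at l2
  unfold R
  linarith

end Pool.Agent.K1H53.SD
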