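import Pool.Agent.K1H53.SD.Win

/-!
Anti-concentration of the log ratio of the barrier block and the tube.
-/

open MeasureTheory ProbabilityTheory TH967.DP
open Classical

set_option linter.unusedSectionVars false

namespace Pool.Agent.K1H53.SD

lemma Z_congr_box {K L : ℕ → ℤ → ℝ} {N : ℕ} (h : ∀ i x, (i, x) ∈ Bx N → K i x = L i x) (z : ℤ) :
    Z K 0 (2 * N) z = Z L 0 (2 * N) z := by
  apply Z_congr
  intro i x h1 h2 h3
  apply h
  unfold Bx
  rw [Finset.mem_product, Finset.mem_Icc, Finset.mem_Icc]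
  rw [abs_le] at h3
  refine ⟨⟨h1, h2⟩, ?_, ?_⟩ <;> simp only <;> omega

lemma M_congr_box {K L : ℕ → ℤ → ℝ} {N : ℕ} (h : ∀ i x, (i, x) ∈ Bx N → K i x = L i x)
    {z b l : ℤ} (hb : -(N : ℤ) ≤ b) (hl : b + l ≤ N) : M K N 0 z b l = M L N 0 z b l := by
  unfold M
  apply Finset.sum_congr rfl
  intro m hm
  rw [Finset.mem_Icc] at hm
  unfold W
  congr 1
  · apply Z_congr
    intro i x h1 h2 h3
    apply h
    unfold Bx
    rw [Finset.mem_product, Finset.mem_Icc, Finset.mem_Icc]
    rw [abs_le] at h3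
    refine ⟨⟨h1, ?_⟩, ?_, ?_⟩ <;> simp only <;> omega
  · apply Z_congr
    intro i x h1 h2 h3
    apply h
    unfold Bx
    rw [Finset.mem_product, Finset.mem_Icc, Finset.mem_Icc]
    rw [abs_le] at h3
    refine ⟨⟨?_, ?_⟩, ?_, ?_⟩ <;> simp only <;> omega

variable {Ω : Type*} [MeasurableSpace Ω] {P : Measure Ω} [IsProbabilityMeasure P]
variable {ω : ℕ → ℤ → Ω → ℝ}

lemma law_S (h : IsEnv P ω) (S : Finset (ℕ × ℤ)) :
    P.map (fun a (s : S) => ω s.1.1 s.1.2 a) = Measure.pi (fun _ : S => P.map (ω 1 0)) := by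
  have h1 := h.indep.precomp (g := fun s : S => s.1) Subtype.val_injective
  rw [iIndepFun_iff_map_fun_eq_pi_map (fun i => (h.meas _ _).aemeasurable)] at h1
  rw [h1]
  congr 1
  ext1 k
  exact (h.ident _ _).map_eq

/-- the anti-concentration estimate -/
theorem conc (h : IsEnv P ω) {a₀ b₀ : ℝ} (hab : a₀ < b₀)
    (hp : 0 < (P.map (ω 1 0)).real (Set.Ici b₀)) (hm : 0 < (P.map (ω 1 0)).real (Set.Iic a₀))
    {β : ℝ} (hβ : 0 < β) {N : ℕ} (hN : 1 ≤ N) (y : ℤ) (r : ℕ) {b l : ℤ} (hb : -(N : ℤ) ≤ b)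
    (hl : b + l ≤ N) {lo hi : ℝ} (hlh : lo ≤ hi) :
    P.real {a | 0 < Z (mulK (tub (2 * N) (2 * y) r) (wt β (fld ω a))) 0 (2 * N) (2 * y) ∧
      Real.log (M (mulK (bar N y r) (wt β (fld ω a))) N 0 (2 * y) b l) -
        Real.log (Z (mulK (tub (2 * N) (2 * y) r) (wt β (fld ω a))) 0 (2 * N) (2 * y)) ∈
          Set.Icc lo hi} ≤
      (hi - lo + 2) * Real.sqrt ((2 * r + 1) *
        (1 / (P.map (ω 1 0)).real (Set.Ici b₀) + 1 / (P.map (ω 1 0)).real (Set.Iic a₀))) /
        (Real.sqrt N * (1 - Real.exp (-(β * (b₀ - a₀))))) := by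
  set μ := P.map (ω 1 0) with hμ
  have hprob : IsProbabilityMeasure μ := Measure.isProbabilityMeasure_map (h.meas 1 0).aemeasurable
  set Kc := 1 / μ.real (Set.Ici b₀) + 1 / μ.real (Set.Iic a₀) with hKc
  set q := 1 - Real.exp (-(β * (b₀ - a₀))) with hq
  have hKpos : 0 < Kc := by positivity
  have hqpos : 0 < q := by
    rw [hq]
    have : Real.exp (-(β * (b₀ - a₀))) < 1 := by
      rw [Real.exp_lt_one_iff]
      have := mul_pos hβ (sub_pos.2 hab)
      linarith
    linarith
  have hNR : (0 : ℝ) < N := by exact_mod_cast hN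
  set Bd := (hi - lo + 2) * Real.sqrt ((2 * r + 1) * Kc) / (Real.sqrt N * q) with hBd
  have hBd0 : 0 ≤ Bd := by
    rw [hBd]
    have : 0 ≤ hi - lo := by linarith
    positivity
  set f1 : Ω → (S1 N y r → ℝ) := fun a s => ω s.1.1 s.1.2 a with hf1
  set f2 : Ω → (S2 N y r → ℝ) := fun a s => ω s.1.1 s.1.2 a with hf2
  have mf1 : Measurable f1 := by
    rw [measurable_pi_iff]; intro s; exact h.meas _ _
  have mf2 : Measurable f2 := by
    rw [measurable_pi_iff]; intro s; exact h.meas _ _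
  have hgl : ∀ a i x, (i, x) ∈ Bx N → gl N y r (f1 a) (f2 a) i x = ω i x a := by
    intro a i x hx
    exact gl_env N y r (fld ω a) hx
  -- congruences
  have cg1 : ∀ a, Z (mulK (tub (2 * N) (2 * y) r) (wt β (fld ω a))) 0 (2 * N) (2 * y) =
      Z (mulK (tub (2 * N) (2 * y) r) (wt β (gl N y r (f1 a) (f2 a)))) 0 (2 * N) (2 * y) := by
    intro a
    apply Z_congr_box
    intro i x hx
    unfold mulK wt
    rw [hgl a i x hx]
  have cg2 : ∀ a, M (mulK (bar N y r) (wt β (fld ω a))) N 0 (2 * y) b l =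
      M (mulK (bar N y r) (wt β (gl N y r (f1 a) (f2 a)))) N 0 (2 * y) b l := by
    intro a
    apply M_congr_box _ hb hl
    intro i x hx
    unfold mulK wt
    rw [hgl a i x hx]
  by_cases hne : Nonempty (Wt N y r)
  swap
  · -- no tube paths
    have hz : ∀ a, Z (mulK (tub (2 * N) (2 * y) r) (wt β (fld ω a))) 0 (2 * N) (2 * y) = 0 := by
      intro a
      rw [cg1 a, Z_gl]
      unfold ZZw
      have : IsEmpty (Wt N y r) := not_nonempty_iff.1 hne
      exact Finset.sum_of_isEmpty _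
    have : {a | 0 < Z (mulK (tub (2 * N) (2 * y) r) (wt β (fld ω a))) 0 (2 * N) (2 * y) ∧
      Real.log (M (mulK (bar N y r) (wt β (fld ω a))) N 0 (2 * y) b l) -
        Real.log (Z (mulK (tub (2 * N) (2 * y) r) (wt β (fld ω a))) 0 (2 * N) (2 * y)) ∈
          Set.Icc lo hi} = ∅ := by
      ext a
      simp only [Set.mem_ofPred_eq, Set.mem_empty_iff_false, iff_false, not_and]
      intro h1
      rw [hz a] at h1
      exact absurd h1 (lt_irrefl _)
    rw [this]
    simpa using hBd0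
  have hne1 : Nonempty (S1 N y r) := by
    obtain ⟨w⟩ := hne
    have h1 := card_vis w
    have h2 := card_Tm N
    have h3 : 0 < (vis w).card := by omega
    obtain ⟨s, _⟩ := Finset.card_pos.1 h3
    exact ⟨s⟩
  -- the event in the product space
  set E : Set ((S1 N y r → ℝ) × (S2 N y r → ℝ)) := {p |
    Real.log (M (mulK (bar N y r) (wt β (gl N y r p.1 p.2))) N 0 (2 * y) b l) -
      Real.log (Z (mulK (tub (2 * N) (2 * y) r) (wt β (gl N y r p.1 p.2))) 0 (2 * N) (2 * y)) ∈
        Set.Icc lo hi} with hE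
  have mwt : ∀ (c : ℕ → ℤ → ℝ) (i : ℕ) (x : ℤ), Measurable
      (fun p : (S1 N y r → ℝ) × (S2 N y r → ℝ) => mulK c (wt β (gl N y r p.1 p.2)) i x) := by
    intro c i x
    unfold mulK wt
    exact ((Real.measurable_exp.comp ((measurable_gl N y r i x).const_mul β))).const_mul _
  have mE : MeasurableSet E := by
    apply MeasurableSet.preimage measurableSet_Icc
    exact (Real.measurable_log.comp (measurable_M (mwt _) _ _ _ _ _)).sub
      (Real.measurable_log.comp (measurable_Z (mwt _) _ _ _))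
  have hind : IndepFun f1 f2 P :=
    h.indep.indepFun_finset (S1 N y r) (S2 N y r) (disj N y r) (fun s => h.meas _ _)
  have hlaw := (indepFun_iff_map_prod_eq_prod_map_map mf1.aemeasurable mf2.aemeasurable).1 hind
  have hslice : ∀ v : S2 N y r → ℝ, (P.map f1) ((fun u => (u, v)) ⁻¹' E) ≤ ENNReal.ofReal Bd := by
    intro v
    have hl1 : P.map f1 = Measure.pi (fun _ : S1 N y r => μ) := law_S h (S1 N y r)
    rw [hl1]
    set A := Real.log (M (mulK (bar N y r) (wt β (gl N y r (fun _ => 0) v))) N 0 (2 * y) b l)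
      with hA
    have hpre : (fun u => (u, v)) ⁻¹' E ⊆ YYw β (cw β v) (vis (N := N) (y := y) (r := r)) ⁻¹'
        Set.Icc (A - hi) (A - hi + (hi - lo)) := by
      intro u hu
      simp only [hE, Set.mem_preimage, Set.mem_ofPred_eq, Set.mem_Icc] at hu ⊢
      rw [mulK_bar_gl β N y r u (fun _ => 0) v, ← hA, Z_gl] at hu
      unfold YYw
      constructor <;> linarith [hu.1, hu.2]
    have hac := anti_concw (c := cw β v) (fun w => Real.exp_pos _) μ hab hp hm hβ
      (vis (N := N) (y := y) (r := r)) (m := (Tm N).card) (fun w => card_vis w) (y := A - hi)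
      (L := hi - lo) (by linarith)
    rw [← hKc, ← hq] at hac
    set X := (Measure.pi fun _ : S1 N y r => μ).real
      (YYw β (cw β v) (vis (N := N) (y := y) (r := r)) ⁻¹' Set.Icc (A - hi) (A - hi + (hi - lo)))
      with hX
    have hXle : X ≤ Bd := by
      set m := (Tm N).card with hmdef
      have hmN : (N : ℝ) ≤ m := by exact_mod_cast card_Tm N
      have hmpos : (0 : ℝ) < m := lt_of_lt_of_le hNR hmN
      have hcard : (Fintype.card (S1 N y r) : ℝ) ≤ (2 * r + 1) * m := by
        rw [Fintype.card_coe]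
        have := card_S1 N hN y r
        exact_mod_cast this
      have hsq : Real.sqrt (Fintype.card (S1 N y r) * Kc) ≤
          Real.sqrt m * Real.sqrt ((2 * r + 1) * Kc) := by
        rw [← Real.sqrt_mul hmpos.le]
        apply Real.sqrt_le_sqrt
        calc (Fintype.card (S1 N y r) : ℝ) * Kc ≤ ((2 * r + 1) * m) * Kc :=
              mul_le_mul_of_nonneg_right hcard hKpos.le
          _ = m * ((2 * r + 1) * Kc) := by ring
      have hsm : 0 < Real.sqrt m := Real.sqrt_pos.2 hmpos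
      have hsm2 : Real.sqrt m * Real.sqrt m = m := Real.mul_self_sqrt hmpos.le
      have hsN : 0 < Real.sqrt N := Real.sqrt_pos.2 hNR
      have hsNm : Real.sqrt N ≤ Real.sqrt m := Real.sqrt_le_sqrt hmN
      have hX0 : 0 ≤ X := measureReal_nonneg
      rw [hBd, le_div_iff₀ (by positivity)]
      have hL2 : 0 ≤ hi - lo + 2 := by linarith
      have h1 : Real.sqrt m * (X * (Real.sqrt m * q)) ≤
          Real.sqrt m * ((hi - lo + 2) * Real.sqrt ((2 * r + 1) * Kc)) := by
        calc Real.sqrt m * (X * (Real.sqrt m * q)) = (Real.sqrt m * Real.sqrt m) * q * X := by ring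
          _ = m * q * X := by rw [hsm2]
          _ ≤ (hi - lo + 2) * Real.sqrt (Fintype.card (S1 N y r) * Kc) := hac
          _ ≤ (hi - lo + 2) * (Real.sqrt m * Real.sqrt ((2 * r + 1) * Kc)) :=
              mul_le_mul_of_nonneg_left hsq hL2
          _ = _ := by ring
      have h2 := le_of_mul_le_mul_left h1 hsm
      refine le_trans ?_ h2
      apply mul_le_mul_of_nonneg_left _ hX0
      exact mul_le_mul_of_nonneg_right hsNm hqpos.le
    calc (Measure.pi fun _ : S1 N y r => μ) ((fun u => (u, v)) ⁻¹' E)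
        ≤ (Measure.pi fun _ : S1 N y r => μ) (YYw β (cw β v) (vis (N := N) (y := y) (r := r)) ⁻¹'
          Set.Icc (A - hi) (A - hi + (hi - lo))) := measure_mono hpre
      _ = ENNReal.ofReal X := by
          rw [hX, measureReal_def, ENNReal.ofReal_toReal (measure_ne_top _ _)]
      _ ≤ ENNReal.ofReal Bd := ENNReal.ofReal_le_ofReal hXle
  have hPE : P {a | (f1 a, f2 a) ∈ E} ≤ ENNReal.ofReal Bd := by
    have e1 : P {a | (f1 a, f2 a) ∈ E} = (P.map (fun a => (f1 a, f2 a))) E := by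
      rw [Measure.map_apply (mf1.prodMk mf2) mE]
      rfl
    have hp1 : IsProbabilityMeasure (P.map f1) :=
      Measure.isProbabilityMeasure_map mf1.aemeasurable
    have hp2 : IsProbabilityMeasure (P.map f2) :=
      Measure.isProbabilityMeasure_map mf2.aemeasurable
    rw [e1, hlaw, Measure.prod_apply_symm mE]
    calc ∫⁻ v, (P.map f1) ((fun u => (u, v)) ⁻¹' E) ∂(P.map f2)
        ≤ ∫⁻ v, ENNReal.ofReal Bd ∂(P.map f2) := lintegral_mono (fun v => hslice v)
      _ = ENNReal.ofReal Bd := by rw [lintegral_const, measure_univ, mul_one]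
  have hsub : {a | 0 < Z (mulK (tub (2 * N) (2 * y) r) (wt β (fld ω a))) 0 (2 * N) (2 * y) ∧
      Real.log (M (mulK (bar N y r) (wt β (fld ω a))) N 0 (2 * y) b l) -
        Real.log (Z (mulK (tub (2 * N) (2 * y) r) (wt β (fld ω a))) 0 (2 * N) (2 * y)) ∈
          Set.Icc lo hi} ⊆ {a | (f1 a, f2 a) ∈ E} := by
    rintro a ⟨_, h2⟩
    simp only [hE, Set.mem_ofPred_eq]
    rw [← cg1 a, ← cg2 a]
    exact h2
  calc _ ≤ P.real {a | (f1 a, f2 a) ∈ E} := measureReal_mono hsub
    _ ≤ Bd := by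
        rw [measureReal_def]
        exact ENNReal.toReal_le_of_le_ofReal hBd0 hPE

end Pool.Agent.K1H53.SD
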