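import Pool.Agent.K1H53.SD.Conc

/-!
The main inequality at a fixed scale.
-/

open MeasureTheory ProbabilityTheory TH967.DP

set_option linter.unusedSectionVars false

namespace Pool.Agent.K1H53.SD

variable {Ω : Type*} [MeasurableSpace Ω] {P : Measure Ω} [IsProbabilityMeasure P]
variable {ω : ℕ → ℤ → Ω → ℝ}

/-- confinement of the point-to-point polymer from `(0,0)` to `(n,e)` to the tube of radius `r`
around the chord, with polymer probability at least `q` -/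
def Conf (K : ℕ → ℤ → ℝ) (n : ℕ) (e : ℤ) (r : ℕ) (q : ℝ) : Prop :=
  q * Z K 0 n e ≤ Z (mulK (tub n e r) K) 0 n e

/-- probability of confinement -/
noncomputable def qq (P : Measure Ω) (ω : ℕ → ℤ → Ω → ℝ) (β : ℝ) (n : ℕ) (e : ℤ) (r : ℕ)
    (q : ℝ) : ℝ := P.real {a | Conf (wt β (fld ω a)) n e r q}

lemma measurableSet_Conf (β : ℝ) (n : ℕ) (e : ℤ) (r : ℕ) (q : ℝ) :
    MeasurableSet {η : ℕ → ℤ → ℝ | Conf (wt β η) n e r q} := by
  apply measurableSet_le
  · exact (measurable_Z (fun i x => measurable_wt β i x) _ _ _).const_mul q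
  · exact measurable_Z (fun i x => (measurable_wt β i x).const_mul _) _ _ _

lemma qq_shift (h : IsEnv P ω) (β : ℝ) (n : ℕ) (e : ℤ) (r : ℕ) (q : ℝ) (s : ℕ) (c : ℤ) :
    P.real {a | Conf (shc s c (wt β (fld ω a))) n e r q} = qq P ω β n e r q := by
  have hτ : Function.Injective (fun p : ℕ × ℤ => ((s + p.1, p.2 + c) : ℕ × ℤ)) := by
    rintro ⟨i, x⟩ ⟨j, y⟩ hh
    simp only [Prod.mk.injEq] at hh
    ext <;> simp <;> omega
  exact prob_inv h (τ := fun i x => (s + i, x + c)) hτ (measurableSet_Conf β n e r q)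

lemma measurableSet_Conf' (h : IsEnv P ω) (β : ℝ) (n : ℕ) (e : ℤ) (r : ℕ) (q : ℝ) :
    MeasurableSet {a | Conf (wt β (fld ω a)) n e r q} :=
  (measurable_env h) (measurableSet_Conf β n e r q)

lemma measurableSet_Conf_shift (h : IsEnv P ω) (β : ℝ) (n : ℕ) (e : ℤ) (r : ℕ) (q : ℝ) (s : ℕ)
    (c : ℤ) : MeasurableSet {a | Conf (shc s c (wt β (fld ω a))) n e r q} := by
  apply measurableSet_le
  · exact (measurable_Z (fun i x => measurable_wt' h β _ _) _ _ _).const_mul q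
  · exact measurable_Z (fun i x => (measurable_wt' h β _ _).const_mul _) _ _ _

lemma compl_bound {A : Set Ω} (hA : MeasurableSet A) : P.real Aᶜ = 1 - P.real A := by
  rw [measureReal_compl hA, probReal_univ]

theorem core (h : IsEnv P ω) (hexp : HasExp P ω) {a₀ b₀ : ℝ} (hab : a₀ < b₀)
    (hp : 0 < (P.map (ω 1 0)).real (Set.Ici b₀)) (hm : 0 < (P.map (ω 1 0)).real (Set.Iic a₀))
    {β : ℝ} (hβ : 0 < β) {N : ℕ} {y b l D ep em : ℤ} {r : ℕ} (g : Geo2 N y b l D ep em r)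
    {q t : ℝ} (hq : 1 / 2 < q) (hq1 : q ≤ 1) (ht : 0 < t) :
    qq P ω β (2 * N) (2 * y) r q + qq P ω β N ep r q + qq P ω β N em r q - 5 / 2 -
      (∫ a, G (wt β (fld ω a)) N (2 * y) b l D ∂P) / (4 * t) ≤
      (t - 2 * Real.log q + 2) * Real.sqrt ((2 * r + 1) *
        (1 / (P.map (ω 1 0)).real (Set.Ici b₀) + 1 / (P.map (ω 1 0)).real (Set.Iic a₀))) /
        (Real.sqrt N * (1 - Real.exp (-(β * (b₀ - a₀))))) := by
  have hlog : Real.log q ≤ 0 := Real.log_nonpos (by linarith) hq1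
  have hlN : b + D + l ≤ (N : ℤ) := g.b2
  have hbN : -(N : ℤ) ≤ b + D := by have := g.b1; have := g.hD0; omega
  have hc := conc h hab hp hm hβ g.hN y r hbN hlN (lo := 2 * Real.log q - t) (hi := 0)
    (by linarith)
  have e0 : (0 : ℝ) - (2 * Real.log q - t) + 2 = t - 2 * Real.log q + 2 := by ring
  rw [e0] at hc
  refine le_trans ?_ hc
  set Ev := {a | 0 < Z (mulK (tub (2 * N) (2 * y) r) (wt β (fld ω a))) 0 (2 * N) (2 * y) ∧
      Real.log (M (mulK (bar N y r) (wt β (fld ω a))) N 0 (2 * y) (b + D) l) -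
        Real.log (Z (mulK (tub (2 * N) (2 * y) r) (wt β (fld ω a))) 0 (2 * N) (2 * y)) ∈
          Set.Icc (2 * Real.log q - t) 0} with hEv
  set E1 := {a | Conf (wt β (fld ω a)) (2 * N) (2 * y) r q} with hE1
  set E2 := {a | Conf (wt β (fld ω a)) N ep r q} with hE2
  set E3 := {a | Conf (shc N (2 * y - em) (wt β (fld ω a))) N em r q} with hE3
  set E4 := {a | R (wt β (fld ω a)) N 0 (2 * y) b l D < -t} with hE4
  have hsub : E1 ∩ E2 ∩ E3 ∩ E4ᶜ ⊆ Ev := by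
    rintro a ⟨⟨⟨h1, h2⟩, h3⟩, h4⟩
    simp only [hE4, Set.mem_compl_iff, Set.mem_ofPred_eq, not_lt] at h4
    obtain ⟨d1, d2, d3⟩ := det_core (K := wt β (fld ω a)) (fun i x => wt_pos _ _ _ _) g hq
      h1 h2 h3 h4
    exact ⟨d1, d3⟩
  have m1 : MeasurableSet E1 := measurableSet_Conf' h β _ _ _ _
  have m2 : MeasurableSet E2 := measurableSet_Conf' h β _ _ _ _
  have m3 : MeasurableSet E3 := measurableSet_Conf_shift h β _ _ _ _ _ _
  have q3 : P.real E3 = qq P ω β N em r q := qq_shift h β N em r q N (2 * y - em)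
  have hR := prob_R_le h hexp β g.toGeo g.hsym ht
  have hunion : (Set.univ : Set Ω) ⊆ Ev ∪ (E1ᶜ ∪ (E2ᶜ ∪ (E3ᶜ ∪ E4))) := by
    intro a _
    by_cases h1 : a ∈ E1
    · by_cases h2 : a ∈ E2
      · by_cases h3 : a ∈ E3
        · by_cases h4 : a ∈ E4
          · exact Or.inr (Or.inr (Or.inr (Or.inr h4)))
          · exact Or.inl (hsub ⟨⟨⟨h1, h2⟩, h3⟩, h4⟩)
        · exact Or.inr (Or.inr (Or.inr (Or.inl h3)))
      · exact Or.inr (Or.inr (Or.inl h2))
    · exact Or.inr (Or.inl h1)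
  have u0 : (1 : ℝ) ≤ P.real (Ev ∪ (E1ᶜ ∪ (E2ᶜ ∪ (E3ᶜ ∪ E4)))) := by
    rw [← probReal_univ (μ := P)]
    exact measureReal_mono hunion
  have u1 := measureReal_union_le (μ := P) Ev (E1ᶜ ∪ (E2ᶜ ∪ (E3ᶜ ∪ E4)))
  have u2 := measureReal_union_le (μ := P) E1ᶜ (E2ᶜ ∪ (E3ᶜ ∪ E4))
  have u3 := measureReal_union_le (μ := P) E2ᶜ (E3ᶜ ∪ E4)
  have u4 := measureReal_union_le (μ := P) E3ᶜ E4
  rw [compl_bound m1] at u2
  rw [compl_bound m2] at u3
  rw [compl_bound m3, q3] at u4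
  have e1 : P.real E1 = qq P ω β (2 * N) (2 * y) r q := rfl
  have e2 : P.real E2 = qq P ω β N ep r q := rfl
  rw [e1] at u2
  rw [e2] at u3
  linarith

end Pool.Agent.K1H53.SD
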