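import Pool.Agent.K1H53.SD.Scale

/-!
The point-to-point polymer measures and their wandering exponents.
-/

open MeasureTheory Filter

namespace Pool.Agent.K1H53.SD

/-- The energy `∑_{i=1}^n η(i, S_i)` of the walk with steps `w`. -/
noncomputable def energy {n : ℕ} (η : ℕ → ℤ → ℝ) (w : Fin n → Bool) : ℝ :=
  ∑ i : Fin n, η (i.val + 1) (pos w (i.val + 1))

/-- The point-to-point polymer measure of the set `A` of walks: the probability of `A` under the
law on the walks `w` of `n` steps from `0` with `S_n = z` with weights proportional to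
`exp(β ∑_{i≤n} η(i, S_i))`. -/
noncomputable def ppProb {n : ℕ} (β : ℝ) (η : ℕ → ℤ → ℝ) (z : ℤ) (A : Set (Fin n → Bool)) : ℝ :=
  (∑ w : Fin n → Bool, ({w | pos w n = z} ∩ A).indicator (fun w => Real.exp (β * energy η w)) w) /
    ∑ w : Fin n → Bool, {w | pos w n = z}.indicator (fun w => Real.exp (β * energy η w)) w

/-- The walks of `n` steps with `max_{0≤i≤n} |S_i - i v| ≤ R`. -/
def tube (n : ℕ) (v R : ℝ) : Set (Fin n → Bool) := {w | ∀ i ≤ n, |(pos w i : ℝ) - i * v| ≤ R}

/-- The wandering exponent of the point-to-point polymers in the direction `v`: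
`inf{a > 0 : 𝔼(liminf_n P_n^v(max_{0≤i≤n} |S_i - i v| ≤ n^a)) = 1}`, where `P_n^v` is the polymer
measure on the walks of `n` steps from `0` to `endp n v`. -/
noncomputable def wanderingExp {Ω : Type*} [MeasurableSpace Ω] (P : Measure Ω)
    (ω : ℕ → ℤ → Ω → ℝ) (β v : ℝ) : ℝ :=
  sInf {a : ℝ | 0 < a ∧ ∫⁻ x, liminf (fun n : ℕ => ENNReal.ofReal (ppProb β
    (fun i y => ω i y x) (endp n v) (tube n v ((n : ℝ) ^ a)))) atTop ∂P = 1}

end Pool.Agent.K1H53.SD
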