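import Mathlib

/-!
Weights of nearest neighbour paths on `ℤ`: recursion, gluing, reversal, and the likelihood ratio
order (planarity).
-/

namespace Pool.Agent.K1H53.SD

/-- Total weight of the nearest neighbour paths from `x0` to `x` in `n` steps; the weight of a path
`S` is `∏_{i=1}^n K i (S_i)`. -/
noncomputable def Z (K : ℕ → ℤ → ℝ) (x0 : ℤ) : ℕ → ℤ → ℝ
  | 0 => fun x => if x = x0 then 1 else 0
  | n + 1 => fun x => K (n + 1) x * (Z K x0 n (x - 1) + Z K x0 n (x + 1))

/-- time shift -/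
def sh (s : ℕ) (K : ℕ → ℤ → ℝ) : ℕ → ℤ → ℝ := fun i x => K (s + i) x

lemma Z_zero (K : ℕ → ℤ → ℝ) (x0 x : ℤ) : Z K x0 0 x = if x = x0 then 1 else 0 := rfl

lemma Z_succ (K : ℕ → ℤ → ℝ) (x0 : ℤ) (n : ℕ) (x : ℤ) :
    Z K x0 (n + 1) x = K (n + 1) x * (Z K x0 n (x - 1) + Z K x0 n (x + 1)) := rfl

lemma Z_nonneg {K : ℕ → ℤ → ℝ} (hK : ∀ i x, 0 ≤ K i x) (x0 : ℤ) (n : ℕ) :
    ∀ x, 0 ≤ Z K x0 n x := by
  induction n with
  | zero => intro x; rw [Z_zero]; split_ifs <;> norm_num
  | succ n ih =>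
    intro x
    rw [Z_succ]
    exact mul_nonneg (hK _ _) (add_nonneg (ih _) (ih _))

lemma Z_supp (K : ℕ → ℤ → ℝ) (x0 : ℤ) (n : ℕ) : ∀ x, (n : ℤ) < |x - x0| → Z K x0 n x = 0 := by
  induction n with
  | zero =>
    intro x hx
    rw [Z_zero, if_neg]
    rintro rfl
    simp at hx
  | succ n ih =>
    intro x hx
    rw [Z_succ, ih (x - 1), ih (x + 1)]
    · ring
    · push_cast at hx
      rcases abs_cases (x - x0) with h | h <;> rcases abs_cases (x + 1 - x0) with h' | h' <;> omega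
    · push_cast at hx
      rcases abs_cases (x - x0) with h | h <;> rcases abs_cases (x - 1 - x0) with h' | h' <;> omega

lemma Z_parity (K : ℕ → ℤ → ℝ) (x0 : ℤ) (n : ℕ) :
    ∀ x, (x - x0 - n) % 2 = 1 → Z K x0 n x = 0 := by
  induction n with
  | zero =>
    intro x hx
    rw [Z_zero, if_neg]
    rintro rfl
    simp at hx
  | succ n ih =>
    intro x hx
    rw [Z_succ, ih (x - 1), ih (x + 1)]
    · ring
    · push_cast at hx; omega
    · push_cast at hx; omega

lemma Z_congr {K L : ℕ → ℤ → ℝ} {x0 : ℤ} {n : ℕ}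
    (h : ∀ i x, 1 ≤ i → i ≤ n → |x - x0| ≤ (n : ℤ) → K i x = L i x) :
    ∀ x, Z K x0 n x = Z L x0 n x := by
  have key : ∀ m ≤ n, ∀ x, Z K x0 m x = Z L x0 m x := by
    intro m
    induction m with
    | zero => intro _ x; rfl
    | succ m ih =>
      intro hm x
      by_cases hx : |x - x0| ≤ (n : ℤ)
      · rw [Z_succ, Z_succ, ih (by omega), ih (by omega), h (m + 1) x (by omega) hm hx]
      · have : ((m + 1 : ℕ) : ℤ) < |x - x0| := by omega
        rw [Z_supp K x0 (m + 1) x this, Z_supp L x0 (m + 1) x this]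
  exact key n le_rfl

lemma Z_mono {K L : ℕ → ℤ → ℝ} (hK : ∀ i x, 0 ≤ K i x) (h : ∀ i x, K i x ≤ L i x) (x0 : ℤ)
    (n : ℕ) : ∀ x, Z K x0 n x ≤ Z L x0 n x := by
  induction n with
  | zero => intro x; exact le_rfl
  | succ n ih =>
    intro x
    rw [Z_succ, Z_succ]
    apply mul_le_mul (h _ _) (add_le_add (ih _) (ih _))
      (add_nonneg (Z_nonneg hK _ _ _) (Z_nonneg hK _ _ _)) ((hK _ _).trans (h _ _))

lemma Z_pos {K : ℕ → ℤ → ℝ} (hK : ∀ i x, 0 < K i x) (x0 : ℤ) (n : ℕ) :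
    ∀ x, |x - x0| ≤ (n : ℤ) → (x - x0 - n) % 2 = 0 → 0 < Z K x0 n x := by
  have hK' : ∀ i x, 0 ≤ K i x := fun i x => (hK i x).le
  induction n with
  | zero =>
    intro x hx _
    have : x = x0 := by
      rw [abs_le] at hx
      push_cast at hx
      omega
    rw [Z_zero, if_pos this]
    norm_num
  | succ n ih =>
    intro x hx hp
    rw [Z_succ]
    apply mul_pos (hK _ _)
    push_cast at hx hp
    rw [abs_le] at hx
    by_cases hc : x - x0 = -((n : ℤ) + 1)
    · have h2 := ih (x + 1) (by rw [abs_le]; omega) (by omega)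
      have h1 := Z_nonneg hK' x0 n (x - 1)
      linarith
    · have h2 := ih (x - 1) (by rw [abs_le]; omega) (by omega)
      have h1 := Z_nonneg hK' x0 n (x + 1)
      linarith

lemma Z_first (K : ℕ → ℤ → ℝ) (x0 : ℤ) (n : ℕ) : ∀ z,
    Z K x0 (n + 1) z = K 1 (x0 - 1) * Z (sh 1 K) (x0 - 1) n z +
      K 1 (x0 + 1) * Z (sh 1 K) (x0 + 1) n z := by
  induction n with
  | zero =>
    intro z
    rw [Z_succ, Z_zero, Z_zero, Z_zero, Z_zero]
    by_cases h1 : z = x0 + 1
    · subst h1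
      rw [if_pos (by omega), if_neg (by omega), if_neg (by omega), if_pos rfl]
      ring
    · by_cases h2 : z = x0 - 1
      · subst h2
        rw [if_neg (by omega), if_pos (by omega), if_pos rfl, if_neg (by omega)]
        ring
      · rw [if_neg (by omega), if_neg (by omega), if_neg h2, if_neg h1]
        ring
  | succ n ih =>
    intro z
    rw [Z_succ, ih, ih, Z_succ, Z_succ]
    have e : sh 1 K (n + 1) z = K (n + 1 + 1) z := by
      unfold sh; congr 1; omega
    rw [e]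
    ring

lemma sh_sh (s t : ℕ) (K : ℕ → ℤ → ℝ) : sh s (sh t K) = sh (t + s) K := by
  funext i x
  unfold sh
  congr 1
  omega

/-- gluing at time `N` -/
lemma Z_glue (K : ℕ → ℤ → ℝ) (x0 : ℤ) (N M : ℕ) : ∀ z,
    Z K x0 (N + M) z =
      ∑ m ∈ Finset.Icc (x0 - N) (x0 + N), Z K x0 N m * Z (sh N K) m M z := by
  induction M with
  | zero =>
    intro z
    simp only [Nat.add_zero, Z_zero]
    simp only [mul_ite, mul_one, mul_zero]
    by_cases hz : z ∈ Finset.Icc (x0 - N) (x0 + N)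
    · rw [Finset.sum_ite_eq, if_pos hz]
    · rw [Finset.sum_ite_eq, if_neg hz]
      apply Z_supp
      rw [Finset.mem_Icc] at hz
      rcases abs_cases (z - x0) with h | h <;> omega
  | succ M ih =>
    intro z
    have e : N + (M + 1) = (N + M) + 1 := by omega
    rw [e, Z_succ, ih, ih, ← Finset.sum_add_distrib, Finset.mul_sum]
    apply Finset.sum_congr rfl
    intro m _
    rw [Z_succ]
    have e2 : sh N K (M + 1) z = K (N + M + 1) z := rfl
    rw [e2]
    ring

lemma Z_trans (K : ℕ → ℤ → ℝ) (x0 c : ℤ) (n : ℕ) : ∀ x,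
    Z K x0 n x = Z (fun i u => K i (u + c)) (x0 - c) n (x - c) := by
  induction n with
  | zero =>
    intro x
    rw [Z_zero, Z_zero]
    by_cases h : x = x0
    · rw [if_pos h, if_pos (by rw [h])]
    · rw [if_neg h, if_neg (by omega)]
  | succ n ih =>
    intro x
    rw [Z_succ, Z_succ, ih, ih]
    have e1 : x - 1 - c = x - c - 1 := by ring
    have e2 : x + 1 - c = x - c + 1 := by ring
    rw [e1, e2]
    simp

lemma Z_refl (K : ℕ → ℤ → ℝ) (x0 c : ℤ) (n : ℕ) : ∀ x,
    Z K x0 n x = Z (fun i u => K i (c - u)) (c - x0) n (c - x) := by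
  induction n with
  | zero =>
    intro x
    rw [Z_zero, Z_zero]
    by_cases h : x = x0
    · rw [if_pos h, if_pos (by rw [h])]
    · rw [if_neg h, if_neg (by omega)]
  | succ n ih =>
    intro x
    rw [Z_succ, Z_succ, ih, ih]
    have e1 : c - (x - 1) = c - x + 1 := by ring
    have e2 : c - (x + 1) = c - x - 1 := by ring
    rw [e1, e2]
    simp only [sub_sub_cancel]
    ring

/-- reversal -/
lemma Z_rev (K : ℕ → ℤ → ℝ) (n : ℕ) : ∀ x z,
    Z K x n z * K 0 x = K n z * Z (fun i u => K (n - i) u) z n x := by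
  induction n with
  | zero =>
    intro x z
    rw [Z_zero, Z_zero]
    by_cases h : z = x
    · subst h; simp
    · have h' : x ≠ z := fun e => h e.symm
      simp [h, h']
  | succ n ih =>
    intro x z
    rw [Z_succ, Z_first]
    have e : sh 1 (fun i u => K (n + 1 - i) u) = fun i u => K (n - i) u := by
      funext i u
      unfold sh
      simp only
      congr 1
      omega
    rw [e]
    simp only [Nat.add_sub_cancel]
    have h1 := ih x (z - 1)
    have h2 := ih x (z + 1)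
    have : K (n + 1) z * (Z K x n (z - 1) + Z K x n (z + 1)) * K 0 x =
        K (n + 1) z * (Z K x n (z - 1) * K 0 x + Z K x n (z + 1) * K 0 x) := by ring
    rw [this, h1, h2]

/-! ### likelihood ratio order -/

/-- `f ≤ g` in the likelihood ratio order (on each parity class). -/
def LR (f g : ℤ → ℝ) : Prop := ∀ (a : ℤ) (k : ℕ), g a * f (a + 2 * k) ≤ g (a + 2 * k) * f a

lemma LR.refl (f : ℤ → ℝ) : LR f f := fun a k => by rw [mul_comm]

lemma LR.mul {K L f g : ℤ → ℝ} (hK : ∀ x, 0 ≤ K x) (hL : ∀ x, 0 ≤ L x) (hf : ∀ x, 0 ≤ f x)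
    (hg : ∀ x, 0 ≤ g x) (h1 : LR K L) (h2 : LR f g) :
    LR (fun x => K x * f x) (fun x => L x * g x) := by
  intro a k
  have := mul_le_mul (h1 a k) (h2 a k) (mul_nonneg (hg _) (hf _)) (mul_nonneg (hL _) (hK _))
  calc L a * g a * (K (a + 2 * k) * f (a + 2 * k))
      = L a * K (a + 2 * k) * (g a * f (a + 2 * k)) := by ring
    _ ≤ L (a + 2 * k) * K a * (g (a + 2 * k) * f a) := this
    _ = _ := by ring

lemma LR.nb {f g : ℤ → ℝ} (h : LR f g) :
    LR (fun x => f (x - 1) + f (x + 1)) (fun x => g (x - 1) + g (x + 1)) := by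
  intro a k
  simp only
  rcases k with _ | k
  · simp only [Nat.cast_zero, mul_zero, add_zero]
    rw [mul_comm]
  · have h1 := h (a - 1) (k + 1)
    have h2 := h (a + 1) (k + 1)
    have h3 := h (a - 1) (k + 2)
    have h4 := h (a + 1) k
    push_cast at h1 h2 h3 h4 ⊢
    have e1 : a - 1 + 2 * ((k : ℤ) + 1) = a + 2 * (k + 1) - 1 := by ring
    have e2 : a + 1 + 2 * ((k : ℤ) + 1) = a + 2 * (k + 1) + 1 := by ring
    have e3 : a - 1 + 2 * ((k : ℤ) + 2) = a + 2 * (k + 1) + 1 := by ring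
    have e4 : a + 1 + 2 * (k : ℤ) = a + 2 * (k + 1) - 1 := by ring
    rw [e1] at h1
    rw [e2] at h2
    rw [e3] at h3
    rw [e4] at h4
    nlinarith

lemma LR_delta (x0 : ℤ) (j : ℕ) :
    LR (fun x => if x = x0 then 1 else 0) (fun x => if x = x0 + 2 * j then 1 else 0) := by
  intro a k
  simp only
  by_cases h1 : a = x0 + 2 * j
  · by_cases h2 : a + 2 * k = x0
    · have hk : k = 0 := by omega
      have hj : j = 0 := by omega
      subst hk hj
      simp
    · rw [if_neg h2]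
      split_ifs <;> norm_num
  · rw [if_neg h1]
    split_ifs <;> norm_num

lemma LR_end {K L : ℕ → ℤ → ℝ} (hK : ∀ i x, 0 ≤ K i x) (hL : ∀ i x, 0 ≤ L i x)
    (h : ∀ i, LR (K i) (L i)) (x0 : ℤ) (j : ℕ) (n : ℕ) :
    LR (Z K x0 n) (Z L (x0 + 2 * j) n) := by
  induction n with
  | zero => exact LR_delta x0 j
  | succ n ih =>
    exact LR.mul (hK _) (hL _)
      (fun x => add_nonneg (Z_nonneg hK _ _ _) (Z_nonneg hK _ _ _))
      (fun x => add_nonneg (Z_nonneg hL _ _ _) (Z_nonneg hL _ _ _)) (h _) ih.nb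

lemma LR_start (n : ℕ) : ∀ {K L : ℕ → ℤ → ℝ} (_ : ∀ i x, 0 ≤ K i x) (_ : ∀ i x, 0 ≤ L i x)
    (_ : ∀ i, LR (K i) (L i)) (z : ℤ) (j : ℕ),
    LR (fun m => Z K m n z) (fun m => Z L m n (z + 2 * j)) := by
  induction n with
  | zero =>
    intro K L _ _ _ z j
    have := LR_delta z j
    simpa only [Z_zero, eq_comm] using this
  | succ n ih =>
    intro K L hK hL h z j
    have h1 := ih (K := sh 1 K) (L := sh 1 L) (fun i x => hK _ _) (fun i x => hL _ _)
      (fun i => h _) z j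
    have h2 := (LR.mul (hK 1) (hL 1) (fun x => Z_nonneg (fun i x => hK _ _) _ _ _)
      (fun x => Z_nonneg (fun i x => hL _ _) _ _ _) (h 1) h1).nb
    intro a k
    have h3 := h2 a k
    simp only [Z_first]
    exact h3

end Pool.Agent.K1H53.SD
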