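import Pool.Agent.K1H53.SD.Env

/-!
The log ratio of two blocks: symmetry, mean discrepancy, concavity of the mean free energy.
-/

open MeasureTheory ProbabilityTheory

set_option linter.unusedSectionVars false

namespace Pool.Agent.K1H53.SD

variable {Ω : Type*} [MeasurableSpace Ω] {P : Measure Ω} [IsProbabilityMeasure P]
variable {ω : ℕ → ℤ → Ω → ℝ}

/-- the field of the environment -/
abbrev fld (ω : ℕ → ℤ → Ω → ℝ) (a : Ω) : ℕ → ℤ → ℝ := fun i x => ω i x a

lemma W_congr {K L : ℕ → ℤ → ℝ} {N : ℕ} (h : ∀ i x, 1 ≤ i → i ≤ 2 * N → K i x = L i x)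
    (x0 z m : ℤ) : W K N x0 z m = W L N x0 z m := by
  unfold W
  rw [Z_congr (K := K) (L := L) (fun i x h1 h2 _ => h i x h1 (by omega)),
    Z_congr (K := sh N K) (L := sh N L) (fun i x h1 h2 _ => h _ _ (by omega) (by omega))]

lemma M_congr {K L : ℕ → ℤ → ℝ} {N : ℕ} (h : ∀ i x, 1 ≤ i → i ≤ 2 * N → K i x = L i x)
    (x0 z b l : ℤ) : M K N x0 z b l = M L N x0 z b l := by
  unfold M
  exact Finset.sum_congr rfl (fun m _ => W_congr h x0 z m)

lemma R_congr {K L : ℕ → ℤ → ℝ} {N : ℕ} (h : ∀ i x, 1 ≤ i → i ≤ 2 * N → K i x = L i x)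
    (x0 z b l D : ℤ) : R K N x0 z b l D = R L N x0 z b l D := by
  unfold R
  rw [M_congr h, M_congr h]

lemma measurable_W {α : Type*} [MeasurableSpace α] {K : α → ℕ → ℤ → ℝ}
    (hK : ∀ i x, Measurable (fun a => K a i x)) (N : ℕ) (x0 z m : ℤ) :
    Measurable (fun a => W (K a) N x0 z m) := by
  unfold W
  exact (measurable_Z hK x0 N m).mul (measurable_Z (fun i x => hK _ _) m N z)

lemma measurable_M {α : Type*} [MeasurableSpace α] {K : α → ℕ → ℤ → ℝ}
    (hK : ∀ i x, Measurable (fun a => K a i x)) (N : ℕ) (x0 z b l : ℤ) :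
    Measurable (fun a => M (K a) N x0 z b l) := by
  unfold M
  exact Finset.measurable_sum _ (fun m _ => measurable_W hK N x0 z m)

lemma measurable_R {α : Type*} [MeasurableSpace α] {K : α → ℕ → ℤ → ℝ}
    (hK : ∀ i x, Measurable (fun a => K a i x)) (N : ℕ) (x0 z b l D : ℤ) :
    Measurable (fun a => R (K a) N x0 z b l D) := by
  unfold R
  exact (Real.measurable_log.comp (measurable_M hK N x0 z _ l)).sub
    (Real.measurable_log.comp (measurable_M hK N x0 z _ l))

/-- the law of the log ratio is symmetric up to the change of the endpoints -/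
lemma prob_R_symm (h : IsEnv P ω) (β : ℝ) {N : ℕ} {z b l D : ℤ} (g : Geo N z b l D)
    (hsym : 2 * b + l = z) (t : ℝ) :
    P.real {a | R (wt β (fld ω a)) N 0 z b l D < -t} =
      P.real {a | t < R (wt β (fld ω a)) N D (z + D) b l D} := by
  set c := z + D with hc
  have hτ : Function.Injective (fun p : ℕ × ℤ =>
      (if p.1 ≤ 2 * N then (2 * N - p.1, c - p.2) else (p.1, p.2) : ℕ × ℤ)) := by
    rintro ⟨i, x⟩ ⟨j, y⟩ hh
    simp only at hh
    split_ifs at hh with h1 h2 h2 <;> simp only [Prod.mk.injEq] at hh <;> ext <;> simp <;> omega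
  have hS : MeasurableSet {η : ℕ → ℤ → ℝ | R (wt β η) N 0 z b l D < -t} :=
    measurableSet_lt (measurable_R (fun i x => measurable_wt β i x) _ _ _ _ _ _) measurable_const
  have h1 := prob_inv h (τ := fun i x => if i ≤ 2 * N then (2 * N - i, c - x) else (i, x)) hτ hS
  simp only [Set.mem_ofPred_eq] at h1
  rw [← h1]
  congr 1
  ext a
  simp only [Set.mem_ofPred_eq]
  have e : R (wt β (fun i x => ω (if i ≤ 2 * N then (2 * N - i, c - x) else (i, x)).1
      (if i ≤ 2 * N then (2 * N - i, c - x) else (i, x)).2 a)) N 0 z b l D =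
      - R (wt β (fld ω a)) N D (z + D) b l D := by
    rw [← R_rho (fun i x => wt_pos _ _ _ _) g hsym]
    apply R_congr
    intro i x _ hi
    unfold wt rho
    simp only [if_pos hi]
    rfl
  rw [e]
  constructor <;> intro h <;> linarith

lemma log_W {K : ℕ → ℤ → ℝ} (hK : ∀ i x, 0 < K i x) {N : ℕ} {x0 z m : ℤ}
    (h1 : |m - x0| ≤ (N : ℤ)) (h2 : |z - m| ≤ (N : ℤ)) (p1 : (m - x0 - N) % 2 = 0)
    (p2 : (z - m - N) % 2 = 0) :
    Real.log (W K N x0 z m) = Real.log (Z K x0 N m) + Real.log (Z (sh N K) m N z) := by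
  unfold W
  exact Real.log_mul (Z_pos hK _ _ _ h1 p1).ne'
    (Z_pos (K := sh N K) (fun _ _ => hK _ _) _ _ _ h2 p2).ne'

lemma integrable_logW (h : IsEnv P ω) (hexp : HasExp P ω) (β : ℝ) {N : ℕ} {x0 z m : ℤ}
    (h1 : |m - x0| ≤ (N : ℤ)) (h2 : |z - m| ≤ (N : ℤ)) (p1 : (m - x0 - N) % 2 = 0)
    (p2 : (z - m - N) % 2 = 0) :
    Integrable (fun a => Real.log (W (wt β (fld ω a)) N x0 z m)) P := by
  have i1 := integrable_logZ h hexp β 0 h1 p1
  have i2 := integrable_logZ h hexp β N h2 p2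
  simp_rw [sh_zero] at i1
  have := i1.add i2
  refine this.congr (Filter.Eventually.of_forall (fun a => ?_))
  simp only [Pi.add_apply]
  rw [log_W (fun i x => wt_pos _ _ _ _) h1 h2 p1 p2]

lemma integral_logW (h : IsEnv P ω) (hexp : HasExp P ω) (β : ℝ) {N : ℕ} {x0 z m : ℤ}
    (h1 : |m - x0| ≤ (N : ℤ)) (h2 : |z - m| ≤ (N : ℤ)) (p1 : (m - x0 - N) % 2 = 0)
    (p2 : (z - m - N) % 2 = 0) :
    ∫ a, Real.log (W (wt β (fld ω a)) N x0 z m) ∂P = am P ω β N (m - x0) + am P ω β N (z - m) := by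
  have i1 := integrable_logZ h hexp β 0 h1 p1
  have i2 := integrable_logZ h hexp β N h2 p2
  have e1 := mean_shift h β 0 x0 N m
  have e2 := mean_shift h β N m N z
  rw [← e1, ← e2, ← integral_add i1 i2]
  congr 1
  ext a
  rw [log_W (fun i x => wt_pos _ _ _ _) h1 h2 p1 p2, sh_zero]

lemma integrable_G (h : IsEnv P ω) (hexp : HasExp P ω) (β : ℝ) {N : ℕ} {z b l D : ℤ}
    (g : Geo N z b l D) : Integrable (fun a => G (wt β (fld ω a)) N z b l D) P := by
  obtain ⟨hz, hD, hD0, hl, hl0, hb, b1, b2, b3, b4⟩ := g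
  unfold G
  refine (Integrable.sub (integrable_logW h hexp β ?_ ?_ ?_ ?_)
    (integrable_logW h hexp β ?_ ?_ ?_ ?_)).sub (Integrable.sub
    (integrable_logW h hexp β ?_ ?_ ?_ ?_) (integrable_logW h hexp β ?_ ?_ ?_ ?_)) <;>
    first | (rw [abs_le]; omega) | omega

lemma integral_G (h : IsEnv P ω) (hexp : HasExp P ω) (β : ℝ) {N : ℕ} {z b l D : ℤ}
    (g : Geo N z b l D) (hsym : 2 * b + l = z) :
    ∫ a, G (wt β (fld ω a)) N z b l D ∂P =
      2 * ((am P ω β N b - am P ω β N (b - D)) -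
        (am P ω β N (b + D + l) - am P ω β N (b + D + l - D))) := by
  obtain ⟨hz, hD, hD0, hl, hl0, hb, b1, b2, b3, b4⟩ := g
  have i1 := integrable_logW h hexp β (N := N) (x0 := D) (z := z + D) (m := b + D + l)
    (by rw [abs_le]; omega) (by rw [abs_le]; omega) (by omega) (by omega)
  have i2 := integrable_logW h hexp β (N := N) (x0 := 0) (z := z) (m := b + D + l)
    (by rw [abs_le]; omega) (by rw [abs_le]; omega) (by omega) (by omega)
  have i3 := integrable_logW h hexp β (N := N) (x0 := D) (z := z + D) (m := b)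
    (by rw [abs_le]; omega) (by rw [abs_le]; omega) (by omega) (by omega)
  have i4 := integrable_logW h hexp β (N := N) (x0 := 0) (z := z) (m := b)
    (by rw [abs_le]; omega) (by rw [abs_le]; omega) (by omega) (by omega)
  have e1 := integral_logW h hexp β (N := N) (x0 := D) (z := z + D) (m := b + D + l)
    (by rw [abs_le]; omega) (by rw [abs_le]; omega) (by omega) (by omega)
  have e2 := integral_logW h hexp β (N := N) (x0 := 0) (z := z) (m := b + D + l)
    (by rw [abs_le]; omega) (by rw [abs_le]; omega) (by omega) (by omega)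
  have e3 := integral_logW h hexp β (N := N) (x0 := D) (z := z + D) (m := b)
    (by rw [abs_le]; omega) (by rw [abs_le]; omega) (by omega) (by omega)
  have e4 := integral_logW h hexp β (N := N) (x0 := 0) (z := z) (m := b)
    (by rw [abs_le]; omega) (by rw [abs_le]; omega) (by omega) (by omega)
  unfold G
  have s1 := integral_sub (i1.sub i2) (i3.sub i4)
  have s2 := integral_sub i1 i2
  have s3 := integral_sub i3 i4
  simp only [Pi.sub_apply] at s1 s2 s3
  rw [s1, s2, s3, e1, e2, e3, e4]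
  have c1 : z + D - (b + D + l) = b := by omega
  have c2 : z - (b + D + l) = b - D := by omega
  have c3 : z + D - b = b + D + l := by omega
  have c4 : z - b = b + D + l - D := by omega
  rw [c1, c2, c3, c4, sub_zero, sub_zero]
  ring

/-- the median of the log ratio is not very negative -/
lemma prob_R_le (h : IsEnv P ω) (hexp : HasExp P ω) (β : ℝ) {N : ℕ} {z b l D : ℤ}
    (g : Geo N z b l D) (hsym : 2 * b + l = z) {t : ℝ} (ht : 0 < t) :
    P.real {a | R (wt β (fld ω a)) N 0 z b l D < -t} ≤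
      1 / 2 + (∫ a, G (wt β (fld ω a)) N z b l D ∂P) / (4 * t) := by
  have hs := prob_R_symm h β g hsym t
  set A := {a | R (wt β (fld ω a)) N 0 z b l D < -t} with hA
  set B := {a | t < R (wt β (fld ω a)) N D (z + D) b l D} with hB
  have mA : MeasurableSet A :=
    measurableSet_lt (measurable_R (fun i x => measurable_wt' h β i x) _ _ _ _ _ _)
      measurable_const
  have mB : MeasurableSet B :=
    measurableSet_lt measurable_const (measurable_R (fun i x => measurable_wt' h β i x) _ _ _ _ _ _)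
  have hAB : A ∩ B ⊆ {a | 2 * t ≤ G (wt β (fld ω a)) N z b l D} := by
    rintro a ⟨h1, h2⟩
    simp only [hA, hB, Set.mem_ofPred_eq] at h1 h2 ⊢
    have := R_le (K := wt β (fld ω a)) (fun i x => wt_pos _ _ _ _) g
    linarith
  have hM := mul_meas_ge_le_integral_of_nonneg (μ := P)
    (f := fun a => G (wt β (fld ω a)) N z b l D)
    (Filter.Eventually.of_forall (fun a => G_nonneg (fun i x => wt_pos _ _ _ _) g))
    (integrable_G h hexp β g) (2 * t)
  have hU := measureReal_union_add_inter (μ := P) (s := A) mB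
  have h1 : P.real (A ∪ B) ≤ 1 := measureReal_le_one
  have h2 : P.real (A ∩ B) ≤ P.real {a | 2 * t ≤ G (wt β (fld ω a)) N z b l D} :=
    measureReal_mono hAB
  have h3 : P.real {a | 2 * t ≤ G (wt β (fld ω a)) N z b l D} ≤
      (∫ a, G (wt β (fld ω a)) N z b l D ∂P) / (2 * t) := by
    rw [le_div_iff₀ (by positivity)]
    linarith
  have h4 : (∫ a, G (wt β (fld ω a)) N z b l D ∂P) / (4 * t) =
      (∫ a, G (wt β (fld ω a)) N z b l D ∂P) / (2 * t) / 2 := by
    field_simp
    ring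
  rw [h4]
  linarith

/-- increments of the mean free energy, in terms of the number of up steps -/
noncomputable def da (P : Measure Ω) (ω : ℕ → ℤ → Ω → ℝ) (β : ℝ) (N : ℕ) (j : ℤ) : ℝ :=
  am P ω β N (2 * j - N) - am P ω β N (2 * (j - 1) - N)

lemma da_anti (h : IsEnv P ω) (hexp : HasExp P ω) (β : ℝ) {N : ℕ} {j j' : ℤ} (h1 : 1 ≤ j)
    (h2 : j ≤ j') (h3 : j' ≤ N) : da P ω β N j' ≤ da P ω β N j := by
  have ii : ∀ (x0 m : ℤ), |m - x0| ≤ (N : ℤ) → (m - x0 - N) % 2 = 0 →
      Integrable (fun a => Real.log (Z (wt β (fld ω a)) x0 N m)) P ∧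
      ∫ a, Real.log (Z (wt β (fld ω a)) x0 N m) ∂P = am P ω β N (m - x0) := by
    intro x0 m k1 k2
    have i1 := integrable_logZ h hexp β 0 k1 k2
    have e1 := mean_shift h β 0 x0 N m
    simp_rw [sh_zero] at i1 e1
    exact ⟨i1, e1⟩
  set x := 2 * j - (N : ℤ) with hx
  set x' := 2 * j' - (N : ℤ) with hx'
  obtain ⟨i1, e1⟩ := ii 2 x (by rw [abs_le]; omega) (by omega)
  obtain ⟨i2, e2⟩ := ii 0 x' (by rw [abs_le]; omega) (by omega)
  obtain ⟨i3, e3⟩ := ii 2 x' (by rw [abs_le]; omega) (by omega)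
  obtain ⟨i4, e4⟩ := ii 0 x (by rw [abs_le]; omega) (by omega)
  have hmono : ∫ a, (Real.log (Z (wt β (fld ω a)) 2 N x) + Real.log (Z (wt β (fld ω a)) 0 N x'))
      ∂P ≤ ∫ a, (Real.log (Z (wt β (fld ω a)) 2 N x') + Real.log (Z (wt β (fld ω a)) 0 N x))
      ∂P := by
    apply integral_mono (i1.add i2) (i3.add i4)
    intro a
    have hK : ∀ i x, 0 < wt β (fld ω a) i x := fun i x => wt_pos _ _ _ _
    have hL := LR_end (fun i x => (hK i x).le) (fun i x => (hK i x).le) (fun i => LR.refl _) 0 1 N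
      x (j' - j).toNat
    have ex : x + 2 * ((j' - j).toNat : ℤ) = x' := by
      rw [Int.toNat_of_nonneg (by omega)]; omega
    rw [ex] at hL
    simp only [Nat.cast_one, mul_one, zero_add] at hL
    have p1 := Z_pos hK 2 N x (by rw [abs_le]; omega) (by omega)
    have p2 := Z_pos hK 0 N x' (by rw [abs_le]; omega) (by omega)
    have p3 := Z_pos hK 2 N x' (by rw [abs_le]; omega) (by omega)
    have p4 := Z_pos hK 0 N x (by rw [abs_le]; omega) (by omega)
    have := Real.log_le_log (by positivity) hL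
    rw [Real.log_mul p1.ne' p2.ne', Real.log_mul p3.ne' p4.ne'] at this
    exact this
  have s1 := integral_add i1 i2
  have s2 := integral_add i3 i4
  rw [s1, s2, e1, e2, e3, e4] at hmono
  unfold da
  have c1 : 2 * (j - 1) - (N : ℤ) = x - 2 := by omega
  have c2 : 2 * (j' - 1) - (N : ℤ) = x' - 2 := by omega
  rw [c1, c2, ← hx, ← hx']
  simp only [sub_zero] at hmono
  linarith

/-- sums of increments -/
lemma sum_da (P : Measure Ω) (ω : ℕ → ℤ → Ω → ℝ) (β : ℝ) (N : ℕ) (j : ℤ) (k : ℕ) :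
    am P ω β N (2 * (j + k) - N) - am P ω β N (2 * j - N) =
      ∑ i ∈ Finset.range k, da P ω β N (j + i + 1) := by
  induction k with
  | zero => simp
  | succ k ih =>
    rw [Finset.sum_range_succ, ← ih]
    unfold da
    have e1 : 2 * (j + k + 1) - (N : ℤ) = 2 * (j + ((k + 1 : ℕ) : ℤ)) - N := by push_cast; ring
    have e2 : 2 * (j + k + 1 - 1) - (N : ℤ) = 2 * (j + k) - N := by ring
    rw [e1, e2]
    ring

/-- upper bound of the mean discrepancy by increments -/
lemma integral_G_le (h : IsEnv P ω) (hexp : HasExp P ω) (β : ℝ) {N : ℕ} {z b l D : ℤ}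
    (g : Geo N z b l D) (hsym : 2 * b + l = z) {u v : ℤ} (hu1 : 1 ≤ u)
    (hu : 2 * u ≤ b - D + N + 2) (hv : b + D + l + N ≤ 2 * v) (hvN : v ≤ N) :
    ∫ a, G (wt β (fld ω a)) N z b l D ∂P ≤ D * (da P ω β N u - da P ω β N v) := by
  rw [integral_G h hexp β g hsym]
  obtain ⟨hz, hD, hD0, hl, hl0, hb, b1, b2, b3, b4⟩ := g
  obtain ⟨k, hk⟩ : ∃ k : ℕ, D = 2 * k := ⟨(D / 2).toNat, by
    rw [Int.toNat_of_nonneg (by omega)]; omega⟩
  obtain ⟨jb, hjb⟩ : ∃ j : ℤ, b = 2 * j - N := ⟨(b + N) / 2, by omega⟩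
  obtain ⟨jt, hjt⟩ : ∃ j : ℤ, b + D + l = 2 * j - N := ⟨(b + D + l + N) / 2, by omega⟩
  have s1 := sum_da P ω β N (jb - k) k
  have s2 := sum_da P ω β N (jt - k) k
  have c1 : 2 * (jb - k + k) - (N : ℤ) = b := by omega
  have c2 : 2 * (jb - k) - (N : ℤ) = b - D := by omega
  have c3 : 2 * (jt - k + k) - (N : ℤ) = b + D + l := by omega
  have c4 : 2 * (jt - k) - (N : ℤ) = b + D + l - D := by omega
  rw [c1, c2] at s1
  rw [c3, c4] at s2
  rw [s1, s2]
  have u1 : ∑ i ∈ Finset.range k, da P ω β N (jb - k + i + 1) ≤ k * da P ω β N u := by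
    rw [show (k : ℝ) * da P ω β N u = ∑ i ∈ Finset.range k, da P ω β N u by
      rw [Finset.sum_const, Finset.card_range, nsmul_eq_mul]]
    apply Finset.sum_le_sum
    intro i hi
    rw [Finset.mem_range] at hi
    exact da_anti h hexp β hu1 (by omega) (by omega)
  have u2 : k * da P ω β N v ≤ ∑ i ∈ Finset.range k, da P ω β N (jt - k + i + 1) := by
    rw [show (k : ℝ) * da P ω β N v = ∑ i ∈ Finset.range k, da P ω β N v by
      rw [Finset.sum_const, Finset.card_range, nsmul_eq_mul]]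
    apply Finset.sum_le_sum
    intro i hi
    rw [Finset.mem_range] at hi
    exact da_anti h hexp β (by omega) (by omega) hvN
  have : (D : ℝ) = 2 * k := by rw [hk]; push_cast; ring
  rw [this]
  linarith

/-- bounds of the increments in the bulk -/
lemma da_bounds (h : IsEnv P ω) (hexp : HasExp P ω) (β : ℝ) {C : ℝ}
    (hC : ∀ (n : ℕ) (x : ℤ), |x| ≤ (n : ℤ) → (x - n) % 2 = 0 → |am P ω β n x| ≤ C * n)
    {N : ℕ} {j : ℤ} (h1 : 1 ≤ j) (h2 : j ≤ N) :
    da P ω β N j * j ≤ 2 * C * N ∧ -(2 * C * N) ≤ da P ω β N j * (N - j + 1) := by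
  constructor
  · have s := sum_da P ω β N 0 j.toNat
    have e : (j.toNat : ℤ) = j := Int.toNat_of_nonneg (by omega)
    have hlow : (j.toNat : ℝ) * da P ω β N j ≤
        ∑ i ∈ Finset.range j.toNat, da P ω β N (0 + i + 1) := by
      rw [show (j.toNat : ℝ) * da P ω β N j = ∑ i ∈ Finset.range j.toNat, da P ω β N j by
        rw [Finset.sum_const, Finset.card_range, nsmul_eq_mul]]
      apply Finset.sum_le_sum
      intro i hi
      rw [Finset.mem_range] at hi
      exact da_anti h hexp β (by omega) (by omega) h2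
    rw [← s, e] at hlow
    have b1 := hC N (2 * (0 + j) - N) (by rw [abs_le]; omega) (by omega)
    have b2 := hC N (2 * 0 - N) (by rw [abs_le]; omega) (by omega)
    rw [abs_le] at b1 b2
    have ecast : (j.toNat : ℝ) = (j : ℝ) := by exact_mod_cast e
    rw [ecast] at hlow
    nlinarith
  · have s := sum_da P ω β N (j - 1) (N - j + 1).toNat
    have e : ((N - j + 1).toNat : ℤ) = N - j + 1 := Int.toNat_of_nonneg (by omega)
    have hup : ∑ i ∈ Finset.range (N - j + 1).toNat, da P ω β N (j - 1 + i + 1) ≤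
        ((N - j + 1).toNat : ℝ) * da P ω β N j := by
      rw [show ((N - j + 1).toNat : ℝ) * da P ω β N j =
          ∑ i ∈ Finset.range (N - j + 1).toNat, da P ω β N j by
        rw [Finset.sum_const, Finset.card_range, nsmul_eq_mul]]
      apply Finset.sum_le_sum
      intro i hi
      rw [Finset.mem_range] at hi
      exact da_anti h hexp β h1 (by omega) (by omega)
    rw [← s, e] at hup
    have b1 := hC N (2 * (j - 1 + (N - j + 1)) - N) (by rw [abs_le]; omega) (by omega)
    have b2 := hC N (2 * (j - 1) - N) (by rw [abs_le]; omega) (by omega)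
    rw [abs_le] at b1 b2
    have ecast : ((N - j + 1).toNat : ℝ) = (N : ℝ) - (j : ℝ) + 1 := by
      have : (((N - j + 1).toNat : ℤ) : ℝ) = ((N - j + 1 : ℤ) : ℝ) := by rw [e]
      push_cast at this
      exact this
    rw [ecast] at hup
    nlinarith

end Pool.Agent.K1H53.SD
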