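import Pool.Agent.K1H53.SD.Barrier

/-!
Path sums.
-/

namespace Pool.Agent.K1H53.SD

/-- Position after `i` steps of the walk on `ℤ` with the steps `w` (`true` is `+1`, `false` is
`-1`). -/
def pos {n : ℕ} (w : Fin n → Bool) (i : ℕ) : ℤ :=
  ∑ k : Fin n, if k.val < i then (if w k then 1 else -1) else 0

lemma pos_snoc_le {n : ℕ} (w : Fin n → Bool) (b : Bool) {i : ℕ} (hi : i ≤ n) :
    pos (Fin.snoc w b : Fin (n + 1) → Bool) i = pos w i := by
  unfold pos
  rw [Fin.sum_univ_castSucc]
  simp only [Fin.snoc_castSucc, Fin.snoc_last, Fin.val_castSucc, Fin.val_last]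
  rw [if_neg (by omega), add_zero]

lemma pos_snoc_last {n : ℕ} (w : Fin n → Bool) (b : Bool) :
    pos (Fin.snoc w b : Fin (n + 1) → Bool) (n + 1) = pos w n + (if b then 1 else -1) := by
  unfold pos
  rw [Fin.sum_univ_castSucc]
  simp only [Fin.snoc_castSucc, Fin.snoc_last, Fin.val_castSucc, Fin.val_last]
  rw [if_pos (by omega)]
  congr 1
  apply Finset.sum_congr rfl
  intro k _
  rw [if_pos (by have := k.isLt; omega), if_pos k.isLt]

/-- weight of a path started at `x0` -/
noncomputable def pw {n : ℕ} (K : ℕ → ℤ → ℝ) (x0 : ℤ) (w : Fin n → Bool) : ℝ :=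
  ∏ i : Fin n, K (i.val + 1) (x0 + pos w (i.val + 1))

lemma pw_snoc {n : ℕ} (K : ℕ → ℤ → ℝ) (x0 : ℤ) (w : Fin n → Bool) (b : Bool) :
    pw K x0 (Fin.snoc w b : Fin (n + 1) → Bool) =
      pw K x0 w * K (n + 1) (x0 + (pos w n + (if b then 1 else -1))) := by
  unfold pw
  rw [Fin.prod_univ_castSucc]
  simp only [Fin.val_castSucc, Fin.val_last]
  rw [pos_snoc_last]
  congr 1
  apply Finset.prod_congr rfl
  intro k _
  rw [pos_snoc_le _ _ (by have := k.isLt; omega)]

lemma Z_eq_sum (K : ℕ → ℤ → ℝ) (x0 : ℤ) (n : ℕ) : ∀ z,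
    Z K x0 n z = ∑ w : Fin n → Bool, if x0 + pos w n = z then pw K x0 w else 0 := by
  induction n with
  | zero =>
    intro z
    rw [Z_zero]
    simp only [Finset.univ_unique, Finset.sum_singleton]
    simp only [pos, pw, Finset.univ_eq_empty, Finset.sum_empty, Finset.prod_empty, add_zero,
      eq_comm]
  | succ n ih =>
    intro z
    rw [Z_succ, ih, ih, ← Equiv.sum_comp (Fin.snocEquiv (fun _ => Bool)), Fintype.sum_prod_type]
    simp only [Fintype.univ_bool, Finset.sum_insert, Finset.mem_singleton,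
      Finset.sum_singleton, reduceCtorEq, not_false_eq_true]
    have e : ∀ (b : Bool) (w : Fin n → Bool),
        Fin.snocEquiv (fun _ => Bool) (b, w) = (Fin.snoc w b : Fin (n + 1) → Bool) :=
      fun b w => rfl
    simp only [e]
    rw [mul_add, Finset.mul_sum, Finset.mul_sum]
    congr 1
    · apply Finset.sum_congr rfl
      intro w _
      rw [pos_snoc_last, pw_snoc]
      simp only [if_true]
      by_cases h : x0 + pos w n = z - 1
      · rw [if_pos h, if_pos (by omega), show x0 + (pos w n + 1) = z by omega, mul_comm]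
      · rw [if_neg h, if_neg (by omega), mul_zero]
    · apply Finset.sum_congr rfl
      intro w _
      rw [pos_snoc_last, pw_snoc]
      simp only [Bool.false_eq_true, if_false]
      by_cases h : x0 + pos w n = z + 1
      · rw [if_pos h, if_pos (by omega), show x0 + (pos w n + -1) = z by omega, mul_comm]
      · rw [if_neg h, if_neg (by omega), mul_zero]

/-- restriction of the weights to a set of paths -/
lemma Z_indicator (S : ℕ → ℤ → Prop) [∀ i x, Decidable (S i x)] (K : ℕ → ℤ → ℝ) (x0 : ℤ)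
    (n : ℕ) (z : ℤ) :
    Z (mulK (fun i x => if S i x then 1 else 0) K) x0 n z =
      ∑ w : Fin n → Bool, if x0 + pos w n = z ∧ ∀ i, 1 ≤ i → i ≤ n → S i (x0 + pos w i)
        then pw K x0 w else 0 := by
  rw [Z_eq_sum]
  apply Finset.sum_congr rfl
  intro w _
  by_cases h1 : x0 + pos w n = z
  · rw [if_pos h1]
    by_cases h2 : ∀ i, 1 ≤ i → i ≤ n → S i (x0 + pos w i)
    · rw [if_pos ⟨h1, h2⟩]
      unfold pw mulK
      apply Finset.prod_congr rfl
      intro i _
      simp only
      rw [if_pos (h2 (i.val + 1) (by omega) (by have := i.isLt; omega)), one_mul]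
    · rw [if_neg (fun h => h2 h.2)]
      push Not at h2
      obtain ⟨i, hi1, hi2, hS⟩ := h2
      unfold pw mulK
      apply Finset.prod_eq_zero (Finset.mem_univ (⟨i - 1, by omega⟩ : Fin n))
      simp only
      rw [show i - 1 + 1 = i by omega, if_neg hS, zero_mul]
  · rw [if_neg h1, if_neg (fun h => h1 h.1)]

end Pool.Agent.K1H53.SD
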