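import Pool.Agent.K1H53.SD.Core
import Pool.Agent.K1H53.SD.Avg

/-!
Geometry at a fixed scale and direction.
-/

open MeasureTheory ProbabilityTheory

set_option linter.unusedSectionVars false

namespace Pool.Agent.K1H53.SD

/-- endpoint at time `n` in the direction `v` -/
noncomputable def endp (n : ℕ) (v : ℝ) : ℤ := 2 * ⌊(n : ℝ) * (1 + v) / 2⌋ - n

lemma endp_bounds (n : ℕ) (v : ℝ) : (endp n v : ℝ) ≤ n * v ∧ (n : ℝ) * v < endp n v + 2 := by
  unfold endp
  have h1 := Int.floor_le ((n : ℝ) * (1 + v) / 2)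
  have h2 := Int.lt_floor_add_one ((n : ℝ) * (1 + v) / 2)
  push_cast
  constructor <;> linarith

lemma endp_two (N : ℕ) (v : ℝ) : endp (2 * N) v = 2 * ⌊(N : ℝ) * v⌋ := by
  unfold endp
  have : ((2 * N : ℕ) : ℝ) * (1 + v) / 2 = (N : ℝ) * v + (N : ℕ) := by push_cast; ring
  rw [this, Int.floor_add_natCast]
  push_cast
  ring

lemma geo_of {N r : ℕ} (hN : 1 ≤ N) (hr : 3 ≤ r) {v : ℝ} (hb1 : (r : ℝ) * 16 ≤ N * (1 + v))
    (hb2 : (r : ℝ) * 16 ≤ N * (1 - v)) :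
    ∃ b l D : ℤ, Geo2 N ⌊(N : ℝ) * v⌋ b l D (endp N (v + 10 * r / N)) (endp N (v + -(10 * r / N))) r ∧
      D ≤ 13 * r ∧ 1 ≤ ⌊(N : ℝ) * (1 + v) / 2⌋ - 7 * r ∧
      2 * (⌊(N : ℝ) * (1 + v) / 2⌋ - 7 * r) ≤ b - D + N + 2 ∧
      b + D + l + N ≤ 2 * (⌊(N : ℝ) * (1 + v) / 2⌋ + 7 * r) ∧
      ⌊(N : ℝ) * (1 + v) / 2⌋ + 7 * r ≤ N := by
  have hNR : (0 : ℝ) < N := by exact_mod_cast hN
  set y := ⌊(N : ℝ) * v⌋ with hy
  set k := ⌊(N : ℝ) * (1 + v) / 2⌋ with hk
  have y1 : (y : ℝ) ≤ N * v := Int.floor_le _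
  have y2 : (N : ℝ) * v < y + 1 := Int.lt_floor_add_one _
  have k1 : (k : ℝ) ≤ N * (1 + v) / 2 := Int.floor_le _
  have k2 : (N : ℝ) * (1 + v) / 2 < k + 1 := Int.lt_floor_add_one _
  have p1 := endp_bounds N (v + 10 * r / N)
  have p2 := endp_bounds N (v + -(10 * r / N))
  have c1 : (N : ℝ) * (v + 10 * r / N) = N * v + 10 * r := by field_simp
  have c2 : (N : ℝ) * (v + -(10 * r / N)) = N * v - 10 * r := by field_simp; ring
  rw [c1] at p1
  rw [c2] at p2
  have pp : (endp N (v + 10 * r / N) - N) % 2 = 0 := by unfold endp; omega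
  have pm : (endp N (v + -(10 * r / N)) - N) % 2 = 0 := by unfold endp; omega
  set ep := endp N (v + 10 * r / N) with hep
  set em := endp N (v + -(10 * r / N)) with hem
  -- integer facts
  have i1 : ep ≤ y + 10 * r := by
    have : (ep : ℝ) < ((y + 10 * r + 1 : ℤ) : ℝ) := by push_cast; linarith [p1.1]
    have := Int.cast_lt.1 this
    omega
  have i2 : y + 10 * r - 1 ≤ ep := by
    have : ((y + 10 * r - 2 : ℤ) : ℝ) < ep := by push_cast; linarith [p1.2]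
    have := Int.cast_lt.1 this
    omega
  have i3 : em ≤ y - 10 * r := by
    have : (em : ℝ) < ((y - 10 * r + 1 : ℤ) : ℝ) := by push_cast; linarith [p2.1]
    have := Int.cast_lt.1 this
    omega
  have i4 : y - 10 * r - 1 ≤ em := by
    have : ((y - 10 * r - 2 : ℤ) : ℝ) < em := by push_cast; linarith [p2.2]
    have := Int.cast_lt.1 this
    omega
  have i5 : 2 * k ≤ N + y := by
    have : ((2 * k : ℤ) : ℝ) < ((N + y + 1 : ℤ) : ℝ) := by push_cast; linarith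
    have := Int.cast_lt.1 this
    omega
  have i6 : N + y - 1 ≤ 2 * k := by
    have : ((N + y - 2 : ℤ) : ℝ) < ((2 * k : ℤ) : ℝ) := by push_cast; linarith
    have := Int.cast_lt.1 this
    omega
  have i7 : 16 * (r : ℤ) - N - 1 < y := by
    have : ((16 * (r : ℤ) - N - 1 : ℤ) : ℝ) < y := by push_cast; linarith
    exact Int.cast_lt.1 this
  have i8 : y ≤ N - 16 * (r : ℤ) := by
    have : (y : ℝ) ≤ ((N - 16 * (r : ℤ) : ℤ) : ℝ) := by push_cast; linarith
    exact Int.cast_le.1 this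
  have hr3 : (3 : ℤ) ≤ r := by exact_mod_cast hr
  obtain ⟨e, he0, he1, hepar⟩ : ∃ e : ℤ, 0 ≤ e ∧ e ≤ 1 ∧ (y - r - e - N) % 2 = 0 :=
    ⟨(y - r - N) % 2, by omega, by omega, by omega⟩
  obtain ⟨b1, hb1a, hb1b, hb1c, hb1d, hb1e⟩ : ∃ b1 : ℤ, ep ≤ b1 ∧ 2 * y - em ≤ b1 ∧
      b1 ≤ y + 10 * r + 1 ∧ y + 10 * r ≤ b1 ∧ (b1 - N) % 2 = 0 := by
    rcases le_total ep (2 * y - em) with hle | hle
    · exact ⟨2 * y - em, hle, le_rfl, by omega, by omega, by omega⟩
    · exact ⟨ep, le_rfl, hle, by omega, by omega, pp⟩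
  refine ⟨y - r - e, 2 * (r + e), b1 - (y - r - e), ?_, by omega, by omega, by omega, by omega,
    by omega⟩
  refine { hz := by omega, hD := by omega, hD0 := by omega, hl := by omega, hl0 := by omega,
           hb := by omega, b1 := by omega, b2 := by omega, b3 := by omega, b4 := by omega,
           hN := hN, hsym := by omega, hr := by omega, hlD := by omega, e1 := by omega,
           e2 := by omega, pp := pp, pm := pm, ap := by rw [abs_le]; omega,
           am := by rw [abs_le]; omega, sp := by omega, sm := by omega }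

variable {Ω : Type*} [MeasurableSpace Ω] {P : Measure Ω} [IsProbabilityMeasure P]
variable {ω : ℕ → ℤ → Ω → ℝ}

/-- increments of the mean free energy as a function of the direction -/
noncomputable def Hf (P : Measure Ω) (ω : ℕ → ℤ → Ω → ℝ) (β : ℝ) (N : ℕ) (v : ℝ) : ℝ :=
  da P ω β N (max 1 (min N ⌊(N : ℝ) * (1 + v) / 2⌋))

lemma Hf_anti (h : IsEnv P ω) (hexp : HasExp P ω) (β : ℝ) {N : ℕ} (hN : 1 ≤ N) :
    Antitone (Hf P ω β N) := by
  intro v w hvw
  have hf : ⌊(N : ℝ) * (1 + v) / 2⌋ ≤ ⌊(N : ℝ) * (1 + w) / 2⌋ := by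
    apply Int.floor_le_floor
    have : (0 : ℝ) ≤ N := Nat.cast_nonneg N
    nlinarith
  exact da_anti h hexp β (le_max_left _ _) (max_le_max_left _ (min_le_min_left _ hf))
    (max_le (by exact_mod_cast hN) (min_le_left _ _))

lemma Hf_eq (P : Measure Ω) (ω : ℕ → ℤ → Ω → ℝ) (β : ℝ) {N : ℕ} {v : ℝ} {j : ℤ}
    (hj : ⌊(N : ℝ) * (1 + v) / 2⌋ = j) (h1 : 1 ≤ j) (h2 : j ≤ N) :
    Hf P ω β N v = da P ω β N j := by
  unfold Hf
  rw [hj, min_eq_right h2, max_eq_right h1]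

lemma Hf_low (h : IsEnv P ω) (hexp : HasExp P ω) (β : ℝ) {C : ℝ} (hC0 : 0 < C)
    (hC : ∀ (n : ℕ) (x : ℤ), |x| ≤ (n : ℤ) → (x - n) % 2 = 0 → |am P ω β n x| ≤ C * n)
    {N : ℕ} {ε : ℝ} (hε : 0 < ε) (hε1 : ε < 1) (hNε : 4 ≤ N * ε) :
    Hf P ω β N (-1 + ε / 2) ≤ 16 * C / ε := by
  have hN : (0 : ℝ) < N := by
    by_contra hcon
    push Not at hcon
    have : (N : ℝ) = 0 := le_antisymm hcon (Nat.cast_nonneg N)
    rw [this] at hNε
    linarith
  have hN1 : 1 ≤ N := by exact_mod_cast hN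
  set j := ⌊(N : ℝ) * (1 + (-1 + ε / 2)) / 2⌋ with hj
  have e : (N : ℝ) * (1 + (-1 + ε / 2)) / 2 = N * ε / 4 := by ring
  rw [e] at hj
  have j1 : (j : ℝ) ≤ N * ε / 4 := by rw [hj]; exact Int.floor_le _
  have j2 : N * ε / 4 < j + 1 := by rw [hj]; exact Int.lt_floor_add_one _
  have j3 : 1 ≤ j := by
    rw [hj, Int.le_floor]; push_cast; linarith
  have j4 : j ≤ N := by
    have : (j : ℝ) ≤ ((N : ℤ) : ℝ) := by push_cast; nlinarith
    exact Int.cast_le.1 this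
  rw [Hf_eq P ω β (j := j) (by rw [e, hj]) j3 j4]
  have hb := (da_bounds h hexp β hC j3 j4).1
  have j3' : (1 : ℝ) ≤ j := by exact_mod_cast j3
  by_cases hd : da P ω β N j ≤ 0
  · refine hd.trans (by positivity)
  · push Not at hd
    rw [le_div_iff₀ hε]
    have h8 : N * ε / 8 ≤ j := by linarith
    have : da P ω β N j * (N * ε / 8) ≤ 2 * C * N :=
      (mul_le_mul_of_nonneg_left h8 hd.le).trans hb
    have h9 : (da P ω β N j * ε) * N ≤ (16 * C) * N := by linarith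
    exact le_of_mul_le_mul_right h9 hN

lemma Hf_high (h : IsEnv P ω) (hexp : HasExp P ω) (β : ℝ) {C : ℝ} (hC0 : 0 < C)
    (hC : ∀ (n : ℕ) (x : ℤ), |x| ≤ (n : ℤ) → (x - n) % 2 = 0 → |am P ω β n x| ≤ C * n)
    {N : ℕ} {ε : ℝ} (hε : 0 < ε) (hε1 : ε < 1) (hNε : 4 ≤ N * ε) :
    -(16 * C / ε) ≤ Hf P ω β N (1 - ε / 2) := by
  have hN : (0 : ℝ) < N := by
    by_contra hcon
    push Not at hcon
    have : (N : ℝ) = 0 := le_antisymm hcon (Nat.cast_nonneg N)
    rw [this] at hNε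
    linarith
  have hN1 : 1 ≤ N := by exact_mod_cast hN
  set j := ⌊(N : ℝ) * (1 + (1 - ε / 2)) / 2⌋ with hj
  have e : (N : ℝ) * (1 + (1 - ε / 2)) / 2 = N - N * ε / 4 := by ring
  rw [e] at hj
  have j1 : (j : ℝ) ≤ N - N * ε / 4 := by rw [hj]; exact Int.floor_le _
  have j4 : j ≤ N := by
    have : (j : ℝ) ≤ ((N : ℤ) : ℝ) := by push_cast; nlinarith
    exact Int.cast_le.1 this
  have j3 : 1 ≤ j := by
    rw [hj, Int.le_floor]
    push_cast
    have : N * ε < N := by nlinarith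
    nlinarith
  rw [Hf_eq P ω β (j := j) (by rw [e, hj]) j3 j4]
  have hb := (da_bounds h hexp β hC j3 j4).2
  by_cases hd : 0 ≤ da P ω β N j
  · have : 0 ≤ 16 * C / ε := by positivity
    linarith
  · push Not at hd
    rw [neg_le, le_div_iff₀ hε]
    have h8 : N * ε / 4 ≤ N - j + 1 := by linarith
    have : (-da P ω β N j) * (N * ε / 4) ≤ 2 * C * N := by
      refine (mul_le_mul_of_nonneg_left h8 (by linarith)).trans ?_
      linarith
    have h9 : ((-da P ω β N j) * ε) * N ≤ (16 * C) * N := by nlinarith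
    exact le_of_mul_le_mul_right h9 hN

/-- `qq` is monotone in the radius -/
lemma qq_mono (h : IsEnv P ω) (β : ℝ) (n : ℕ) (e : ℤ) {r r' : ℕ} (hr : r ≤ r') (q : ℝ) :
    qq P ω β n e r q ≤ qq P ω β n e r' q := by
  unfold qq
  refine measureReal_mono ?_ (measure_ne_top _ _)
  · intro a ha
    simp only [Set.mem_ofPred_eq, Conf] at ha ⊢
    refine ha.trans ?_
    apply Z_mono (mulK_nonneg (tub_nonneg _ _ _) (fun i x => (wt_pos _ _ _ _).le))
    intro i x
    unfold mulK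
    apply mul_le_mul_of_nonneg_right _ (wt_pos _ _ _ _).le
    unfold tub
    split_ifs with h1 h2
    · exact le_rfl
    · exfalso
      apply h2
      refine h1.trans ?_
      apply mul_le_mul_of_nonneg_right _ (by positivity)
      exact_mod_cast hr
    · norm_num
    · exact le_rfl

/-- the inequality at a fixed scale and direction -/
lemma scale_ineq (h : IsEnv P ω) (hexp : HasExp P ω) {a₀ b₀ : ℝ} (hab : a₀ < b₀)
    (hp : 0 < (P.map (ω 1 0)).real (Set.Ici b₀)) (hm : 0 < (P.map (ω 1 0)).real (Set.Iic a₀))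
    {β : ℝ} (hβ : 0 < β) {N r : ℕ} (hN : 1 ≤ N) (hr : 3 ≤ r) {v : ℝ}
    (hb1 : (r : ℝ) * 16 ≤ N * (1 + v)) (hb2 : (r : ℝ) * 16 ≤ N * (1 - v)) {t : ℝ} (ht : 0 < t) :
    qq P ω β (2 * N) (endp (2 * N) v) r (7 / 8) + qq P ω β N (endp N (v + 10 * r / N)) r (7 / 8) +
      qq P ω β N (endp N (v + -(10 * r / N))) r (7 / 8) - 5 / 2 -
      (13 * r * (Hf P ω β N (v - 14 * r / N) - Hf P ω β N (v + 14 * r / N))) / (4 * t) ≤
      (t + 3) * Real.sqrt ((2 * r + 1) *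
        (1 / (P.map (ω 1 0)).real (Set.Ici b₀) + 1 / (P.map (ω 1 0)).real (Set.Iic a₀))) /
        (Real.sqrt N * (1 - Real.exp (-(β * (b₀ - a₀))))) := by
  have hNR : (0 : ℝ) < N := by exact_mod_cast hN
  obtain ⟨b, l, D, g, hD, k1, k2, k3, k4⟩ := geo_of hN hr hb1 hb2
  have hc := core h hexp hab hp hm hβ g (q := 7 / 8) (t := t) (by norm_num) (by norm_num) ht
  rw [endp_two]
  set k := ⌊(N : ℝ) * (1 + v) / 2⌋ with hk
  have hG := integral_G_le h hexp β g.toGeo g.hsym k1 k2 k3 k4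
  have f1 : ⌊(N : ℝ) * (1 + (v - 14 * r / N)) / 2⌋ = k - 7 * r := by
    have : (N : ℝ) * (1 + (v - 14 * r / N)) / 2 = N * (1 + v) / 2 - ((7 * r : ℤ) : ℝ) := by
      push_cast; field_simp; ring
    rw [this, Int.floor_sub_intCast]
  have f2 : ⌊(N : ℝ) * (1 + (v + 14 * r / N)) / 2⌋ = k + 7 * r := by
    have : (N : ℝ) * (1 + (v + 14 * r / N)) / 2 = N * (1 + v) / 2 + ((7 * r : ℤ) : ℝ) := by
      push_cast; field_simp; ring
    rw [this, Int.floor_add_intCast]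
  have hr0 : (0 : ℤ) ≤ r := by positivity
  have g1 := Hf_eq P ω β f1 k1 (by omega)
  have g2 := Hf_eq P ω β f2 (by omega) k4
  rw [g1, g2]
  have hd0 : 0 ≤ da P ω β N (k - 7 * r) - da P ω β N (k + 7 * r) :=
    sub_nonneg.2 (da_anti h hexp β k1 (by omega) k4)
  have hDr : (D : ℝ) ≤ 13 * r := by exact_mod_cast hD
  have hG2 : ∫ a, G (wt β (fld ω a)) N (2 * ⌊(N : ℝ) * v⌋) b l D ∂P ≤
      13 * r * (da P ω β N (k - 7 * r) - da P ω β N (k + 7 * r)) :=
    hG.trans (mul_le_mul_of_nonneg_right hDr hd0)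
  have hlog : -2 * Real.log (7 / 8) ≤ 1 := by
    have := Real.one_sub_inv_le_log_of_pos (show (0 : ℝ) < 7 / 8 by norm_num)
    norm_num at this
    linarith
  have hprob : IsProbabilityMeasure (P.map (ω 1 0)) :=
    Measure.isProbabilityMeasure_map (h.meas 1 0).aemeasurable
  have hqpos : 0 < 1 - Real.exp (-(β * (b₀ - a₀))) := by
    have : Real.exp (-(β * (b₀ - a₀))) < 1 := by
      rw [Real.exp_lt_one_iff]
      have := mul_pos hβ (sub_pos.2 hab)
      linarith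
    linarith
  have e1 : (∫ a, G (wt β (fld ω a)) N (2 * ⌊(N : ℝ) * v⌋) b l D ∂P) / (4 * t) ≤
      13 * r * (da P ω β N (k - 7 * r) - da P ω β N (k + 7 * r)) / (4 * t) :=
    div_le_div_of_nonneg_right hG2 (by positivity)
  have e2 : (t - 2 * Real.log (7 / 8) + 2) * Real.sqrt ((2 * r + 1) *
        (1 / (P.map (ω 1 0)).real (Set.Ici b₀) + 1 / (P.map (ω 1 0)).real (Set.Iic a₀))) /
        (Real.sqrt N * (1 - Real.exp (-(β * (b₀ - a₀))))) ≤
        (t + 3) * Real.sqrt ((2 * r + 1) *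
        (1 / (P.map (ω 1 0)).real (Set.Ici b₀) + 1 / (P.map (ω 1 0)).real (Set.Iic a₀))) /
        (Real.sqrt N * (1 - Real.exp (-(β * (b₀ - a₀))))) := by
    apply div_le_div_of_nonneg_right _ (by positivity)
    apply mul_le_mul_of_nonneg_right _ (Real.sqrt_nonneg _)
    linarith
  linarith

end Pool.Agent.K1H53.SD
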