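import Pool.Agent.K1H53.SD.Mean
import Pool.Agent.K1H53.SD.AC

/-!
The partition function of a tube as a function of the environment in a time window.
-/

open MeasureTheory ProbabilityTheory TH967.DP
open Classical

set_option linter.unusedSectionVars false

namespace Pool.Agent.K1H53.SD

/-- the time window -/
def Tm (N : ℕ) : Finset ℕ := (Finset.Icc 1 (2 * N)).filter (fun i => N ≤ 2 * i ∧ 2 * i ≤ 3 * N)

/-- the box of sites -/
noncomputable def Bx (N : ℕ) : Finset (ℕ × ℤ) :=
  Finset.Icc 1 (2 * N) ×ˢ Finset.Icc (-((2 * N : ℕ) : ℤ)) ((2 * N : ℕ) : ℤ)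

/-- the tube -/
def inT (N : ℕ) (y : ℤ) (r : ℕ) (i : ℕ) (x : ℤ) : Prop :=
  |x * ((2 * N : ℕ) : ℤ) - i * (2 * y)| ≤ (r : ℤ) * ((2 * N : ℕ) : ℤ)

/-- the sites of the tube in the window -/
noncomputable def S1 (N : ℕ) (y : ℤ) (r : ℕ) : Finset (ℕ × ℤ) :=
  (Bx N).filter (fun s => s.1 ∈ Tm N ∧ inT N y r s.1 s.2)

/-- the other sites -/
noncomputable def S2 (N : ℕ) (y : ℤ) (r : ℕ) : Finset (ℕ × ℤ) :=
  (Bx N).filter (fun s => ¬ (s.1 ∈ Tm N ∧ inT N y r s.1 s.2))

lemma disj (N : ℕ) (y : ℤ) (r : ℕ) : Disjoint (S1 N y r) (S2 N y r) :=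
  Finset.disjoint_filter_filter_not _ _ _

lemma card_Tm (N : ℕ) : N ≤ (Tm N).card := by
  have hsub : Finset.image (fun k => (N + 1) / 2 + k) (Finset.range N) ⊆ Tm N := by
    intro i hi
    rw [Finset.mem_image] at hi
    obtain ⟨k, hk, rfl⟩ := hi
    rw [Finset.mem_range] at hk
    unfold Tm
    rw [Finset.mem_filter, Finset.mem_Icc]
    omega
  have h1 := Finset.card_le_card hsub
  rwa [Finset.card_image_of_injective _ (fun a b hab => by omega), Finset.card_range] at h1

lemma card_S1 (N : ℕ) (hN : 1 ≤ N) (y : ℤ) (r : ℕ) :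
    (S1 N y r).card ≤ (2 * r + 1) * (Tm N).card := by
  apply Finset.card_le_mul_card_image_of_maps_to (f := Prod.fst)
  · intro s hs
    unfold S1 at hs
    rw [Finset.mem_filter] at hs
    exact hs.2.1
  · intro i _
    have hNz : (0 : ℤ) < N := by exact_mod_cast hN
    set q := (i * y) / (N : ℤ) with hq
    have hsub : ∀ s ∈ (S1 N y r).filter (fun s => s.1 = i), s.2 ∈ Finset.Icc (q - r) (q + r) := by
      intro s hs
      unfold S1 at hs
      rw [Finset.mem_filter, Finset.mem_filter] at hs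
      obtain ⟨⟨_, _, hT⟩, hi⟩ := hs
      unfold inT at hT
      rw [hi] at hT
      push_cast at hT
      have hT2 : |(s.2 * N - i * y) * 2| ≤ (r * N) * 2 := by
        have e1 : (s.2 * N - i * y) * 2 = s.2 * (2 * (N : ℤ)) - i * (2 * y) := by ring
        have e2 : ((r : ℤ) * N) * 2 = r * (2 * N) := by ring
        rw [e1, e2]; exact hT
      rw [abs_mul, abs_of_pos (show (0 : ℤ) < 2 by norm_num)] at hT2
      have hT3 := le_of_mul_le_mul_right hT2 (by norm_num)
      rw [abs_le] at hT3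
      have hd := Int.emod_add_mul_ediv (i * y) N
      have hm0 := Int.emod_nonneg (i * y) hNz.ne'
      have hm1 := Int.emod_lt_of_pos (i * y) hNz
      rw [← hq] at hd
      rw [Finset.mem_Icc]
      constructor
      · by_contra hcon
        push Not at hcon
        have : (s.2 - q + r + 1) * N ≤ 0 := by
          apply mul_nonpos_of_nonpos_of_nonneg _ hNz.le
          omega
        nlinarith
      · by_contra hcon
        push Not at hcon
        have : 0 ≤ (s.2 - q - r - 1) * N := by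
          apply mul_nonneg _ hNz.le
          omega
        nlinarith
    calc ((S1 N y r).filter (fun s => s.1 = i)).card ≤ (Finset.Icc (q - r) (q + r)).card := by
          apply Finset.card_le_card_of_injOn Prod.snd hsub
          intro s hs t ht hst
          rw [Finset.mem_coe, Finset.mem_filter] at hs ht
          exact Prod.ext (hs.2.trans ht.2.symm) hst
      _ = 2 * r + 1 := by
          rw [Int.card_Icc]
          omega

/-- gluing of the two parts of the environment -/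
noncomputable def gl (N : ℕ) (y : ℤ) (r : ℕ) (u : S1 N y r → ℝ) (v : S2 N y r → ℝ) :
    ℕ → ℤ → ℝ := fun i x =>
  if h : (i, x) ∈ S1 N y r then u ⟨(i, x), h⟩ else
    if h' : (i, x) ∈ S2 N y r then v ⟨(i, x), h'⟩ else 0

lemma gl_env (N : ℕ) (y : ℤ) (r : ℕ) (η : ℕ → ℤ → ℝ) {i : ℕ} {x : ℤ} (h : (i, x) ∈ Bx N) :
    gl N y r (fun s => η s.1.1 s.1.2) (fun s => η s.1.1 s.1.2) i x = η i x := by
  unfold gl
  by_cases h1 : (i, x) ∈ S1 N y r
  · rw [dif_pos h1]
  · have h2 : (i, x) ∈ S2 N y r := by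
      unfold S1 at h1
      unfold S2
      rw [Finset.mem_filter] at h1 ⊢
      exact ⟨h, fun h3 => h1 ⟨h, h3⟩⟩
    rw [dif_neg h1, dif_pos h2]

lemma measurable_gl (N : ℕ) (y : ℤ) (r : ℕ) (i : ℕ) (x : ℤ) :
    Measurable (fun p : (S1 N y r → ℝ) × (S2 N y r → ℝ) => gl N y r p.1 p.2 i x) := by
  unfold gl
  by_cases h1 : (i, x) ∈ S1 N y r
  · simp only [dif_pos h1]
    exact (measurable_pi_apply _).comp measurable_fst
  · by_cases h2 : (i, x) ∈ S2 N y r
    · simp only [dif_neg h1, dif_pos h2]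
      exact (measurable_pi_apply _).comp measurable_snd
    · simp only [dif_neg h1, dif_neg h2]
      exact measurable_const

lemma bar_S1 {N : ℕ} {y : ℤ} {r : ℕ} {i : ℕ} {x : ℤ} (h : (i, x) ∈ S1 N y r) :
    bar N y r i x = 0 := by
  unfold S1 at h
  rw [Finset.mem_filter] at h
  obtain ⟨_, h1, h2⟩ := h
  unfold Tm at h1
  rw [Finset.mem_filter] at h1
  unfold bar
  rw [if_pos h1.2, if_neg]
  unfold inT at h2
  push_cast at h2
  rw [abs_le] at h2
  have := h2.2
  intro hcon
  nlinarith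

lemma mulK_bar_gl (β : ℝ) (N : ℕ) (y : ℤ) (r : ℕ) (u u' : S1 N y r → ℝ) (v : S2 N y r → ℝ) :
    mulK (bar N y r) (wt β (gl N y r u v)) = mulK (bar N y r) (wt β (gl N y r u' v)) := by
  funext i x
  unfold mulK
  by_cases h : (i, x) ∈ S1 N y r
  · rw [bar_S1 h, zero_mul, zero_mul]
  · congr 1
    unfold wt gl
    rw [dif_neg h, dif_neg h]

/-- the tube paths -/
def Wt (N : ℕ) (y : ℤ) (r : ℕ) : Type :=
  {w : Fin (2 * N) → Bool // 0 + pos w (2 * N) = 2 * y ∧
    ∀ i, 1 ≤ i → i ≤ 2 * N → inT N y r i (0 + pos w i)}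

noncomputable instance (N : ℕ) (y : ℤ) (r : ℕ) : Fintype (Wt N y r) := by
  unfold Wt; infer_instance

/-- the window sites visited by a path -/
noncomputable def vis {N : ℕ} {y : ℤ} {r : ℕ} (w : Wt N y r) : Finset (S1 N y r) :=
  Finset.univ.filter (fun s => s.1.2 = 0 + pos w.1 s.1.1)

lemma abs_pos_le {n : ℕ} (w : Fin n → Bool) (i : ℕ) : |pos w i| ≤ (n : ℤ) := by
  unfold pos
  refine (Finset.abs_sum_le_sum_abs _ _).trans ?_
  calc ∑ k : Fin n, |(if k.val < i then (if w k then (1 : ℤ) else -1) else 0)| ≤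
      ∑ k : Fin n, (1 : ℤ) := by
        apply Finset.sum_le_sum
        intro k _
        split_ifs <;> simp
    _ = n := by simp

lemma sum_vis {N : ℕ} {y : ℤ} {r : ℕ} (w : Wt N y r) (f : ℕ → ℤ → ℝ) :
    ∑ s ∈ vis w, f s.1.1 s.1.2 = ∑ i ∈ Tm N, f i (0 + pos w.1 i) := by
  refine Finset.sum_bij (fun s _ => s.1.1) ?_ ?_ ?_ ?_
  · intro s _
    have := s.2
    unfold S1 at this
    rw [Finset.mem_filter] at this
    exact this.2.1
  · intro s hs t ht hst
    unfold vis at hs ht
    rw [Finset.mem_filter] at hs ht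
    apply Subtype.ext
    apply Prod.ext hst
    rw [hs.2, ht.2, hst]
  · intro i hi
    have hi' := hi
    unfold Tm at hi'
    rw [Finset.mem_filter, Finset.mem_Icc] at hi'
    have hmem : (i, 0 + pos w.1 i) ∈ S1 N y r := by
      unfold S1 Bx
      rw [Finset.mem_filter, Finset.mem_product, Finset.mem_Icc, Finset.mem_Icc]
      have h1 := abs_pos_le w.1 i
      rw [abs_le] at h1
      refine ⟨⟨hi'.1, ?_, ?_⟩, hi, w.2.2 i hi'.1.1 hi'.1.2⟩
      · simp only; omega
      · simp only; omega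
    refine ⟨⟨(i, 0 + pos w.1 i), hmem⟩, ?_, rfl⟩
    unfold vis
    rw [Finset.mem_filter]
    exact ⟨Finset.mem_univ _, rfl⟩
  · intro s hs
    unfold vis at hs
    rw [Finset.mem_filter] at hs
    rw [← hs.2]

lemma card_vis {N : ℕ} {y : ℤ} {r : ℕ} (w : Wt N y r) : (vis w).card = (Tm N).card := by
  have := sum_vis w (fun _ _ => 1)
  simp only [Finset.sum_const, nsmul_eq_mul, mul_one] at this
  exact_mod_cast this

lemma sum_shift (f : ℕ → ℝ) (n : ℕ) :
    ∑ i : Fin n, f (i.val + 1) = ∑ i ∈ Finset.Icc 1 n, f i := by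
  rw [Fin.sum_univ_eq_sum_range (fun i => f (i + 1)) n]
  induction n with
  | zero => simp
  | succ n ih => rw [Finset.sum_range_succ, ih, Finset.sum_Icc_succ_top (by omega)]

/-- the weights of the paths outside the window -/
noncomputable def cw (β : ℝ) {N : ℕ} {y : ℤ} {r : ℕ} (v : S2 N y r → ℝ) (w : Wt N y r) : ℝ :=
  Real.exp (β * ∑ i ∈ Finset.Icc 1 (2 * N) \ Tm N, gl N y r (fun _ => 0) v i (0 + pos w.1 i))

lemma Z_gl (β : ℝ) (N : ℕ) (y : ℤ) (r : ℕ) (u : S1 N y r → ℝ) (v : S2 N y r → ℝ) :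
    Z (mulK (tub (2 * N) (2 * y) r) (wt β (gl N y r u v))) 0 (2 * N) (2 * y) =
      ZZw β (cw β v) (vis (N := N) (y := y) (r := r)) u := by
  have e : tub (2 * N) (2 * y) r = fun i x => if inT N y r i x then 1 else 0 := by
    funext i x
    unfold tub inT
    congr
  rw [e, Z_indicator (inT N y r), ← Finset.sum_filter,
    Finset.sum_subtype (p := fun w : Fin (2 * N) → Bool => 0 + pos w (2 * N) = 2 * y ∧
    ∀ i, 1 ≤ i → i ≤ 2 * N → inT N y r i (0 + pos w i)) _ (by intro x; simp)]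
  unfold ZZw
  apply Finset.sum_congr rfl
  intro w _
  have h1 : pw (wt β (gl N y r u v)) 0 w.1 =
      Real.exp (β * ∑ i ∈ Finset.Icc 1 (2 * N), gl N y r u v i (0 + pos w.1 i)) := by
    unfold pw wt
    rw [← Real.exp_sum, ← sum_shift (fun i => gl N y r u v i (0 + pos w.1 i)), Finset.mul_sum]
  have hsub : Tm N ⊆ Finset.Icc 1 (2 * N) := Finset.filter_subset _ _
  rw [h1, ← Finset.sum_sdiff hsub, mul_add, Real.exp_add]
  unfold cw
  congr 1
  · congr 2
    apply Finset.sum_congr rfl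
    intro i hi
    rw [Finset.mem_sdiff] at hi
    have hnot : (i, 0 + pos w.1 i) ∉ S1 N y r := by
      unfold S1
      rw [Finset.mem_filter]
      intro h
      exact hi.2 h.2.1
    unfold gl
    rw [dif_neg hnot, dif_neg hnot]
  · congr 2
    rw [← sum_vis w (gl N y r u v)]
    apply Finset.sum_congr rfl
    intro s _
    unfold gl
    rw [dif_pos s.2]

end Pool.Agent.K1H53.SD
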